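import Pool.Agent.Q201.AR.Stm2

/-!
Project AR (MP_f714b8_lc), job MIOTA: the graph of `ι` in the Marker extension (helper109).
-/

set_option autoImplicit false

open FirstOrder FirstOrder.Language Pool.Agent.Helper227.EN

namespace Pool.Agent.Q109.AR_MIOTA

open Q201.AR

/-- the atomic formula for the first relation -/
def f1 {α : Type} (a : α) : (Sig ar3).Formula α :=
  Relations.formula (L := Sig ar3) (n := 1) (⟨0, rfl⟩ : {j : Fin 3 // ar3 j = 1}) ![Term.var a]

/-- the atomic formula for the second relation -/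
def f2 {α : Type} (a b : α) : (Sig ar3).Formula α :=
  Relations.formula (L := Sig ar3) (n := 2) (⟨1, rfl⟩ : {j : Fin 3 // ar3 j = 2})
    ![Term.var a, Term.var b]

/-- the atomic formula for the third relation -/
def f3 {α : Type} (a b c : α) : (Sig ar3).Formula α :=
  Relations.formula (L := Sig ar3) (n := 3) (⟨2, rfl⟩ : {j : Fin 3 // ar3 j = 3})
    ![Term.var a, Term.var b, Term.var c]

theorem realize_f1 {α M : Type} [(Sig ar3).Structure M] (a : α) (v : α → M) :
    (f1 a).Realize v ↔ r1 (v a) := by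
  unfold f1 r1
  rw [Formula.realize_rel]
  have : (fun i => Term.realize v ((![Term.var a] : Fin 1 → (Sig ar3).Term α) i)) = ![v a] := by
    funext i
    fin_cases i
    rfl
  rw [this]

theorem realize_f2 {α M : Type} [(Sig ar3).Structure M] (a b : α) (v : α → M) :
    (f2 a b).Realize v ↔ r2 (v a) (v b) := by
  unfold f2 r2
  rw [Formula.realize_rel]
  have : (fun i => Term.realize v ((![Term.var a, Term.var b] : Fin 2 → (Sig ar3).Term α) i)) =
      ![v a, v b] := by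
    funext i
    fin_cases i <;> rfl
  rw [this]

theorem realize_f3 {α M : Type} [(Sig ar3).Structure M] (a b c : α) (v : α → M) :
    (f3 a b c).Realize v ↔ r3 (v a) (v b) (v c) := by
  unfold f3 r3
  rw [Formula.realize_rel]
  have : (fun i => Term.realize v
      ((![Term.var a, Term.var b, Term.var c] : Fin 3 → (Sig ar3).Term α) i)) =
      ![v a, v b, v c] := by
    funext i
    fin_cases i <;> rfl
  rw [this]

theorem t_MIOTA : S_MIOTA := by
  intro A B C
  refine ⟨f1 1 ⊓ ((f1 0 ⊓ A) ⊔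
    (Formula.iExs (Fin 1) (f2 (Sum.inl 0) (Sum.inr 0) ⊓
      B.relabel (![Sum.inr 0, Sum.inl 1] : Fin 2 → Fin 2 ⊕ Fin 1)) ⊔
    Formula.iExs (Fin 2) (f3 (Sum.inl 0) (Sum.inr 0) (Sum.inr 1) ⊓
      C.relabel (![Sum.inr 0, Sum.inr 1, Sum.inl 1] : Fin 3 → Fin 2 ⊕ Fin 2)))), ?_⟩
  intro M _ R ι κ ν hc hA hB hC v
  obtain ⟨hg, h1, h2, h3⟩ := hc
  simp only [Formula.realize_inf, Formula.realize_sup, Formula.realize_iExs,
    Formula.realize_relabel, realize_f1, realize_f2, realize_f3, Sum.elim_inl, Sum.elim_inr, h1, h2, h3]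
  have hAv : ∀ a b, v 0 = ι a → v 1 = ι b → (A.Realize v ↔ ι a = b) := by
    intro a b ha hb
    have h := hA ![a, b]
    have h' : ι ∘ ![a, b] = v := by
      funext i
      fin_cases i
      · exact ha.symm
      · exact hb.symm
    rw [h'] at h
    exact h
  have hBv : ∀ (s : Fin 1 → M) (a b : M), s 0 = ι a → v 1 = ι b →
      (B.Realize (Sum.elim v s ∘ (![Sum.inr 0, Sum.inl 1] : Fin 2 → Fin 2 ⊕ Fin 1)) ↔ κ a = b) := by
    intro s a b ha hb
    have h := hB ![a, b]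
    have h' : ι ∘ ![a, b] = Sum.elim v s ∘ (![Sum.inr 0, Sum.inl 1] : Fin 2 → Fin 2 ⊕ Fin 1) := by
      funext i
      fin_cases i
      · exact ha.symm
      · exact hb.symm
    rw [h'] at h
    exact h
  have hCv : ∀ (s : Fin 2 → M) (a a' b : M), s 0 = ι a → s 1 = ι a' → v 1 = ι b →
      (C.Realize (Sum.elim v s ∘ (![Sum.inr 0, Sum.inr 1, Sum.inl 1] : Fin 3 → Fin 2 ⊕ Fin 2)) ↔
        ν a a' = b) := by
    intro s a a' b ha ha' hb
    have h := hC ![a, a', b]
    have h' : ι ∘ ![a, a', b] =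
        Sum.elim v s ∘ (![Sum.inr 0, Sum.inr 1, Sum.inl 1] : Fin 3 → Fin 2 ⊕ Fin 2) := by
      funext i
      fin_cases i
      · exact ha.symm
      · exact ha'.symm
      · exact hb.symm
    rw [h'] at h
    exact h
  constructor
  · rintro ⟨⟨b, hb⟩, h⟩
    rcases h with ⟨⟨a, ha⟩, h⟩ | ⟨s, ⟨a, ha, ha'⟩, h⟩ | ⟨s, ⟨a, a', hR, ha, hs0, hs1⟩, h⟩
    · rw [hAv a b ha hb] at h
      rw [ha, h, hb]
    · rw [hBv s a b ha' hb] at h
      rw [ha, h, hb]
    · rw [hCv s a a' b hs0 hs1 hb] at h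
      rw [ha, h, hb]
  · intro hv
    refine ⟨⟨v 0, hv.symm⟩, ?_⟩
    rcases hg.surj (v 0) with ⟨a, ha⟩ | ⟨a, ha⟩ | ⟨a, b, hR, ha⟩
    · left
      exact ⟨⟨a, ha⟩, (hAv a (v 0) ha hv.symm).2 ha.symm⟩
    · right
      left
      exact ⟨fun _ => ι a, ⟨a, ha, rfl⟩, (hBv _ a (v 0) rfl hv.symm).2 ha.symm⟩
    · right
      right
      exact ⟨![ι a, ι b], ⟨a, b, hR, ha, rfl, rfl⟩, (hCv _ a b (v 0) rfl rfl hv.symm).2 ha.symm⟩

end Pool.Agent.Q109.AR_MIOTA
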