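import Mathlib
import Pool.Agent.Q109.AS.Stm

/-!
# From the property `P(c)` to the threshold (project AS)
-/

set_option autoImplicit false

namespace Pool.Agent.Q109.AS

theorem fin_mono {c d : ℝ} (h : P c) (hd : d ≤ c) : P d := by
  obtain ⟨δ, hδ, n₀, h⟩ := h
  refine ⟨δ, hδ, max n₀ 1, fun n hn a ha => ?_⟩
  have hn1 : (1 : ℝ) ≤ n := by exact_mod_cast le_trans (le_max_right _ _) hn
  have h1 : (n : ℝ) ^ d ≤ (n : ℝ) ^ c := Real.rpow_le_rpow_of_exponent_le hn1 hd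
  refine le_trans ?_ (h n (le_trans (le_max_left _ _) hn) a fun i h2 h3 => (ha i h2 h3).trans h1)
  exact mul_le_mul_of_nonneg_left h1 hδ.le

theorem fin_low (h : ∀ K : ℕ, 1 ≤ K → P (3 * K / (4 * K + 1))) (c : ℝ) (hc : c < 3 / 4) : P c := by
  obtain ⟨K, hK⟩ := exists_nat_gt (1 / (3 / 4 - c))
  have h0 : 0 < 3 / 4 - c := by linarith
  have hK0 : (0 : ℝ) < K := lt_trans (by positivity) hK
  have hK1 : 1 ≤ K := by exact_mod_cast hK0
  refine fin_mono (h K hK1) ?_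
  rw [div_lt_iff₀ h0] at hK
  rw [le_div_iff₀ (by positivity)]
  nlinarith

theorem fin_up (h : ¬ P (10 / 11)) (c : ℝ) (hc : 10 / 11 ≤ c) : ¬ P c := fun h1 => h (fin_mono h1 hc)

theorem fin_sup (h1 : ∀ K : ℕ, 1 ≤ K → P (3 * K / (4 * K + 1))) (h2 : ¬ P (10 / 11)) :
    3 / 4 ≤ sSup {c : ℝ | 0 ≤ c ∧ c ≤ 1 ∧ P c} ∧ sSup {c : ℝ | 0 ≤ c ∧ c ≤ 1 ∧ P c} ≤ 10 / 11 := by
  have hb : BddAbove {c : ℝ | 0 ≤ c ∧ c ≤ 1 ∧ P c} := ⟨1, fun c hc => hc.2.1⟩
  constructor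
  · apply le_of_forall_lt
    intro c hc
    have h3 : (max c 0 + 3 / 4) / 2 ∈ {c : ℝ | 0 ≤ c ∧ c ≤ 1 ∧ P c} := by
      have h4 := le_max_right c 0
      have h5 : max c 0 < 3 / 4 := max_lt hc (by norm_num)
      exact ⟨by linarith, by linarith, fin_low h1 _ (by linarith)⟩
    refine lt_of_lt_of_le ?_ (le_csSup hb h3)
    have h4 := le_max_left c 0
    have h5 : max c 0 < 3 / 4 := max_lt hc (by norm_num)
    linarith
  · apply csSup_le
    · exact ⟨0, le_rfl, by norm_num, fin_low h1 0 (by norm_num)⟩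
    · intro c hc
      by_contra h3
      exact fin_up h2 c (not_le.1 h3).le hc.2.2

end Pool.Agent.Q109.AS
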