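import Mathlib
import Pool.Agent.Q109.AS.Stm

/-!
# The window inequality (project AS)
-/

set_option autoImplicit false

open scoped Pointwise
open Finset

namespace Pool.Agent.Q109.AS

/-- the differences of a block -/
def winU (a : ℕ → ℕ) (M T : ℕ) : Finset ℤ := (Icc 1 M).image fun r : ℕ => (a (T * M + r) : ℤ) - r

/-- the sums of a block -/
def winV (a : ℕ → ℕ) (M T : ℕ) : Finset ℤ := (Icc 1 M).image fun r : ℕ => (a (T * M + r) : ℤ) + r

open Classical in
/-- the elements of `S` in a window -/
noncomputable def winW (n : ℕ) (a : ℕ → ℕ) (M D : ℕ) : Finset ℕ :=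
  (Ioo ((D - 1) * M) ((D + 3) * M)).filter (· ∈ S n a)

theorem mem_winW (n : ℕ) (a : ℕ → ℕ) (M D z : ℕ) :
    z ∈ winW n a M D ↔ ((D - 1) * M < z ∧ z < (D + 3) * M) ∧ z ∈ S n a := by
  classical
  unfold winW
  rw [mem_filter, mem_Ioo]

theorem win_U_ne (a : ℕ → ℕ) (M T : ℕ) (hM : 1 ≤ M) : (winU a M T).Nonempty :=
  (nonempty_Icc.2 hM).image _

theorem win_V_ne (a : ℕ → ℕ) (M T : ℕ) (hM : 1 ≤ M) : (winV a M T).Nonempty :=
  (nonempty_Icc.2 hM).image _

theorem win_sub (a : ℕ → ℕ) (M T : ℕ) : M ≤ (winV a M T - winU a M T).card := by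
  have h1 : ((Icc 1 M).image fun r : ℕ => (2 * r : ℤ)) ⊆ winV a M T - winU a M T := by
    intro z hz
    rw [mem_image] at hz
    obtain ⟨r, hr, rfl⟩ := hz
    rw [mem_sub]
    refine ⟨(a (T * M + r) : ℤ) + r, mem_image_of_mem _ hr, (a (T * M + r) : ℤ) - r,
      mem_image_of_mem _ hr, by ring⟩
  have h2 : ((Icc 1 M).image fun r : ℕ => (2 * r : ℤ)).card = M := by
    rw [card_image_of_injective, Nat.card_Icc]
    · omega
    · intro x y hxy
      simp only at hxy
      omega
  exact h2.symm.le.trans (card_le_card h1)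

theorem win_add (n : ℕ) (a : ℕ → ℕ) (M T D : ℕ) (hD : 1 ≤ D) (ha : ∀ i, 1 ≤ i → i ≤ n → a i ≤ M)
    (hn : (T + D + 1) * M ≤ n) : (winU a M T + winV a M (T + D)).card ≤ (winW n a M D).card := by
  have h1 : winU a M T + winV a M (T + D) ⊆
      (winW n a M D).image (fun w : ℕ => (w : ℤ) - D * M) := by
    intro z hz
    rw [mem_add] at hz
    obtain ⟨u, hu, v, hv, rfl⟩ := hz
    rw [winU, mem_image] at hu
    rw [winV, mem_image] at hv
    obtain ⟨r, hr, rfl⟩ := hu
    obtain ⟨q, hq, rfl⟩ := hv
    rw [mem_Icc] at hr hq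
    obtain ⟨D', rfl⟩ : ∃ D', D = D' + 1 := ⟨D - 1, by omega⟩
    have e1 : (T + (D' + 1) + 1) * M = T * M + D' * M + M + M := by ring
    have e2 : (T + (D' + 1)) * M = T * M + D' * M + M := by ring
    rw [e1] at hn
    have ha1 := ha (T * M + r) (by omega) (by omega)
    have ha2 := ha (T * M + D' * M + M + q) (by omega) (by omega)
    rw [mem_image]
    refine ⟨a (T * M + r) + a (T * M + D' * M + M + q) + ((T * M + D' * M + M + q) - (T * M + r)),
      ?_, ?_⟩
    · rw [mem_winW]
      have e3 : (D' + 1 - 1) * M = D' * M := by simp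
      have e4 : (D' + 1 + 3) * M = D' * M + M + M + M + M := by ring
      rw [e3, e4]
      refine ⟨⟨by omega, by omega⟩, T * M + r, T * M + D' * M + M + q, by omega, by omega,
        by omega, rfl⟩
    · rw [e2]
      have e5 : (((T * M + D' * M + M + q) - (T * M + r) : ℕ) : ℤ) =
          (T * M + D' * M + M + q : ℤ) - (T * M + r) := by
        rw [Nat.cast_sub (by omega)]
        push_cast
        ring
      push_cast [e5]
      ring
  exact (card_le_card h1).trans card_image_le

theorem win_S_fin (n : ℕ) (a : ℕ → ℕ) : (S n a).Finite := by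
  have h1 : S n a ⊆ ((range (n + 1) ×ˢ range (n + 1)).image
      (fun p : ℕ × ℕ => a p.1 + a p.2 + (p.2 - p.1)) : Finset ℕ) := by
    rintro z ⟨i, j, h1, h2, h3, rfl⟩
    rw [mem_coe, mem_image]
    exact ⟨(i, j), by rw [mem_product, mem_range, mem_range]; exact ⟨by omega, by omega⟩, rfl⟩
  exact (finite_toSet _).subset h1

theorem win_chain (hCH : S_CH) (K M n t : ℕ) (a : ℕ → ℕ) (hK : 1 ≤ K) (hM : 1 ≤ M) (ht : 1 ≤ t)
    (ha : ∀ i, 1 ≤ i → i ≤ n → a i ≤ M) (hn : (2 * K * t + 1) * M ≤ n) :
    M ^ (2 * K - 1) ≤ (max (winW n a M t).card (winW n a M (2 * t)).card) ^ (3 * K) := by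
  have h := hCH K M (winW n a M t).card (winW n a M (2 * t)).card (fun k => winU a M (k * t))
    (fun k => winV a M (k * t)) hK (fun k => win_U_ne a M _ hM) (fun k => win_V_ne a M _ hM)
    (fun k => win_sub a M _)
    (fun k hk => by
      have e : (k + 1) * t = k * t + t := by ring
      show (winU a M (k * t) + winV a M ((k + 1) * t)).card ≤ _
      rw [e]
      refine win_add n a M (k * t) t ht ha (le_trans ?_ hn)
      apply Nat.mul_le_mul_right
      have h1 : (k + 1) * t ≤ 2 * K * t := Nat.mul_le_mul_right _ (by omega)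
      rw [e] at h1
      omega)
    (fun k hk => by
      have e : (k + 2) * t = k * t + 2 * t := by ring
      show (winU a M (k * t) + winV a M ((k + 2) * t)).card ≤ _
      rw [e]
      refine win_add n a M (k * t) (2 * t) (by omega) ha (le_trans ?_ hn)
      apply Nat.mul_le_mul_right
      have h1 : (k + 2) * t ≤ 2 * K * t := Nat.mul_le_mul_right _ (by omega)
      rw [e] at h1
      omega)
  refine h.trans ?_
  rw [pow_mul]
  apply Nat.pow_le_pow_left
  have h1 := le_max_left (winW n a M t).card (winW n a M (2 * t)).card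
  have h2 := le_max_right (winW n a M t).card (winW n a M (2 * t)).card
  calc (winW n a M t).card ^ 2 * (winW n a M (2 * t)).card
      ≤ (max (winW n a M t).card (winW n a M (2 * t)).card) ^ 2 *
        max (winW n a M t).card (winW n a M (2 * t)).card :=
        Nat.mul_le_mul (Nat.pow_le_pow_left h1 2) h2
    _ = _ := by ring

/-- the better of the two windows `4 w` and `8 w` -/
noncomputable def winD (n : ℕ) (a : ℕ → ℕ) (M w : ℕ) : ℕ :=
  if (winW n a M (2 * (4 * w))).card ≤ (winW n a M (4 * w)).card then 4 * w else 2 * (4 * w)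

theorem winD_card (n : ℕ) (a : ℕ → ℕ) (M w : ℕ) : (winW n a M (winD n a M w)).card =
    max (winW n a M (4 * w)).card (winW n a M (2 * (4 * w))).card := by
  unfold winD
  split_ifs with h
  · rw [max_eq_left h]
  · rw [max_eq_right (by omega)]

theorem winW_disj (n : ℕ) (a : ℕ → ℕ) (M D E : ℕ) (h : D + 4 ≤ E) :
    Disjoint (winW n a M D) (winW n a M E) := by
  rw [Finset.disjoint_left]
  intro z h1 h2
  rw [mem_winW] at h1 h2
  have h3 : (D + 3) * M ≤ (E - 1) * M := Nat.mul_le_mul_right _ (by omega)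
  omega

theorem win (hCH : S_CH) : S_WIN := by
  intro K M X n a hK hM ha hn
  rcases Nat.eq_zero_or_pos X with hX | hX
  · subst hX
    exact ⟨M, Nat.pow_le_pow_right hM (by omega), by simp⟩
  have hne : (Ioc X (2 * X)).Nonempty := by
    rw [nonempty_Ioc]; omega
  obtain ⟨w₀, hw₀, hmin⟩ := exists_min_image (Ioc X (2 * X))
    (fun w => (winW n a M (winD n a M w)).card) hne
  refine ⟨(winW n a M (winD n a M w₀)).card, ?_, ?_⟩
  · rw [winD_card]
    rw [mem_Ioc] at hw₀
    refine win_chain hCH K M n (4 * w₀) a hK hM (by omega) ha (le_trans ?_ hn)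
    apply Nat.mul_le_mul_right
    have h1 : 2 * K * (4 * w₀) ≤ 2 * K * (4 * (2 * X)) := Nat.mul_le_mul_left _ (by omega)
    calc 2 * K * (4 * w₀) + 1 ≤ 2 * K * (4 * (2 * X)) + 1 := by omega
      _ = 16 * K * X + 1 := by ring
  · have hdisj : ∀ x ∈ Ioc X (2 * X), ∀ y ∈ Ioc X (2 * X), x ≠ y →
        Disjoint (winW n a M (winD n a M x)) (winW n a M (winD n a M y)) := by
      intro x hx y hy hxy
      rw [mem_Ioc] at hx hy
      have hDx : winD n a M x = 4 * x ∨ winD n a M x = 8 * x := by
        unfold winD; split_ifs <;> omega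
      have hDy : winD n a M y = 4 * y ∨ winD n a M y = 8 * y := by
        unfold winD; split_ifs <;> omega
      have h1 : winD n a M x + 4 ≤ winD n a M y ∨ winD n a M y + 4 ≤ winD n a M x := by omega
      rcases h1 with h1 | h1
      · exact winW_disj n a M _ _ h1
      · exact (winW_disj n a M _ _ h1).symm
    have h2 : X * (winW n a M (winD n a M w₀)).card ≤
        ∑ w ∈ Ioc X (2 * X), (winW n a M (winD n a M w)).card := by
      have h3 := Finset.card_nsmul_le_sum (Ioc X (2 * X))
        (fun w => (winW n a M (winD n a M w)).card) (winW n a M (winD n a M w₀)).card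
        (fun w hw => hmin w hw)
      rw [Nat.card_Ioc, smul_eq_mul] at h3
      have e : 2 * X - X = X := by omega
      rw [e] at h3
      exact h3
    rw [← card_biUnion hdisj] at h2
    refine h2.trans ?_
    rw [← Set.ncard_coe_finset]
    apply Set.ncard_le_ncard _ (win_S_fin n a)
    intro z hz
    rw [mem_coe, mem_biUnion] at hz
    obtain ⟨w, -, hz⟩ := hz
    rw [mem_winW] at hz
    exact hz.2

end Pool.Agent.Q109.AS
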