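import Pool.Agent.Q109.Tree

/-! Ancestors in a rooted tree decomposition and the counting lemma for gates. -/

set_option autoImplicit false

namespace Q109.Tree.RTD

open Finset Classical

variable {V ι : Type*} [DecidableEq ι] {G : SimpleGraph V} {B : ι → Finset V}

lemma depth_par_le (R : RTD G ι B) {i : ι} (h : 0 < R.depth i) :
    R.depth i = R.depth (R.par i) + 1 := by
  apply R.depth_par
  rintro rfl
  rw [R.depth_root] at h
  exact absurd h (lt_irrefl _)

lemma depth_iter (R : RTD G ι B) (x : ι) : ∀ m, m ≤ R.depth x →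
    R.depth (R.par^[m] x) = R.depth x - m := by
  intro m
  induction m with
  | zero => intro _; simp
  | succ m ih =>
    intro hm
    have h1 := ih (by omega)
    rw [Function.iterate_succ_apply']
    have h2 := R.depth_par_le (i := R.par^[m] x) (by omega)
    omega

/-- the ancestor of `x` at depth `d` -/
def A (R : RTD G ι B) (x : ι) (d : ℕ) : ι := R.par^[R.depth x - d] x

lemma depth_A (R : RTD G ι B) {x : ι} {d : ℕ} (h : d ≤ R.depth x) : R.depth (R.A x d) = d := by
  unfold A
  rw [R.depth_iter x _ (by omega)]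
  omega

lemma A_self (R : RTD G ι B) (x : ι) : R.A x (R.depth x) = x := by
  unfold A; simp

lemma A_A (R : RTD G ι B) {x : ι} {d d' : ℕ} (h : d ≤ R.depth x) (h' : d' ≤ d) :
    R.A (R.A x d) d' = R.A x d' := by
  have h1 := R.depth_A h
  unfold A at *
  rw [h1, ← Function.iterate_add_apply]
  congr 2
  omega

lemma mem_iter (R : RTD G ι B) {y : V} {x : ι} (h : y ∈ B x) : ∀ m,
    m + R.depth (R.top y) ≤ R.depth x → y ∈ B (R.par^[m] x) := by
  intro m
  induction m with
  | zero => intro _; exact h
  | succ m ih =>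
    intro hm
    have h1 := ih (by omega)
    rw [Function.iterate_succ_apply']
    apply R.mem_par y _ h1
    intro h2
    have h3 := R.depth_iter x m (by omega)
    rw [h2] at h3
    omega

lemma mem_A (R : RTD G ι B) {y : V} {x : ι} (h : y ∈ B x) {d : ℕ}
    (h1 : R.depth (R.top y) ≤ d) (h2 : d ≤ R.depth x) : y ∈ B (R.A x d) := by
  apply R.mem_iter h
  omega

lemma mem_A' (R : RTD G ι B) {y : V} {x : ι} {d d' : ℕ} (h : y ∈ B (R.A x d))
    (h1 : R.depth (R.top y) ≤ d') (h2 : d' ≤ d) (h3 : d ≤ R.depth x) : y ∈ B (R.A x d') := by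
  rw [← R.A_A h3 h2]
  exact R.mem_A h h1 (by rw [R.depth_A h3]; exact h2)

lemma A_top (R : RTD G ι B) {y : V} {x : ι} (h : y ∈ B x) :
    R.A x (R.depth (R.top y)) = R.top y := by
  have h0 := R.le_depth y x h
  have h1 := R.mem_A h le_rfl h0
  by_contra hne
  have h2 := R.depth_lt h1 hne
  rw [R.depth_A h0] at h2
  omega

/-- greedy choice of marked nodes -/
theorem exists_marked (R : RTD G ι B) : ∀ (m : ℕ) (Y : Finset V), Y.card = m →
    ∃ (U : Finset V) (X : Finset ι), U ⊆ Y ∧ G.IsIndepSet (U : Set V) ∧ X.card ≤ U.card ∧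
      ∀ y ∈ Y, ∃ x ∈ X, y ∈ B x := by
  intro m
  induction m using Nat.strong_induction_on with
  | _ m ih =>
    intro Y hY
    rcases Y.eq_empty_or_nonempty with rfl | hne
    · exact ⟨∅, ∅, by simp, by simp [SimpleGraph.IsIndepSet], by simp, by simp⟩
    · obtain ⟨u, hu, hmax⟩ := Finset.exists_max_image Y (fun v => R.depth (R.top v)) hne
      have hlt : (Y.filter (fun y => y ∉ B (R.top u))).card < m := by
        rw [← hY]
        apply Finset.card_lt_card
        refine ⟨Finset.filter_subset _ _, fun h => ?_⟩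
        have := (Finset.mem_filter.1 (h hu)).2
        exact this (R.mem_top u)
      obtain ⟨U, X, hU, hI, hXU, hhit⟩ := ih _ hlt _ rfl
      have huU : u ∉ U := fun h => (Finset.mem_filter.1 (hU h)).2 (R.mem_top u)
      have hnadj : ∀ w ∈ U, ¬ G.Adj w u := by
        intro w hw hadj
        have h1 := Finset.mem_filter.1 (hU hw)
        exact h1.2 (R.mem_top_of_adj hadj (hmax w h1.1))
      refine ⟨insert u U, insert (R.top u) X, ?_, ?_, ?_, ?_⟩
      · intro w hw
        rw [Finset.mem_insert] at hw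
        rcases hw with rfl | hw
        · exact hu
        · exact (Finset.mem_filter.1 (hU hw)).1
      · intro a ha b hb hab
        rw [Finset.coe_insert, Set.mem_insert_iff] at ha hb
        rcases ha with rfl | ha <;> rcases hb with rfl | hb
        · exact absurd rfl hab
        · exact fun h => hnadj b hb h.symm
        · exact fun h => hnadj a ha h
        · exact hI ha hb hab
      · rw [Finset.card_insert_of_notMem huU]
        exact (Finset.card_insert_le _ _).trans (by omega)
      · intro y hy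
        by_cases h : y ∈ B (R.top u)
        · exact ⟨R.top u, Finset.mem_insert_self _ _, h⟩
        · obtain ⟨x, hx, hx2⟩ := hhit y (Finset.mem_filter.2 ⟨hy, h⟩)
          exact ⟨x, Finset.mem_insert_of_mem hx, hx2⟩

/-- the depth at which the path from the root to `x` leaves the subtree of `v` -/
noncomputable def e (R : RTD G ι B) (v : V) (x : ι) : ℕ :=
  Nat.findGreatest (fun d => v ∈ B (R.A x d)) (R.depth x)

/-- the marked nodes below the subtree of `v` -/
noncomputable def Xv (R : RTD G ι B) (X : Finset ι) (v : V) : Finset ι :=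
  X.filter (fun x => ∃ d ≤ R.depth x, v ∈ B (R.A x d))

/-- the gates of `v` -/
noncomputable def gates (R : RTD G ι B) (X : Finset ι) (v : V) : Finset ι :=
  (R.Xv X v).image (fun x => R.A x (R.e v x))

lemma e_spec (R : RTD G ι B) {v : V} {x : ι} {d : ℕ} (hd : d ≤ R.depth x)
    (h : v ∈ B (R.A x d)) : v ∈ B (R.A x (R.e v x)) ∧ R.e v x ≤ R.depth x ∧ d ≤ R.e v x :=
  ⟨Nat.findGreatest_spec (P := fun d => v ∈ B (R.A x d)) hd h, Nat.findGreatest_le _,
    Nat.le_findGreatest hd h⟩

lemma top_le_e (R : RTD G ι B) {v : V} {x : ι} {d : ℕ} (hd : d ≤ R.depth x)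
    (h : v ∈ B (R.A x d)) : R.depth (R.top v) ≤ R.e v x := by
  obtain ⟨h1, h2, -⟩ := R.e_spec hd h
  have := R.le_depth v _ h1
  rwa [R.depth_A h2] at this

/-- Every neighbour `y` of `v` with deeper top that meets a marked node lies in the bag of a gate
of `v`. -/
lemma mem_gate (R : RTD G ι B) {X : Finset ι} {v y : V} {x : ι} (hx : x ∈ X) (hy : y ∈ B x)
    (hadj : G.Adj v y) (hd : R.depth (R.top v) ≤ R.depth (R.top y)) :
    ∃ a ∈ R.gates X v, y ∈ B a := by
  have h1 := R.mem_top_of_adj hadj hd
  have h2 := R.le_depth y x hy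
  have h3 : v ∈ B (R.A x (R.depth (R.top y))) := by rw [R.A_top hy]; exact h1
  obtain ⟨h4, h5, h6⟩ := R.e_spec h2 h3
  refine ⟨R.A x (R.e v x), ?_, R.mem_A hy h6 h5⟩
  exact Finset.mem_image.2 ⟨x, Finset.mem_filter.2 ⟨hx, _, h2, h3⟩, rfl⟩

end Q109.Tree.RTD
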