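import Mathlib
import Pool.Agent.Q82.BB.Stm

set_option autoImplicit false

open MeasureTheory Filter Topology Set

namespace Pool.Agent.Q82.BB

/-- Bounded operators on the plane. -/
abbrev sh_E := (ℝ × ℝ) →L[ℝ] (ℝ × ℝ)

/-- `(a, b) ↦ (b, m a)`. -/
noncomputable def sh_A (m : ℝ) : sh_E :=
  (ContinuousLinearMap.inl ℝ ℝ ℝ).comp (ContinuousLinearMap.snd ℝ ℝ ℝ) +
    m • (ContinuousLinearMap.inr ℝ ℝ ℝ).comp (ContinuousLinearMap.fst ℝ ℝ ℝ)

theorem sh_A_apply (m : ℝ) (v : ℝ × ℝ) : sh_A m v = (v.2, m * v.1) := by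
  simp [sh_A]

/-- The flow. -/
noncomputable def sh_P (m r : ℝ) : ℝ × ℝ := NormedSpace.exp (r • sh_A m) ((0, 1) : ℝ × ℝ)

theorem sh_P_zero (m : ℝ) : sh_P m 0 = (0, 1) := by
  simp [sh_P]

theorem sh_P_deriv (m r : ℝ) : HasDerivAt (sh_P m) ((sh_P m r).2, m * (sh_P m r).1) r := by
  have h := hasDerivAt_exp_smul_const' (𝕂 := ℝ) (𝔸 := sh_E) (sh_A m) r
  have h2 := h.clm_apply (hasDerivAt_const r ((0, 1) : ℝ × ℝ))
  have h3 : (sh_A m * NormedSpace.exp (r • sh_A m)) ((0, 1) : ℝ × ℝ) +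
      (NormedSpace.exp (r • sh_A m)) (0 : ℝ × ℝ) = ((sh_P m r).2, m * (sh_P m r).1) := by
    rw [map_zero, add_zero, mul_apply_eq_comp, sh_A_apply]
    rfl
  rw [h3] at h2
  exact h2

theorem sh_P_smooth (n : ℕ) : ContDiff ℝ n (fun q : ℝ × ℝ => sh_P q.1 q.2) := by
  have h1 : ContDiff ℝ n (fun q : ℝ × ℝ => q.2 • sh_A q.1) := by
    unfold sh_A
    fun_prop
  have h2 : ContDiff ℝ n (NormedSpace.exp : sh_E → sh_E) := by
    rw [contDiff_iff_contDiffAt]
    intro x
    exact (NormedSpace.exp_analytic (𝕂 := ℝ) x).contDiffAt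
  have h3 : ContDiff ℝ n (fun q : ℝ × ℝ => NormedSpace.exp (q.2 • sh_A q.1)) := h2.comp h1
  exact h3.clm_apply contDiff_const

theorem sh1 : S_SH := by
  refine ⟨fun m r => (sh_P m r).1, fun m r => (sh_P m r).2, ?_⟩
  have d1 : ∀ m r, HasDerivAt (fun r => (sh_P m r).1) ((sh_P m r).2) r := fun m r =>
    ((hasFDerivAt_fst (𝕜 := ℝ) (E := ℝ) (F := ℝ) (p := sh_P m r)).comp_hasDerivAt r (sh_P_deriv m r))
  have d2 : ∀ m r, HasDerivAt (fun r => (sh_P m r).2) (m * (sh_P m r).1) r := fun m r =>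
    ((hasFDerivAt_snd (𝕜 := ℝ) (E := ℝ) (F := ℝ) (p := sh_P m r)).comp_hasDerivAt r (sh_P_deriv m r))
  have z1 : ∀ m, (sh_P m 0).1 = 0 := fun m => by rw [sh_P_zero]
  have z2 : ∀ m, (sh_P m 0).2 = 1 := fun m => by rw [sh_P_zero]
  refine ⟨fun n => contDiff_fst.comp (sh_P_smooth n), fun n => contDiff_snd.comp (sh_P_smooth n), z1, z2,
    d1, d2, ?_, ?_⟩
  · intro m r s
    have hc : ∀ t, HasDerivAt (fun t => (sh_P m t).1 * (sh_P m (t - (r - s))).2 -
        (sh_P m t).2 * (sh_P m (t - (r - s))).1) 0 t := by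
      intro t
      have e1 := (d1 m (t - (r - s))).comp_sub_const t (r - s)
      have e2 := (d2 m (t - (r - s))).comp_sub_const t (r - s)
      have e3 := ((d1 m t).fun_mul e2).fun_sub ((d2 m t).fun_mul e1)
      have e4 : (sh_P m t).2 * (sh_P m (t - (r - s))).2 + (sh_P m t).1 * (m * (sh_P m (t - (r - s))).1) -
        (m * (sh_P m t).1 * (sh_P m (t - (r - s))).1 + (sh_P m t).2 * (sh_P m (t - (r - s))).2) = 0 := by
        ring
      rw [e4] at e3
      exact e3
    have := is_const_of_deriv_eq_zero (fun t => (hc t).differentiableAt) (fun t => (hc t).deriv) (r - s) r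
    simp only [sub_self, z1, z2, mul_one, mul_zero, sub_zero, sub_sub_cancel] at this
    exact this
  · intro m r s
    have hc : ∀ t, HasDerivAt (fun t => (sh_P m t).2 * (sh_P m (t - (r - s))).2 -
        m * (sh_P m t).1 * (sh_P m (t - (r - s))).1) 0 t := by
      intro t
      have e1 := (d1 m (t - (r - s))).comp_sub_const t (r - s)
      have e2 := (d2 m (t - (r - s))).comp_sub_const t (r - s)
      have e3 := ((d2 m t).fun_mul e2).fun_sub (((d1 m t).const_mul m).fun_mul e1)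
      have e4 : m * (sh_P m t).1 * (sh_P m (t - (r - s))).2 + (sh_P m t).2 * (m * (sh_P m (t - (r - s))).1) -
        (m * (sh_P m t).2 * (sh_P m (t - (r - s))).1 + m * (sh_P m t).1 * (sh_P m (t - (r - s))).2) = 0 := by
        ring
      rw [e4] at e3
      exact e3
    have := is_const_of_deriv_eq_zero (fun t => (hc t).differentiableAt) (fun t => (hc t).deriv) (r - s) r
    simp only [sub_self, z1, z2, mul_one, mul_zero, sub_zero, sub_sub_cancel] at this
    exact this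

end Pool.Agent.Q82.BB
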