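import Mathlib
import Pool.Agent.Q82.BB.Stm

set_option autoImplicit false

open MeasureTheory Filter Topology Set

namespace Pool.Agent.Q82.BB

theorem ti_left (c τ : ℝ) (hc : 0 < c) :
    ∫ s in (0 : ℝ)..τ, Real.exp (-(c * (τ - s))) ≤ 1 / c := by
  have h : ∫ s in (0 : ℝ)..τ, Real.exp (-(c * (τ - s)))
      = Real.exp (-(c * (τ - τ))) / c - Real.exp (-(c * (τ - 0))) / c := by
    refine intervalIntegral.integral_eq_sub_of_hasDerivAt (f := fun s => Real.exp (-(c * (τ - s))) / c)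
      (fun s _ => ?_) ?_
    · have h1 : HasDerivAt (fun s : ℝ => -(c * (τ - s))) c s := by
        have := (((hasDerivAt_id s).const_sub τ).const_mul (-c))
        convert this using 1 <;> first | (ext y; simp) | simp
      have h2 := (h1.exp).div_const c
      have h3 : Real.exp (-(c * (τ - s))) * c / c = Real.exp (-(c * (τ - s))) := by
        rw [mul_div_assoc, div_self hc.ne', mul_one]
      rw [h3] at h2
      exact h2
    · exact (by fun_prop : Continuous (fun s : ℝ => Real.exp (-(c * (τ - s))))).intervalIntegrable _ _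
  rw [h]
  have h3 : 0 < Real.exp (-(c * (τ - 0))) / c := by positivity
  simp only [sub_self, mul_zero, neg_zero, Real.exp_zero]
  linarith

theorem ti_right (c τ T : ℝ) (hc : 0 < c) :
    ∫ s in τ..T, Real.exp (-(c * (s - τ))) ≤ 1 / c := by
  have h : ∫ s in τ..T, Real.exp (-(c * (s - τ)))
      = -Real.exp (-(c * (T - τ))) / c - -Real.exp (-(c * (τ - τ))) / c := by
    refine intervalIntegral.integral_eq_sub_of_hasDerivAt (f := fun s => -Real.exp (-(c * (s - τ))) / c)
      (fun s _ => ?_) ?_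
    · have h1 : HasDerivAt (fun s : ℝ => -(c * (s - τ))) (-c) s := by
        have := (((hasDerivAt_id s).sub_const τ).const_mul (-c))
        convert this using 1 <;> first | (ext y; simp) | simp
      have h2 := (h1.exp).fun_neg.div_const c
      have h3 : -(Real.exp (-(c * (s - τ))) * -c) / c = Real.exp (-(c * (s - τ))) := by
        rw [mul_neg, neg_neg, mul_div_assoc, div_self hc.ne', mul_one]
      rw [h3] at h2
      exact h2
    · exact (by fun_prop : Continuous (fun s : ℝ => Real.exp (-(c * (s - τ))))).intervalIntegrable _ _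
  rw [h]
  have h3 : 0 < Real.exp (-(c * (T - τ))) / c := by positivity
  simp only [sub_self, mul_zero, neg_zero, Real.exp_zero, neg_div]
  linarith

theorem ti_abs (c τ T : ℝ) (hc : 0 < c) (hτ : τ ∈ Icc 0 T) :
    ∫ s in (0 : ℝ)..T, Real.exp (-(c * |τ - s|)) ≤ 2 / c := by
  have hcont : Continuous (fun s : ℝ => Real.exp (-(c * |τ - s|))) := by fun_prop
  rw [← intervalIntegral.integral_add_adjacent_intervals (hcont.intervalIntegrable 0 τ)
    (hcont.intervalIntegrable τ T)]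
  have h1 : ∫ s in (0 : ℝ)..τ, Real.exp (-(c * |τ - s|)) = ∫ s in (0 : ℝ)..τ, Real.exp (-(c * (τ - s))) := by
    refine intervalIntegral.integral_congr (fun s hs => ?_)
    rw [uIcc_of_le hτ.1] at hs
    rw [abs_of_nonneg (by linarith [hs.2])]
  have h2 : ∫ s in τ..T, Real.exp (-(c * |τ - s|)) = ∫ s in τ..T, Real.exp (-(c * (s - τ))) := by
    refine intervalIntegral.integral_congr (fun s hs => ?_)
    rw [uIcc_of_le hτ.2] at hs
    rw [abs_sub_comm, abs_of_nonneg (by linarith [hs.1])]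
  rw [h1, h2]
  have := ti_left c τ hc
  have := ti_right c τ T hc
  have h3 : 2 / c = 1 / c + 1 / c := by ring
  linarith

theorem ti_pt (ξ τ s : ℝ) (hξ : 1 ≤ |ξ|) :
    Real.exp (-(ξ ^ 2 * |τ - s| / 4)) * ex ξ s ≤
      ex ξ τ * Real.exp (-((3 / 16 * ξ ^ 2) * |τ - s|)) := by
  unfold ex
  rw [← Real.exp_add, ← Real.exp_add]
  apply Real.exp_le_exp.2
  have h1 : |ξ| ≤ ξ ^ 2 := by
    rw [← sq_abs]; nlinarith
  have h2 : 0 ≤ |τ - s| := abs_nonneg _
  have h3 : τ - s ≤ |τ - s| := le_abs_self _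
  have h4 : (τ - s) * |ξ| ≤ |τ - s| * ξ ^ 2 :=
    (mul_le_mul_of_nonneg_right h3 (abs_nonneg _)).trans (mul_le_mul_of_nonneg_left h1 h2)
  nlinarith

theorem ti : S_TI := by
  intro T hT
  refine ⟨4 * T * Real.exp (T / 16) + 43, by positivity, ?_⟩
  intro ξ τ hτ
  have hcont : Continuous (fun s : ℝ => Real.exp (-(ξ ^ 2 * |τ - s| / 4)) * ex ξ s) := by
    unfold ex; fun_prop
  have hex : 0 < ex ξ τ := Real.exp_pos _
  rcases le_total |ξ| 1 with hξ | hξ
  · have h1 : ∫ s in (0 : ℝ)..T, Real.exp (-(ξ ^ 2 * |τ - s| / 4)) * ex ξ s ≤ ∫ s in (0 : ℝ)..T, (1 : ℝ) := by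
      refine intervalIntegral.integral_mono_on hT.le (hcont.intervalIntegrable _ _)
        (continuous_const.intervalIntegrable _ _) (fun s hs => ?_)
      have e1 : Real.exp (-(ξ ^ 2 * |τ - s| / 4)) ≤ 1 := Real.exp_le_one_iff.2 (by
        have : 0 ≤ ξ ^ 2 * |τ - s| / 4 := by positivity
        linarith)
      have e2 : ex ξ s ≤ 1 := Real.exp_le_one_iff.2 (by
        have : 0 ≤ s * |ξ| / 16 := by have := hs.1; positivity
        linarith)
      exact mul_le_one₀ e1 (Real.exp_pos _).le e2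
    have h2 : ∫ s in (0 : ℝ)..T, (1 : ℝ) = T := by simp
    rw [h2] at h1
    refine h1.trans ?_
    have h3 : Real.exp (-(T / 16)) ≤ ex ξ τ := by
      unfold ex
      apply Real.exp_le_exp.2
      have : τ * |ξ| ≤ T * 1 := mul_le_mul hτ.2 hξ (abs_nonneg _) hT.le
      linarith
    have h4 : (1 + |ξ|) ^ 2 ≤ 4 := by nlinarith [abs_nonneg ξ]
    have h5 : Real.exp (-(T / 16)) / 4 ≤ ex ξ τ / (1 + |ξ|) ^ 2 :=
      div_le_div₀ hex.le h3 (by positivity) h4
    have h6 : (4 * T * Real.exp (T / 16) + 43) * (Real.exp (-(T / 16)) / 4) ≤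
        (4 * T * Real.exp (T / 16) + 43) * (ex ξ τ / (1 + |ξ|) ^ 2) :=
      mul_le_mul_of_nonneg_left h5 (by positivity)
    refine le_trans ?_ h6
    have h7 : Real.exp (T / 16) * Real.exp (-(T / 16)) = 1 := by
      rw [← Real.exp_add]; simp
    have h8 : 0 < Real.exp (-(T / 16)) := Real.exp_pos _
    have h9 : (4 * T * Real.exp (T / 16) + 43) * (Real.exp (-(T / 16)) / 4)
        = T * (Real.exp (T / 16) * Real.exp (-(T / 16))) + 43 / 4 * Real.exp (-(T / 16)) := by ring
    rw [h9, h7]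
    nlinarith
  · have hξ2 : 0 < ξ ^ 2 := by
      rw [← sq_abs]; positivity
    have h1 : ∫ s in (0 : ℝ)..T, Real.exp (-(ξ ^ 2 * |τ - s| / 4)) * ex ξ s ≤
        ∫ s in (0 : ℝ)..T, ex ξ τ * Real.exp (-((3 / 16 * ξ ^ 2) * |τ - s|)) := by
      refine intervalIntegral.integral_mono_on hT.le (hcont.intervalIntegrable _ _)
        ((by fun_prop : Continuous (fun s : ℝ => ex ξ τ * Real.exp (-((3 / 16 * ξ ^ 2) * |τ - s|)))).intervalIntegrable
          _ _) (fun s _ => ti_pt ξ τ s hξ)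
    refine h1.trans ?_
    rw [intervalIntegral.integral_const_mul]
    have h2 := ti_abs (3 / 16 * ξ ^ 2) τ T (by positivity) hτ
    have h3 : 2 / (3 / 16 * ξ ^ 2) ≤ 43 / (1 + |ξ|) ^ 2 := by
      rw [div_le_div_iff₀ (by positivity) (by positivity)]
      have h4 : (1 + |ξ|) ^ 2 ≤ 4 * ξ ^ 2 := by
        rw [← sq_abs ξ]; nlinarith
      nlinarith
    have h5 : ex ξ τ * ∫ s in (0 : ℝ)..T, Real.exp (-((3 / 16 * ξ ^ 2) * |τ - s|)) ≤
        ex ξ τ * (43 / (1 + |ξ|) ^ 2) := mul_le_mul_of_nonneg_left (h2.trans h3) hex.le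
    refine h5.trans ?_
    have h6 : 0 ≤ 4 * T * Real.exp (T / 16) := by positivity
    have h7 : 0 ≤ ex ξ τ / (1 + |ξ|) ^ 2 := by positivity
    have h8 : ex ξ τ * (43 / (1 + |ξ|) ^ 2) = 43 * (ex ξ τ / (1 + |ξ|) ^ 2) := by ring
    rw [h8]
    nlinarith [mul_nonneg h6 h7]

end Pool.Agent.Q82.BB
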