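import Mathlib
import Pool.Agent.H931R2.Haxell

/-! Blocking partitions of graphs of maximum degree three. -/

set_option autoImplicit false

namespace Q109.Block3

open SimpleGraph Finset Classical

variable {V : Type}

/-! ### degrees -/

lemma two_nbrs {F : SimpleGraph V} [Finite V] {v a b u : V} (h : (F.neighborSet v).ncard ≤ 2)
    (ha : F.Adj v a) (hb : F.Adj v b) (hab : a ≠ b) (hu : F.Adj v u) : u = a ∨ u = b := by
  by_contra hcon
  push Not at hcon
  have hsub : ({u, a, b} : Set V) ⊆ F.neighborSet v := by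
    intro z hz
    simp only [Set.mem_insert_iff, Set.mem_singleton_iff] at hz
    rcases hz with rfl | rfl | rfl
    · exact hu
    · exact ha
    · exact hb
  have h3 : ({u, a, b} : Set V).ncard = 3 := by
    rw [Set.ncard_insert_of_notMem (by simp [hcon.1, hcon.2]), Set.ncard_pair hab]
  have := Set.ncard_le_ncard hsub (Set.toFinite _)
  omega

/-- a maximal subgraph of maximum degree two -/
lemma exists_max (G : SimpleGraph V) [Finite V] : ∃ F : SimpleGraph V, F ≤ G ∧
    (∀ v, (F.neighborSet v).ncard ≤ 2) ∧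
    ∀ u v, G.Adj u v → ¬ F.Adj u v → (F.neighborSet u).ncard = 2 ∨ (F.neighborSet v).ncard = 2 := by
  set P : Set (SimpleGraph V) := {F | F ≤ G ∧ ∀ v, (F.neighborSet v).ncard ≤ 2} with hP
  have hne : P.Nonempty := ⟨⊥, bot_le, fun v => by simp [neighborSet_bot]⟩
  obtain ⟨F, hF, hmax⟩ := (Set.toFinite P).exists_maximal hne
  obtain ⟨hFG, hdeg⟩ := hF
  refine ⟨F, hFG, hdeg, fun u v huv hnuv => ?_⟩
  by_contra hcon
  push Not at hcon
  have hu : (F.neighborSet u).ncard ≤ 1 := by have := hdeg u; omega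
  have hv : (F.neighborSet v).ncard ≤ 1 := by have := hdeg v; omega
  have hF' : F ⊔ edge u v ∈ P := by
    refine ⟨sup_le hFG ?_, ?_⟩
    · intro a b hab
      rw [edge_adj] at hab
      rcases hab.1 with ⟨rfl, rfl⟩ | ⟨rfl, rfl⟩
      · exact huv
      · exact huv.symm
    · intro w
      by_cases h1 : w = u
      · subst h1
        have : (F ⊔ edge w v).neighborSet w ⊆ insert v (F.neighborSet w) := by
          intro z hz
          rw [mem_neighborSet, sup_adj, edge_adj] at hz
          rcases hz with hz | ⟨⟨_, rfl⟩ | ⟨h2, rfl⟩, _⟩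
          · exact Set.mem_insert_of_mem _ hz
          · exact Set.mem_insert _ _
          · exact absurd h2 huv.ne
        have h3 := Set.ncard_le_ncard this (Set.toFinite _)
        have h4 := Set.ncard_insert_le v (F.neighborSet w)
        omega
      · by_cases h2 : w = v
        · subst h2
          have : (F ⊔ edge u w).neighborSet w ⊆ insert u (F.neighborSet w) := by
            intro z hz
            rw [mem_neighborSet, sup_adj, edge_adj] at hz
            rcases hz with hz | ⟨⟨h3, _⟩ | ⟨_, rfl⟩, _⟩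
            · exact Set.mem_insert_of_mem _ hz
            · exact absurd h3 h1
            · exact Set.mem_insert _ _
          have h3 := Set.ncard_le_ncard this (Set.toFinite _)
          have h4 := Set.ncard_insert_le u (F.neighborSet w)
          omega
        · have : (F ⊔ edge u v).neighborSet w ⊆ F.neighborSet w := by
            intro z hz
            rw [mem_neighborSet, sup_adj, edge_adj] at hz
            rcases hz with hz | ⟨⟨h3, _⟩ | ⟨h3, _⟩, _⟩
            · exact hz
            · exact absurd h3 h1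
            · exact absurd h3 h2
          exact (Set.ncard_le_ncard this (Set.toFinite _)).trans (hdeg w)
  have h5 := hmax hF' le_sup_left
  apply hnuv
  apply h5
  rw [sup_adj, edge_adj]
  exact Or.inr ⟨Or.inl ⟨rfl, rfl⟩, huv.ne⟩

/-! ### paths given by functions -/

/-- injective path of length `m` -/
def IP (F : SimpleGraph V) (m : ℕ) (p : ℕ → V) : Prop :=
  (∀ i < m, F.Adj (p i) (p (i + 1))) ∧ ∀ i ≤ m, ∀ j ≤ m, p i = p j → i = j

/-- a walk from a vertex of the path stays in the path -/
lemma walk_in_path {F : SimpleGraph V} [Finite V] (hdeg : ∀ v, (F.neighborSet v).ncard ≤ 2) {m : ℕ}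
    {p : ℕ → V} (hp : IP F m p) {x z : V} (w : F.Walk x z) :
    ∀ j, x = p j → w.length ≤ j → j + w.length ≤ m →
      ∃ k, z = p k ∧ j ≤ k + w.length ∧ k ≤ j + w.length := by
  induction w with
  | nil => intro j hj _ _; exact ⟨j, hj, by omega, by omega⟩
  | @cons x u z h w ih =>
    intro j hj h1 h2
    rw [Walk.length_cons] at h1 h2
    have e1 : F.Adj (p j) (p (j - 1)) := by
      have := hp.1 (j - 1) (by omega)
      rw [show j - 1 + 1 = j by omega] at this
      exact this.symm
    have e2 : F.Adj (p j) (p (j + 1)) := hp.1 j (by omega)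
    have hne : p (j - 1) ≠ p (j + 1) := fun he => by
      have := hp.2 _ (by omega) _ (by omega) he
      omega
    rw [hj] at h
    rcases two_nbrs (hdeg _) e1 e2 hne h with h3 | h3
    · obtain ⟨k, hk, h4, h5⟩ := ih (j - 1) h3 (by omega) (by omega)
      refine ⟨k, hk, ?_, ?_⟩ <;> rw [Walk.length_cons] <;> omega
    · obtain ⟨k, hk, h4, h5⟩ := ih (j + 1) h3 (by omega) (by omega)
      refine ⟨k, hk, ?_, ?_⟩ <;> rw [Walk.length_cons] <;> omega

lemma IP.walk {F : SimpleGraph V} {m : ℕ} {p : ℕ → V} (hp : IP F m p) (i : ℕ) :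
    ∀ n, i + n ≤ m → ∃ w : F.Walk (p i) (p (i + n)), w.length = n := by
  intro n
  induction n with
  | zero => intro _; exact ⟨Walk.nil, rfl⟩
  | succ n ih =>
    intro h
    obtain ⟨w, hw⟩ := ih (by omega)
    refine ⟨w.append (Walk.cons (hp.1 (i + n) (by omega)) Walk.nil), ?_⟩
    rw [Walk.length_append, hw]
    rfl

lemma IP.walk' {F : SimpleGraph V} {m : ℕ} {p : ℕ → V} (hp : IP F m p) {i j : ℕ} (hi : i ≤ m)
    (hj : j ≤ m) : ∃ w : F.Walk (p i) (p j), w.length = (j - i) + (i - j) := by
  rcases le_total i j with h | h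
  · obtain ⟨n, rfl⟩ := Nat.exists_eq_add_of_le h
    obtain ⟨w, hw⟩ := hp.walk i n hj
    exact ⟨w, by rw [hw]; omega⟩
  · obtain ⟨n, rfl⟩ := Nat.exists_eq_add_of_le h
    obtain ⟨w, hw⟩ := hp.walk j n hi
    exact ⟨w.reverse, by rw [Walk.length_reverse, hw]; omega⟩

/-! ### balls -/

/-- few vertices are within bounded distance -/
lemma ball_card {F : SimpleGraph V} [Finite V] {d : ℕ}
    (hdeg : ∀ v, (F.neighborSet v).ncard ≤ d) (v : V) :
    ∀ m : ℕ, {z | ∃ w : F.Walk v z, w.length ≤ m}.ncard ≤ (d + 1) ^ m := by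
  have := Fintype.ofFinite V
  intro m
  induction m with
  | zero =>
    have : {z | ∃ w : F.Walk v z, w.length ≤ 0} = {v} := by
      ext z
      simp only [Set.mem_ofPred_eq, Set.mem_singleton_iff]
      constructor
      · rintro ⟨w, hw⟩
        exact (Walk.eq_of_length_eq_zero (Nat.le_zero.1 hw)).symm
      · rintro rfl
        exact ⟨Walk.nil, le_rfl⟩
    rw [this]
    simp
  | succ m ih =>
    set B := {z | ∃ w : F.Walk v z, w.length ≤ m}.toFinset with hB
    have hsub : {z | ∃ w : F.Walk v z, w.length ≤ m + 1} ⊆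
        ((B.biUnion (fun z => insert z (F.neighborSet z).toFinset) : Finset V) : Set V) := by
      rintro z ⟨w, hw⟩
      simp only [coe_biUnion, Set.mem_iUnion, mem_coe, hB, Set.mem_toFinset, Set.mem_ofPred_eq,
        mem_insert, mem_neighborSet, exists_prop]
      by_cases hlen : w.length ≤ m
      · exact ⟨z, ⟨w, hlen⟩, Or.inl rfl⟩
      · -- split off the last edge
        obtain ⟨u, huz, w', hw'⟩ : ∃ (u : V) (_ : F.Adj z u) (w' : F.Walk u v), w'.length + 1 = w.length := by
          have hr : w.reverse.length = w.length := Walk.length_reverse w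
          cases hw2 : w.reverse with
          | nil => rw [hw2] at hr; simp at hr; omega
          | cons h w' => rw [hw2, Walk.length_cons] at hr; exact ⟨_, h, w', hr⟩
        exact ⟨u, ⟨w'.reverse, by rw [Walk.length_reverse]; omega⟩, Or.inr huz.symm⟩
    have h1 := Set.ncard_le_ncard hsub (Set.toFinite _)
    rw [Set.ncard_coe_finset] at h1
    refine h1.trans ((card_biUnion_le_card_mul _ _ (d + 1) ?_).trans ?_)
    · intro z _
      refine (card_insert_le _ _).trans ?_
      have := hdeg z
      rw [Set.ncard_eq_toFinset_card'] at this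
      omega
    · rw [pow_succ]
      apply Nat.mul_le_mul_right
      rw [Set.ncard_eq_toFinset_card'] at ih
      exact ih

/-! ### the blocks -/

/-- half the length of a block -/
def L : ℕ := 64

/-- centre of a long path -/
def Rich (F : SimpleGraph V) (x : V) : Prop := ∃ p, IP F (2 * L) p ∧ p L = x

def Near (F : SimpleGraph V) (x y : V) : Prop := ∃ w : F.Walk x y, w.length ≤ 2 * L

lemma Near.symm {F : SimpleGraph V} {x y : V} (h : Near F x y) : Near F y x := by
  obtain ⟨w, hw⟩ := h
  exact ⟨w.reverse, by rw [Walk.length_reverse]; exact hw⟩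

lemma exists_net (F : SimpleGraph V) [Finite V] : ∃ X : Set V, (∀ x ∈ X, Rich F x) ∧
    (∀ x ∈ X, ∀ y ∈ X, x ≠ y → ¬ Near F x y) ∧ ∀ q, Rich F q → ∃ x ∈ X, Near F q x := by
  set P : Set (Set V) := {X | (∀ x ∈ X, Rich F x) ∧ ∀ x ∈ X, ∀ y ∈ X, x ≠ y → ¬ Near F x y} with hP
  have hne : P.Nonempty := ⟨∅, by simp, by simp⟩
  obtain ⟨X, hX, hmax⟩ := (Set.toFinite P).exists_maximal hne
  refine ⟨X, hX.1, hX.2, fun q hq => ?_⟩
  by_contra hcon
  push Not at hcon
  have hqX : q ∉ X := fun h => hcon q h ⟨Walk.nil, Nat.zero_le _⟩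
  have : insert q X ∈ P := by
    refine ⟨?_, ?_⟩
    · intro x hx
      rcases hx with rfl | hx
      · exact hq
      · exact hX.1 x hx
    · intro x hx y hy hxy
      rcases hx with rfl | hx <;> rcases hy with rfl | hy
      · exact absurd rfl hxy
      · exact hcon y hy
      · exact fun h => hcon x hx h.symm
      · exact hX.2 x hx y hy hxy
  exact hqX (hmax this (Set.subset_insert _ _) (Set.mem_insert _ _))

/-- connected by a short walk in `H` -/
def HN (H : SimpleGraph V) (a b : V) : Prop := ∃ w : H.Walk a b, w.length ≤ 2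

lemma HN.symm {H : SimpleGraph V} {x y : V} (h : HN H x y) : HN H y x := by
  obtain ⟨w, hw⟩ := h
  exact ⟨w.reverse, by rw [Walk.length_reverse]; exact hw⟩

/-- one edge can be selected in every block so that no two selected edges are joined by a short
walk in `H` -/
lemma exists_select (F H : SimpleGraph V) [Finite V] (hH : ∀ v, (H.neighborSet v).ncard ≤ 3)
    (X : Set V) (hX : ∀ x ∈ X, ∀ y ∈ X, x ≠ y → ¬ Near F x y)
    (P : X → ℕ → V) (hP : ∀ x, IP F (2 * L) (P x) ∧ P x L = x.1) :
    ∃ f : X → Fin (2 * L), ∀ x y : X, x ≠ y → ∀ s t : Fin 2,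
      ¬ HN H (P x (f x + s)) (P y (f y + t)) := by
  have := Fintype.ofFinite V
  have hinj : ∀ (x y : X) (i j : ℕ), i ≤ 2 * L → j ≤ 2 * L → P x i = P y j → x = y ∧ i = j := by
    intro x y i j hi hj h
    have hxy : x = y := by
      by_contra hne
      apply hX x.1 x.2 y.1 y.2 (fun h => hne (Subtype.ext h))
      obtain ⟨w1, hw1⟩ := (hP x).1.walk' (i := L) (j := i) (by omega) hi
      obtain ⟨w2, hw2⟩ := (hP y).1.walk' (i := j) (j := L) hj (by omega)
      rw [(hP x).2] at w1
      rw [(hP y).2] at w2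
      rw [← (hP x).2, ← (hP y).2]
      obtain ⟨w1, hw1⟩ := (hP x).1.walk' (i := L) (j := i) (by omega) hi
      obtain ⟨w2, hw2⟩ := (hP y).1.walk' (i := j) (j := L) hj (by omega)
      refine ⟨w1.append (w2.copy h.symm rfl), ?_⟩
      rw [Walk.length_append, Walk.length_copy, hw1, hw2]
      omega
    subst hxy
    exact ⟨rfl, (hP x).1.2 i hi j hj h⟩
  set adj : X × Fin (2 * L) → X × Fin (2 * L) → Prop := fun z z' => z.1 ≠ z'.1 ∧
    ∃ s t : Fin 2, HN H (P z.1 (z.2 + s)) (P z'.1 (z'.2 + t)) with hadj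
  have : Nonempty (Fin (2 * L)) := ⟨⟨0, by unfold L; omega⟩⟩
  have hsymm : ∀ a b, adj a b → adj b a := by
    rintro a b ⟨h1, s, t, h2⟩
    exact ⟨fun h => h1 h.symm, t, s, h2.symm⟩
  have hdom : ∀ z : X × Fin (2 * L), (univ.filter (fun y => adj y z)).card ≤ 64 := by
    intro z
    set B : Fin 2 → Finset V := fun s => {v | ∃ w : H.Walk (P z.1 (z.2 + s)) v, w.length ≤ 2}.toFinset
      with hB
    have hBc : ∀ s, (B s).card ≤ 16 := by
      intro s
      have := ball_card (F := H) hH (P z.1 (z.2 + s)) 2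
      rw [hB]
      simp only
      rw [← Set.ncard_eq_toFinset_card']
      exact this
    have hsub : univ.filter (fun y => adj y z) ⊆ (univ : Finset (Fin 2 × Fin 2)).biUnion
        (fun st => univ.filter (fun y : X × Fin (2 * L) => P y.1 (y.2 + st.2) ∈ B st.1)) := by
      intro y hy
      rw [mem_filter] at hy
      obtain ⟨_, _, s, t, w, hw⟩ := hy
      rw [mem_biUnion]
      refine ⟨(t, s), mem_univ _, mem_filter.2 ⟨mem_univ _, ?_⟩⟩
      simp only [hB, Set.mem_toFinset, Set.mem_ofPred_eq]
      exact ⟨w.reverse, by rw [Walk.length_reverse]; exact hw⟩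
    refine (card_le_card hsub).trans ((card_biUnion_le_card_mul _ _ 16 ?_).trans (by simp))
    rintro ⟨s, t⟩ _
    refine le_trans ?_ (hBc s)
    refine card_le_card_of_injOn (fun y => P y.1 (y.2 + t)) ?_ ?_
    · intro y hy
      exact (mem_filter.1 (mem_coe.1 hy)).2
    · intro y _ y' _ h
      have b1 := y.2.2
      have b2 := y'.2.2
      have b3 := t.2
      obtain ⟨h1, h2⟩ := hinj _ _ _ _ (by omega) (by omega) h
      refine Prod.ext h1 (Fin.ext (by omega))
  obtain ⟨f, hf⟩ := Pool.Agent.H931R2.Haxell.finite (adj := adj) hsymm (by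
    intro K hK Z hZ
    by_contra hcon
    push Not at hcon
    have hsub : K ×ˢ (univ : Finset (Fin (2 * L))) ⊆
        Z.biUnion (fun z => univ.filter (fun y => adj y z)) := by
      intro y hy
      obtain ⟨z, hz, hyz⟩ := hcon y.1 (Finset.mem_product.1 hy).1 y.2
      exact Finset.mem_biUnion.2 ⟨z, hz, Finset.mem_filter.2 ⟨Finset.mem_univ _, hyz⟩⟩
    have h1 := Finset.card_le_card hsub
    rw [Finset.card_product, Finset.card_univ, Fintype.card_fin] at h1
    have h2 : (Z.biUnion (fun z => univ.filter (fun y => adj y z))).card ≤ Z.card * 64 :=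
      Finset.card_biUnion_le_card_mul _ _ _ fun z _ => hdom z
    have h3 := hK.card_pos
    have h4 := h1.trans h2
    have h5 : 2 * L = 128 := rfl
    have h6 : K.card * (2 * L) = K.card * 128 := congrArg (fun m => K.card * m) h5
    have h7 : K.card * 128 ≤ Z.card * 64 := le_of_eq_of_le h6.symm h4
    omega) (univ : Finset X)
  refine ⟨f, fun x y hxy s t h => ?_⟩
  exact hf x (mem_univ _) y (mem_univ _) hxy ⟨hxy, s, t, h⟩

/-! ### the partition -/

/-- the length of a path without selected edges is bounded -/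
lemma no_long {F : SimpleGraph V} [Finite V] (hdeg : ∀ v, (F.neighborSet v).ncard ≤ 2)
    {X : Set V} (hnet : ∀ q, Rich F q → ∃ x ∈ X, Near F q x)
    (P : X → ℕ → V) (hP : ∀ x, IP F (2 * L) (P x) ∧ P x L = x.1) (f : X → Fin (2 * L))
    {F' : SimpleGraph V} (hF' : ∀ a b, F'.Adj a b → F.Adj a b ∧
      ∀ x : X, s(a, b) ≠ s(P x (f x), P x (f x + 1))) :
    ¬ ∃ p, IP F' (6 * L + 4) p := by
  rintro ⟨p, hp⟩
  have hpF : IP F (6 * L + 4) p := ⟨fun i hi => (hF' _ _ (hp.1 i hi)).1, hp.2⟩
  have hrich : Rich F (p (3 * L + 2)) := by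
    refine ⟨fun t => p (2 * L + 2 + t), ⟨fun i hi => hpF.1 _ (by omega), fun i hi j hj h => ?_⟩, ?_⟩
    · have := hpF.2 _ (by omega) _ (by omega) h
      omega
    · simp only
      rw [show 2 * L + 2 + L = 3 * L + 2 by omega]
  obtain ⟨x, hx, w, hw⟩ := hnet _ hrich
  obtain ⟨k, hk, hk1, hk2⟩ := walk_in_path hdeg hpF w (3 * L + 2) rfl (by omega) (by omega)
  have hfx := (f ⟨x, hx⟩).2
  have hxL : P ⟨x, hx⟩ L = p k := by rw [(hP ⟨x, hx⟩).2]; exact hk
  obtain ⟨w1, hw1⟩ := (hP ⟨x, hx⟩).1.walk' (i := L) (j := f ⟨x, hx⟩) (by omega) (by omega)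
  obtain ⟨w2, hw2⟩ := (hP ⟨x, hx⟩).1.walk' (i := L) (j := f ⟨x, hx⟩ + 1) (by omega) (by omega)
  obtain ⟨k1, e1, a1, b1⟩ := walk_in_path hdeg hpF w1 k hxL (by omega) (by omega)
  obtain ⟨k2, e2, a2, b2⟩ := walk_in_path hdeg hpF w2 k hxL (by omega) (by omega)
  have hadj : F.Adj (p k1) (p k2) := by
    rw [← e1, ← e2]
    exact (hP ⟨x, hx⟩).1.1 _ (by omega)
  have hprev : F'.Adj (p (k1 - 1)) (p k1) := by
    have := hp.1 (k1 - 1) (by omega)
    rwa [show k1 - 1 + 1 = k1 by omega] at this
  have hnext : F'.Adj (p k1) (p (k1 + 1)) := hp.1 k1 (by omega)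
  have hne : p (k1 - 1) ≠ p (k1 + 1) := fun he => by
    have := hp.2 _ (by omega) _ (by omega) he
    omega
  rcases two_nbrs (hdeg _) (hF' _ _ hprev.symm).1 (hF' _ _ hnext).1 hne hadj with h | h
  · apply (hF' _ _ hprev.symm).2 ⟨x, hx⟩
    rw [e1, e2, h]
  · apply (hF' _ _ hnext).2 ⟨x, hx⟩
    rw [e1, e2, h]

/-- The partition `R` (an equivalence relation) has connected parts. -/
def IsConnectedPartition (G : SimpleGraph V) (R : Setoid V) : Prop :=
  ∀ v, (G.induce {w | R v w}).Connected

/-- The walk meets every part in at most one vertex. -/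
def IsClean {G : SimpleGraph V} (R : Setoid V) {a b : V} (p : G.Walk a b) : Prop :=
  ∀ x ∈ p.support, ∀ y ∈ p.support, R x y → x = y

/-- Every clean path has length at most `l`. -/
def IsBlocking (G : SimpleGraph V) (R : Setoid V) (l : ℕ) : Prop :=
  ∀ (a b : V) (p : G.Walk a b), p.IsPath → IsClean R p → p.length ≤ l

lemma connected_parts {G F : SimpleGraph V} (h : F ≤ G) :
    IsConnectedPartition G F.reachableSetoid := by
  intro v
  have h1 := (F.connectedComponentMk v).connected_toSimpleGraph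
  have h2 : (F.connectedComponentMk v).supp = {w | F.reachableSetoid v w} := by
    ext w
    rw [ConnectedComponent.mem_supp_iff, ConnectedComponent.eq]
    exact ⟨fun h => h.symm, fun h => h.symm⟩
  unfold ConnectedComponent.toSimpleGraph at h1
  have h3 : (F.induce {w | F.reachableSetoid v w}).Connected := by
    rw [← h2]
    exact h1
  refine h3.mono ?_
  intro a b hab
  exact h hab

lemma deg_contra {G F : SimpleGraph V} [Finite V] (hG : ∀ v, (G.neighborSet v).ncard ≤ 3)
    (hFG : F ≤ G) {v a b : V} (h2 : (F.neighborSet v).ncard = 2) (ha : (G \ F).Adj v a)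
    (hb : (G \ F).Adj v b) (hab : a ≠ b) : False := by
  rw [sdiff_adj] at ha hb
  have hsub : insert a (insert b (F.neighborSet v)) ⊆ G.neighborSet v := by
    intro z hz
    rcases hz with rfl | rfl | hz
    · exact ha.1
    · exact hb.1
    · exact hFG hz
  have h3 := Set.ncard_le_ncard hsub (Set.toFinite _)
  have h4 : (insert b (F.neighborSet v)).ncard = 3 := by
    rw [Set.ncard_insert_of_notMem (show b ∉ F.neighborSet v from hb.2), h2]
  rw [Set.ncard_insert_of_notMem (by
      rintro (h | h)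
      · exact hab h
      · exact ha.2 h), h4] at h3
  have := hG v
  omega

theorem main {M : ℕ} (hM : M = 6 * L + 4) (G : SimpleGraph V) [Finite V]
    (hG : ∀ v, (G.neighborSet v).ncard ≤ 3) :
    ∃ R : Setoid V, IsConnectedPartition G R ∧ (∀ v, {w | R v w}.ncard ≤ 3 ^ M) ∧
      IsBlocking G R 5 := by
  obtain ⟨F, hFG, hdeg, hmax⟩ := exists_max G
  obtain ⟨X, hrich, hsep, hnet⟩ := exists_net F
  choose P hP using fun x : X => hrich x.1 x.2
  have hH : ∀ v, ((G \ F).neighborSet v).ncard ≤ 3 := by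
    intro v
    refine (Set.ncard_le_ncard ?_ (Set.toFinite _)).trans (hG v)
    intro z hz
    rw [mem_neighborSet, sdiff_adj] at hz
    exact hz.1
  obtain ⟨f, hf⟩ := exists_select F (G \ F) hH X hsep P hP
  set C : Set (Sym2 V) := {e | ∃ x : X, e = s(P x (f x), P x (f x + 1))} with hC
  set F' := F.deleteEdges C with hF'def
  have hF' : ∀ a b, F'.Adj a b ↔ F.Adj a b ∧ s(a, b) ∉ C := by
    intro a b
    rw [hF'def, deleteEdges_adj]
  have hnl := no_long hdeg hnet P hP f (F' := F') (by
    intro a b hab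
    rw [hF'] at hab
    exact ⟨hab.1, fun x hx => hab.2 ⟨x, hx⟩⟩)
  refine ⟨F'.reachableSetoid, connected_parts ((deleteEdges_le C).trans hFG), ?_, ?_⟩
  · intro v
    by_contra hcon
    push Not at hcon
    have hdeg' : ∀ v, (F'.neighborSet v).ncard ≤ 2 := by
      intro v
      refine (Set.ncard_le_ncard ?_ (Set.toFinite _)).trans (hdeg v)
      intro z hz
      rw [mem_neighborSet, hF'] at hz
      exact hz.1
    have hb := ball_card hdeg' v M
    obtain ⟨w, hw, hwn⟩ := Set.exists_mem_notMem_of_ncard_lt_ncard (lt_of_le_of_lt hb hcon)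
      (Set.toFinite _)
    obtain ⟨q, hq⟩ := (show F'.Reachable v w from hw).exists_isPath
    have hlen : M < q.length := by
      by_contra h
      exact hwn ⟨q, by omega⟩
    apply hnl
    rw [← hM]
    refine ⟨q.getVert, fun i hi => q.adj_getVert_succ (by omega), fun i hi j hj h => ?_⟩
    exact hq.getVert_injOn (by simp; omega) (by simp; omega) h
  · intro a b w hw hclean
    by_contra hlen
    push Not at hlen
    set v := w.getVert with hv
    have hinj : ∀ i ≤ 6, ∀ j ≤ 6, v i = v j → i = j := fun i hi j hj h =>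
      hw.getVert_injOn (by simp; omega) (by simp; omega) h
    have hG' : ∀ i < 6, G.Adj (v i) (v (i + 1)) := fun i hi => w.adj_getVert_succ (by omega)
    have hnF : ∀ i < 6, ¬ F'.Adj (v i) (v (i + 1)) := by
      intro i hi h
      have h1 := hclean (v i) (w.getVert_mem_support _) (v (i + 1)) (w.getVert_mem_support _)
        h.reachable
      have := hinj i (by omega) (i + 1) (by omega) h1
      omega
    have htype : ∀ i < 6, (G \ F).Adj (v i) (v (i + 1)) ∨ s(v i, v (i + 1)) ∈ C := by
      intro i hi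
      by_cases h : F.Adj (v i) (v (i + 1))
      · right
        by_contra hc
        exact hnF i hi ((hF' _ _).2 ⟨h, hc⟩)
      · left
        rw [sdiff_adj]
        exact ⟨hG' i hi, h⟩
    -- no three consecutive edges of `H`
    have hthree : ∀ i, i + 2 < 6 → ¬ ((G \ F).Adj (v i) (v (i + 1)) ∧
        (G \ F).Adj (v (i + 1)) (v (i + 2)) ∧ (G \ F).Adj (v (i + 2)) (v (i + 3))) := by
      rintro i hi ⟨h1, h2, h3⟩
      have h2' := h2
      rw [sdiff_adj] at h2'
      rcases hmax _ _ h2'.1 h2'.2 with h | h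
      · refine deg_contra hG hFG h h1.symm h2 ?_
        intro he
        have := hinj _ (by omega) _ (by omega) he
        omega
      · refine deg_contra hG hFG h h2.symm h3 ?_
        intro he
        have := hinj _ (by omega) _ (by omega) he
        omega
    -- two selected edges are not joined by a short walk
    have htwo : ∀ i j, i < j → j < 6 → HN (G \ F) (v (i + 1)) (v j) → s(v i, v (i + 1)) ∈ C →
        s(v j, v (j + 1)) ∈ C → False := by
      rintro i j hij hj hHN ⟨x, hx⟩ ⟨y, hy⟩
      have hxy : x ≠ y := by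
        rintro rfl
        rw [← hx, Sym2.eq_iff] at hy
        rcases hy with ⟨h, _⟩ | ⟨h, h'⟩
        · have := hinj _ (by omega) _ (by omega) h
          omega
        · have := hinj _ (by omega) _ (by omega) h'
          omega
      have e1 : ∃ s : Fin 2, v (i + 1) = P x (f x + s) := by
        rw [Sym2.eq_iff] at hx
        rcases hx with ⟨_, h⟩ | ⟨_, h⟩
        · exact ⟨1, h⟩
        · exact ⟨0, h⟩
      have e2 : ∃ s : Fin 2, v j = P y (f y + s) := by
        rw [Sym2.eq_iff] at hy
        rcases hy with ⟨h, _⟩ | ⟨h, _⟩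
        · exact ⟨0, h⟩
        · exact ⟨1, h⟩
      obtain ⟨s, hs⟩ := e1
      obtain ⟨t, ht⟩ := e2
      rw [hs, ht] at hHN
      exact hf x y hxy s t hHN
    have H0 : ∀ a, HN (G \ F) a a := fun a => ⟨Walk.nil, Nat.zero_le _⟩
    have H1 : ∀ a b, (G \ F).Adj a b → HN (G \ F) a b := fun a b h =>
      ⟨Walk.cons h Walk.nil, by simp⟩
    have H2 : ∀ a b c, (G \ F).Adj a b → (G \ F).Adj b c → HN (G \ F) a c := fun a b c h h' =>
      ⟨Walk.cons h (Walk.cons h' Walk.nil), by simp⟩
    have t0 := htype 0 (by omega)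
    have t1 := htype 1 (by omega)
    have t2 := htype 2 (by omega)
    have t3 := htype 3 (by omega)
    have t4 := htype 4 (by omega)
    have t5 := htype 5 (by omega)
    have a0 := hthree 0 (by omega)
    have a1 := hthree 1 (by omega)
    have a2 := hthree 2 (by omega)
    have a3 := hthree 3 (by omega)
    simp only [Nat.zero_add, Nat.reduceAdd] at t0 t1 t2 t3 t4 t5 a0 a1 a2 a3
    -- adjacent selected edges
    have b : ∀ i, i + 1 < 6 → s(v i, v (i + 1)) ∈ C → s(v (i + 1), v (i + 2)) ∈ C → False :=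
      fun i hi h h' => htwo i (i + 1) (by omega) (by omega) (H0 _) h h'
    have b2 : ∀ i, i + 2 < 6 → (G \ F).Adj (v (i + 1)) (v (i + 2)) → s(v i, v (i + 1)) ∈ C →
        s(v (i + 2), v (i + 3)) ∈ C → False :=
      fun i hi h1 h h' => htwo i (i + 2) (by omega) (by omega) (H1 _ _ h1) h h'
    have b3 : ∀ i, i + 3 < 6 → (G \ F).Adj (v (i + 1)) (v (i + 2)) →
        (G \ F).Adj (v (i + 2)) (v (i + 3)) → s(v i, v (i + 1)) ∈ C →
        s(v (i + 3), v (i + 4)) ∈ C → False :=
      fun i hi h1 h2 h h' => htwo i (i + 3) (by omega) (by omega) (H2 _ _ _ h1 h2) h h'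
    have c01 := b 0 (by omega)
    have c12 := b 1 (by omega)
    have c23 := b 2 (by omega)
    have c34 := b 3 (by omega)
    have c45 := b 4 (by omega)
    have c02 := b2 0 (by omega)
    have c13 := b2 1 (by omega)
    have c24 := b2 2 (by omega)
    have c35 := b2 3 (by omega)
    have c03 := b3 0 (by omega)
    have c14 := b3 1 (by omega)
    have c25 := b3 2 (by omega)
    simp only [Nat.zero_add, Nat.reduceAdd] at c01 c12 c23 c34 c45 c02 c13 c24 c35 c03 c14 c25
    rcases t2 with h2 | k2
    · rcases t1 with h1 | k1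
      · rcases t0 with h0 | k0
        · exact a0 ⟨h0, h1, h2⟩
        · rcases t3 with h3 | k3
          · exact a1 ⟨h1, h2, h3⟩
          · exact c03 h1 h2 k0 k3
      · rcases t3 with h3 | k3
        · rcases t4 with h4 | k4
          · exact a2 ⟨h2, h3, h4⟩
          · exact c14 h2 h3 k1 k4
        · exact c13 h2 k1 k3
    · rcases t3 with h3 | k3
      · rcases t4 with h4 | k4
        · rcases t5 with h5 | k5
          · exact a3 ⟨h3, h4, h5⟩
          · exact c25 h3 h4 k2 k5
        · exact c24 h3 k2 k4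
      · exact c23 k2 k3

end Q109.Block3
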