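import Pool.Agent.H175R2.Cut
import Pool.Agent.H175R2.Cw

/-! Clique-width when the box graph is a cycle. -/

set_option autoImplicit false

namespace Q109.Box

open SimpleGraph Pool.Agent.H175R2

/-! ### definitions -/

/-- `X` is uniform to `Y`: completely joined or no edges. -/
def Uniform {V : Type} (G : SimpleGraph V) (X Y : Set V) : Prop :=
  (∀ x ∈ X, ∀ y ∈ Y, G.Adj x y) ∨ (∀ x ∈ X, ∀ y ∈ Y, ¬ G.Adj x y)

/-- `X` is monotone to `Y`: the neighbourhoods in `Y` of the vertices of `X` are nested. -/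
def MonotoneTo {V : Type} (G : SimpleGraph V) (X Y : Set V) : Prop :=
  ∀ u ∈ X, ∀ v ∈ X, G.neighborSet u ∩ Y ⊆ G.neighborSet v ∩ Y ∨
    G.neighborSet v ∩ Y ⊆ G.neighborSet u ∩ Y

/-- the part with index `i` of the partition given by `P : V → Fin k` -/
def part {V : Type} {k : ℕ} (P : V → Fin k) (i : Fin k) : Set V := {v | P v = i}

/-- `P` is (the indexing of) a monotone partition of `V(G)` into `k` nonempty cliques. -/
structure IsMonotoneCliquePartition {V : Type} {k : ℕ} (G : SimpleGraph V) (P : V → Fin k) :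
    Prop where
  nonempty : ∀ i, (part P i).Nonempty
  clique : ∀ i, ∀ u ∈ part P i, ∀ v ∈ part P i, u ≠ v → G.Adj u v
  monotone : ∀ i, MonotoneTo G (part P i) (part P i)ᶜ

/-- The box graph. -/
def boxGraph {V : Type} {k : ℕ} (G : SimpleGraph V) (P : V → Fin k) : SimpleGraph (Fin k) :=
  SimpleGraph.fromRel (fun i j => ¬ Uniform G (part P i) (part P j))

/-! ### the graphs -/

/-- cross edges -/
def E (n N : ℕ) (u v : Fin 4 × Fin N) : Prop :=
  (u.1 = 0 ∧ v.1 = 1 ∧ v.2.val ≤ u.2.val) ∨ (u.1 = 2 ∧ v.1 = 1 ∧ v.2.val ≤ u.2.val) ∨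
  (u.1 = 2 ∧ v.1 = 3 ∧ v.2.val ≤ u.2.val) ∨ (u.1 = 0 ∧ v.1 = 3 ∧ v.2.val + n ≤ u.2.val)

/-- four cliques; the first and the fourth are shifted by `n` -/
def gr (n N : ℕ) : SimpleGraph (Fin 4 × Fin N) :=
  SimpleGraph.fromRel (fun u v => u.1 = v.1 ∨ E n N u v)

section
variable {n N : ℕ}

lemma adj01 (p q : Fin N) : (gr n N).Adj (0, p) (1, q) ↔ q.val ≤ p.val := by
  simp [gr, E]

lemma adj21 (p q : Fin N) : (gr n N).Adj (2, p) (1, q) ↔ q.val ≤ p.val := by
  simp [gr, E]

lemma adj23 (p q : Fin N) : (gr n N).Adj (2, p) (3, q) ↔ q.val ≤ p.val := by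
  simp [gr, E]

lemma adj03 (p q : Fin N) : (gr n N).Adj (0, p) (3, q) ↔ q.val + n ≤ p.val := by
  simp [gr, E]

lemma adj02 (p q : Fin N) : ¬ (gr n N).Adj (0, p) (2, q) := by
  simp [gr, E]

lemma adj13 (p q : Fin N) : ¬ (gr n N).Adj (1, p) (3, q) := by
  simp [gr, E]

lemma adj_same (i : Fin 4) (p q : Fin N) (h : p ≠ q) : (gr n N).Adj (i, p) (i, q) := by
  simp [gr, h]

end

/-! ### types -/

lemma sep_card {V : Type} {G : SimpleGraph V} {A : Set V} {k : ℕ} (h : Types G A k)
    (S : Finset ℕ) (u : ℕ → V) (hu : ∀ t ∈ S, u t ∈ A)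
    (hsep : ∀ t ∈ S, ∀ t' ∈ S, t < t' → ∃ w, w ∉ A ∧ ¬ (G.Adj (u t) w ↔ G.Adj (u t') w)) :
    S.card ≤ k := by
  obtain ⟨l, hl⟩ := h
  have : (Finset.univ : Finset (Fin k)).card = k := by simp
  rw [← this]
  refine Finset.card_le_card_of_injOn (fun t => l (u t)) (fun _ _ => Finset.mem_univ _) ?_
  intro t ht t' ht' he
  rcases lt_trichotomy t t' with h1 | h1 | h1
  · obtain ⟨w, hw, hne⟩ := hsep t ht t' ht' h1
    exact absurd (hl _ (hu t ht) _ (hu t' ht') he w hw) hne
  · exact h1
  · obtain ⟨w, hw, hne⟩ := hsep t' ht' t ht h1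
    exact absurd (hl _ (hu t' ht') _ (hu t ht) he.symm w hw) hne

open Classical in
/-- two families joined by a half graph are on the same side of a cut, with few exceptions -/
lemma diff_card {V : Type} {G : SimpleGraph V} {A : Set V} {k : ℕ} (h : Types G A k) (M : ℕ)
    (x y : ℕ → V) (hadj : (∀ s < M, ∀ t < M, (G.Adj (x t) (y s) ↔ s ≤ t)) ∨
      (∀ s < M, ∀ t < M, (G.Adj (x t) (y s) ↔ s < t))) :
    ((Finset.range M).filter (fun t => ¬ (x t ∈ A ↔ y t ∈ A))).card ≤ 2 * k := by
  have h1 : ((Finset.range M).filter (fun t => x t ∈ A ∧ y t ∉ A)).card ≤ k := by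
    refine sep_card h _ x (fun t ht => (Finset.mem_filter.1 ht).2.1) ?_
    intro t ht t' ht' hlt
    rw [Finset.mem_filter, Finset.mem_range] at ht ht'
    rcases hadj with hadj | hadj
    · refine ⟨y t', ht'.2.2, ?_⟩
      rw [hadj _ ht'.1 _ ht.1, hadj _ ht'.1 _ ht'.1]
      omega
    · refine ⟨y t, ht.2.2, ?_⟩
      rw [hadj _ ht.1 _ ht.1, hadj _ ht.1 _ ht'.1]
      omega
  have h2 : ((Finset.range M).filter (fun t => y t ∈ A ∧ x t ∉ A)).card ≤ k := by
    refine sep_card h _ y (fun t ht => (Finset.mem_filter.1 ht).2.1) ?_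
    intro t ht t' ht' hlt
    rw [Finset.mem_filter, Finset.mem_range] at ht ht'
    rcases hadj with hadj | hadj
    · refine ⟨x t, ht.2.2, ?_⟩
      rw [G.adj_comm, G.adj_comm (y t'), hadj _ ht.1 _ ht.1, hadj _ ht'.1 _ ht.1]
      omega
    · refine ⟨x t', ht'.2.2, ?_⟩
      rw [G.adj_comm, G.adj_comm (y t'), hadj _ ht.1 _ ht'.1, hadj _ ht'.1 _ ht'.1]
      omega
  have hsub : (Finset.range M).filter (fun t => ¬ (x t ∈ A ↔ y t ∈ A)) ⊆
      (Finset.range M).filter (fun t => x t ∈ A ∧ y t ∉ A) ∪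
      (Finset.range M).filter (fun t => y t ∈ A ∧ x t ∉ A) := by
    intro t ht
    rw [Finset.mem_filter] at ht
    rw [Finset.mem_union, Finset.mem_filter, Finset.mem_filter]
    tauto
  have := (Finset.card_le_card hsub).trans (Finset.card_union_le _ _)
  omega

/-! ### the grid -/

open Classical in
/-- isoperimetry in the square grid, the cell `(x, y)` being `x * n + y` -/
lemma grid_count {n k : ℕ} (hn : 12 * k < n) (σ : ℕ → Prop)
    (h1 : ((Finset.range (n * n - 1)).filter (fun t => ¬ (σ t ↔ σ (t + 1)))).card ≤ 4 * k)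
    (h2 : ((Finset.range (n * n - n)).filter (fun t => ¬ (σ t ↔ σ (t + n)))).card ≤ 8 * k) :
    ((Finset.range (n * n)).filter (fun t => σ t)).card ≤ 4 * k * n ∨
    ((Finset.range (n * n)).filter (fun t => ¬ σ t)).card ≤ 4 * k * n := by
  -- bad rows
  set R := (Finset.range n).filter (fun x => ∃ y, y + 1 < n ∧ ¬ (σ (x * n + y) ↔ σ (x * n + y + 1)))
    with hR
  set C := (Finset.range n).filter (fun y => ∃ x, x + 1 < n ∧ ¬ (σ (x * n + y) ↔ σ (x * n + y + n)))
    with hC
  have hRc : R.card ≤ 4 * k := by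
    refine le_trans ?_ h1
    have hch : ∀ x, x ∈ R → ∃ y, y + 1 < n ∧ ¬ (σ (x * n + y) ↔ σ (x * n + y + 1)) := by
      intro x hx
      rw [hR, Finset.mem_filter] at hx
      exact hx.2
    choose! f hf hf' using hch
    refine Finset.card_le_card_of_injOn (fun x => x * n + f x) ?_ ?_
    · intro x hx
      have hx' := hx
      rw [hR, Finset.mem_coe, Finset.mem_filter, Finset.mem_range] at hx'
      simp only [Finset.coe_filter, Finset.mem_range, Set.mem_ofPred_eq]
      refine ⟨?_, hf' x hx⟩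
      have := hf x hx
      have h3 : x * n + n ≤ n * n := by
        calc x * n + n = (x + 1) * n := by ring
          _ ≤ n * n := Nat.mul_le_mul_right _ (by omega)
      omega
    · intro x hx x' hx' he
      simp only at he
      have e1 := hf x hx
      have e2 := hf x' hx'
      have d1 : (x * n + f x) / n = x := by
        rw [mul_comm, Nat.mul_add_div (by omega), Nat.div_eq_of_lt (by omega), add_zero]
      have d2 : (x' * n + f x') / n = x' := by
        rw [mul_comm, Nat.mul_add_div (by omega), Nat.div_eq_of_lt (by omega), add_zero]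
      rw [← d1, ← d2, he]
  have hCc : C.card ≤ 8 * k := by
    refine le_trans ?_ h2
    have hch : ∀ y, y ∈ C → ∃ x, x + 1 < n ∧ ¬ (σ (x * n + y) ↔ σ (x * n + y + n)) := by
      intro y hy
      rw [hC, Finset.mem_filter] at hy
      exact hy.2
    choose! f hf hf' using hch
    refine Finset.card_le_card_of_injOn (fun y => f y * n + y) ?_ ?_
    · intro y hy
      have hy' := hy
      rw [hC, Finset.mem_coe, Finset.mem_filter, Finset.mem_range] at hy'
      simp only [Finset.coe_filter, Finset.mem_range, Set.mem_ofPred_eq]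
      refine ⟨?_, hf' y hy⟩
      have := hf y hy
      have h3 : f y * n + n + n ≤ n * n := by
        calc f y * n + n + n = (f y + 2) * n := by ring
          _ ≤ n * n := Nat.mul_le_mul_right _ (by omega)
      omega
    · intro y hy y' hy' he
      simp only at he
      rw [Finset.mem_coe, hC, Finset.mem_filter, Finset.mem_range] at hy hy'
      have d1 : (f y * n + y) % n = y := by
        rw [mul_comm, Nat.mul_add_mod, Nat.mod_eq_of_lt hy.1]
      have d2 : (f y' * n + y') % n = y' := by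
        rw [mul_comm, Nat.mul_add_mod, Nat.mod_eq_of_lt hy'.1]
      rw [← d1, ← d2, he]
  -- a good column
  obtain ⟨y0, hy0, hy0C⟩ : ∃ y ∈ Finset.range n, y ∉ C := by
    apply Finset.exists_mem_notMem_of_card_lt_card
    rw [Finset.card_range]
    omega
  rw [Finset.mem_range] at hy0
  have hcol : ∀ x, x < n → (σ (x * n + y0) ↔ σ y0) := by
    intro x
    induction x with
    | zero => intro _; rw [Nat.zero_mul, Nat.zero_add]
    | succ x ih =>
      intro hx
      rw [← ih (by omega)]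
      by_contra hcon
      apply hy0C
      rw [hC, Finset.mem_filter, Finset.mem_range]
      refine ⟨hy0, x, hx, ?_⟩
      intro h
      apply hcon
      rw [h]
      rw [show (x + 1) * n + y0 = x * n + y0 + n by ring]
  have hrow : ∀ x, x < n → x ∉ R → ∀ y, y < n → (σ (x * n + y) ↔ σ (x * n)) := by
    intro x hx hxR y
    induction y with
    | zero => intro _; rw [Nat.add_zero]
    | succ y ih =>
      intro hy
      rw [← ih (by omega)]
      by_contra hcon
      apply hxR
      rw [hR, Finset.mem_filter, Finset.mem_range]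
      refine ⟨hx, y, hy, ?_⟩
      intro h
      apply hcon
      rw [h]
      rfl
  have hgood : ∀ t, t < n * n → t / n ∉ R → (σ t ↔ σ y0) := by
    intro t ht htR
    have hn0 : 0 < n := by omega
    have hx : t / n < n := Nat.div_lt_of_lt_mul ht
    have hy : t % n < n := Nat.mod_lt _ hn0
    have e : t = t / n * n + t % n := by rw [mul_comm]; exact (Nat.div_add_mod t n).symm
    have a1 := hrow _ hx htR _ hy
    have a2 := hrow _ hx htR _ hy0
    rw [← e] at a1
    rw [a1, ← a2, hcol _ hx]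
  have hbad : ∀ (Q : ℕ → Prop) [DecidablePred Q], (∀ t < n * n, Q t → t / n ∈ R) →
      ((Finset.range (n * n)).filter (fun t => Q t)).card ≤ 4 * k * n := by
    intro Q _ hQ
    have : ((Finset.range (n * n)).filter (fun t => Q t)).card ≤ (R ×ˢ Finset.range n).card := by
      refine Finset.card_le_card_of_injOn (fun t => (t / n, t % n)) ?_ ?_
      · intro t ht
        simp only [Finset.coe_filter, Finset.mem_range, Set.mem_ofPred_eq] at ht
        simp only [Finset.coe_product, Set.mem_prod, Finset.mem_coe, Finset.mem_range]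
        exact ⟨hQ t ht.1 ht.2, Nat.mod_lt _ (by omega)⟩
      · intro t _ t' _ he
        simp only [Prod.mk.injEq] at he
        rw [← Nat.div_add_mod t n, ← Nat.div_add_mod t' n, he.1, he.2]
    rw [Finset.card_product, Finset.card_range] at this
    exact this.trans (Nat.mul_le_mul_right _ hRc)
  by_cases hv : σ y0
  · right
    apply hbad
    intro t ht hσ
    by_contra hR
    exact hσ ((hgood t ht hR).2 hv)
  · left
    apply hbad
    intro t ht hσ
    by_contra hR
    exact hv ((hgood t ht hR).1 hσ)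

/-! ### the cut -/

/-- the vertex with index `t` (modulo `N`) in the clique `i` -/
def pt {N : ℕ} (hN : 0 < N) (i : Fin 4) (t : ℕ) : Fin 4 × Fin N := (i, ⟨t % N, Nat.mod_lt _ hN⟩)

open Classical in
lemma no_cut {n k : ℕ} (hn : 12 * k < n) (A : Set (Fin 4 × Fin (n * n)))
    (h : Types (gr n (n * n)) A k)
    (hb1 : n * n ≤ 3 * (A ∩ {v | v.1 = 0}).ncard)
    (hb2 : 3 * (A ∩ {v | v.1 = 0}).ncard ≤ 2 * (n * n)) : False := by
  have hN : 0 < n * n := Nat.mul_pos (by omega) (by omega)
  have hnn : n ≤ n * n := Nat.le_mul_of_pos_left _ (by omega)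
  have val : ∀ t, t < n * n → t % (n * n) = t := fun t ht => Nat.mod_eq_of_lt ht
  have d01 := diff_card h (n * n) (pt hN 0) (pt hN 1) (Or.inl (by
    intro s hs t ht
    unfold pt
    rw [adj01]
    simp only [val s hs, val t ht]))
  have d21 := diff_card h (n * n) (pt hN 2) (pt hN 1) (Or.inl (by
    intro s hs t ht
    unfold pt
    rw [adj21]
    simp only [val s hs, val t ht]))
  have d23 := diff_card h (n * n) (pt hN 2) (pt hN 3) (Or.inl (by
    intro s hs t ht
    unfold pt
    rw [adj23]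
    simp only [val s hs, val t ht]))
  have d01' := diff_card h (n * n - 1) (pt hN 0) (fun t => pt hN 1 (t + 1)) (Or.inr (by
    intro s hs t ht
    unfold pt
    rw [adj01]
    simp only [val (s + 1) (by omega), val t (by omega)]
    omega))
  have d03 := diff_card h (n * n - n) (fun t => pt hN 0 (t + n)) (pt hN 3) (Or.inl (by
    intro s hs t ht
    unfold pt
    rw [adj03]
    simp only [val s (by omega), val (t + n) (by omega)]
    omega))
  set σ : ℕ → Prop := fun t => pt hN 0 t ∈ A with hσ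
  have f1 : ((Finset.range (n * n - 1)).filter (fun t => ¬ (σ t ↔ σ (t + 1)))).card ≤ 4 * k := by
    have hsub : (Finset.range (n * n - 1)).filter (fun t => ¬ (σ t ↔ σ (t + 1))) ⊆
        (Finset.range (n * n - 1)).filter (fun t => ¬ (pt hN 0 t ∈ A ↔ pt hN 1 (t + 1) ∈ A)) ∪
        (Finset.range (n * n - 1)).filter
          (fun t => ¬ (pt hN 0 (t + 1) ∈ A ↔ pt hN 1 (t + 1) ∈ A)) := by
      intro t ht
      rw [Finset.mem_filter] at ht
      rw [Finset.mem_union, Finset.mem_filter, Finset.mem_filter]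
      simp only [hσ] at ht
      tauto
    have h3 : ((Finset.range (n * n - 1)).filter
          (fun t => ¬ (pt hN 0 (t + 1) ∈ A ↔ pt hN 1 (t + 1) ∈ A))).card ≤ 2 * k := by
      refine le_trans ?_ d01
      refine Finset.card_le_card_of_injOn (fun t => t + 1) ?_ ?_
      · intro t ht
        simp only [Finset.coe_filter, Finset.mem_range, Set.mem_ofPred_eq] at ht ⊢
        exact ⟨by omega, ht.2⟩
      · intro t _ t' _ he
        simp only at he
        omega
    have := (Finset.card_le_card hsub).trans (Finset.card_union_le _ _)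
    omega
  have f2 : ((Finset.range (n * n - n)).filter (fun t => ¬ (σ t ↔ σ (t + n)))).card ≤ 8 * k := by
    have hsub : (Finset.range (n * n - n)).filter (fun t => ¬ (σ t ↔ σ (t + n))) ⊆
        ((Finset.range (n * n)).filter (fun t => ¬ (pt hN 0 t ∈ A ↔ pt hN 1 t ∈ A)) ∪
        (Finset.range (n * n)).filter (fun t => ¬ (pt hN 2 t ∈ A ↔ pt hN 1 t ∈ A))) ∪
        ((Finset.range (n * n)).filter (fun t => ¬ (pt hN 2 t ∈ A ↔ pt hN 3 t ∈ A)) ∪
        (Finset.range (n * n - n)).filter (fun t => ¬ (pt hN 0 (t + n) ∈ A ↔ pt hN 3 t ∈ A))) := by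
      intro t ht
      rw [Finset.mem_filter, Finset.mem_range] at ht
      simp only [Finset.mem_union, Finset.mem_filter, Finset.mem_range]
      have h4 : t < n * n := by omega
      simp only [hσ] at ht
      tauto
    have e1 := Finset.card_union_le
      ((Finset.range (n * n)).filter (fun t => ¬ (pt hN 0 t ∈ A ↔ pt hN 1 t ∈ A)))
      ((Finset.range (n * n)).filter (fun t => ¬ (pt hN 2 t ∈ A ↔ pt hN 1 t ∈ A)))
    have e2 := Finset.card_union_le
      ((Finset.range (n * n)).filter (fun t => ¬ (pt hN 2 t ∈ A ↔ pt hN 3 t ∈ A)))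
      ((Finset.range (n * n - n)).filter (fun t => ¬ (pt hN 0 (t + n) ∈ A ↔ pt hN 3 t ∈ A)))
    have := (Finset.card_le_card hsub).trans (Finset.card_union_le _ _)
    omega
  have hcard : (A ∩ {v | v.1 = 0}).ncard = ((Finset.range (n * n)).filter (fun t => σ t)).card := by
    rw [← Set.ncard_coe_finset]
    symm
    refine Set.ncard_congr (fun t _ => pt hN 0 t) ?_ ?_ ?_
    · intro t ht
      simp only [Finset.coe_filter, Finset.mem_range, Set.mem_ofPred_eq] at ht
      exact ⟨ht.2, rfl⟩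
    · intro t t' ht ht' he
      simp only [Finset.coe_filter, Finset.mem_range, Set.mem_ofPred_eq] at ht ht'
      have := congrArg (fun v : Fin 4 × Fin (n * n) => v.2.val) he
      simp only [pt] at this
      rwa [val t ht.1, val t' ht'.1] at this
    · rintro ⟨i, t⟩ ⟨hA, hi⟩
      simp only [Set.mem_ofPred_eq] at hi
      subst hi
      have e : pt hN 0 t.val = (0, t) := by
        unfold pt
        congr 1
        exact Fin.ext (val _ t.2)
      refine ⟨t.val, ?_, e⟩
      simp only [Finset.coe_filter, Finset.mem_range, Set.mem_ofPred_eq]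
      refine ⟨t.2, ?_⟩
      rw [hσ]
      simp only
      rw [e]
      exact hA
  have hsum : ((Finset.range (n * n)).filter (fun t => σ t)).card +
      ((Finset.range (n * n)).filter (fun t => ¬ σ t)).card = n * n := by
    rw [Finset.card_filter_add_card_filter_not, Finset.card_range]
  have hlt : 12 * k * n < n * n := Nat.mul_lt_mul_of_pos_right hn (by omega)
  rcases grid_count hn σ f1 f2 with h5 | h5
  · have : 3 * (4 * k * n) = 12 * k * n := by ring
    omega
  · have : 3 * (4 * k * n) = 12 * k * n := by ring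
    omega

theorem cw_large {n k : ℕ} (hn : 12 * k < n) : ¬ CwLE (gr n (n * n)) k := by
  intro hcw
  have hn0 : 0 < n := by omega
  rcases Nat.lt_or_ge n 2 with h2 | h2
  · -- `k = 0`
    have : k = 0 := by omega
    subst this
    obtain ⟨U, X, l, hb, ⟨e⟩⟩ := hcw
    exact (l (e (0, ⟨0, Nat.mul_pos hn0 hn0⟩))).elim0
  have hW : ({v | v.1 = 0} : Set (Fin 4 × Fin (n * n))).ncard = n * n := by
    have : ({v | v.1 = 0} : Set (Fin 4 × Fin (n * n))) =
        (fun t : Fin (n * n) => ((0 : Fin 4), t)) '' Set.univ := by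
      ext ⟨i, t⟩
      simp only [Set.mem_ofPred_eq, Set.image_univ, Set.mem_range, Prod.mk.injEq, exists_eq_right]
      exact eq_comm
    rw [this, Set.ncard_image_of_injective _ (fun a b h => by simpa using h), Set.ncard_univ]
    simp
  obtain ⟨A, hA, h3, h4⟩ := balanced_cut _ k hcw {v | v.1 = 0} (by rw [hW]; nlinarith)
  rw [hW] at h3 h4
  exact no_cut hn A hA h3 h4

/-! ### the partition -/

lemma gr_adj {n N : ℕ} {u v : Fin 4 × Fin N} :
    (gr n N).Adj u v ↔ u ≠ v ∧ (u.1 = v.1 ∨ E n N u v ∨ E n N v u) := by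
  unfold gr
  rw [fromRel_adj]
  constructor
  · rintro ⟨h, (h1 | h1) | (h1 | h1)⟩
    · exact ⟨h, Or.inl h1⟩
    · exact ⟨h, Or.inr (Or.inl h1)⟩
    · exact ⟨h, Or.inl h1.symm⟩
    · exact ⟨h, Or.inr (Or.inr h1)⟩
  · rintro ⟨h, h1 | h1 | h1⟩
    · exact ⟨h, Or.inl (Or.inl h1)⟩
    · exact ⟨h, Or.inl (Or.inr h1)⟩
    · exact ⟨h, Or.inr (Or.inr h1)⟩

lemma cross_adj {n N : ℕ} {i j : Fin 4} (h : i ≠ j) {p q : Fin N} :
    (gr n N).Adj (i, p) (j, q) ↔ E n N (i, p) (j, q) ∨ E n N (j, q) (i, p) := by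
  rw [gr_adj]
  constructor
  · rintro ⟨_, h1 | h1⟩
    · exact absurd h1 h
    · exact h1
  · intro h1
    exact ⟨fun he => h (congrArg Prod.fst he), Or.inr h1⟩

lemma is_partition (n N : ℕ) (hN : 0 < N) :
    IsMonotoneCliquePartition (gr n N) (fun v : Fin 4 × Fin N => v.1) where
  nonempty i := ⟨(i, ⟨0, hN⟩), rfl⟩
  clique := by
    rintro i ⟨a, p⟩ hp ⟨b, q⟩ hq hne
    simp only [part, Set.mem_ofPred_eq] at hp hq
    subst hp; subst hq
    exact adj_same _ _ _ (fun h => hne (by rw [h]))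
  monotone := by
    -- the neighbourhoods of `0`- and `2`-vertices grow with the index, those of `1` and `3` shrink
    have up : ∀ i : Fin 4, i = 0 ∨ i = 2 → ∀ p q : Fin N, p ≤ q →
        (gr n N).neighborSet (i, p) ∩ (part (fun v : Fin 4 × Fin N => v.1) i)ᶜ ⊆
          (gr n N).neighborSet (i, q) ∩ (part (fun v : Fin 4 × Fin N => v.1) i)ᶜ := by
      rintro i hi p q hpq ⟨j, r⟩ ⟨h1, h2⟩
      simp only [part, Set.mem_compl_iff, Set.mem_ofPred_eq] at h2
      refine ⟨?_, h2⟩
      rw [mem_neighborSet, cross_adj (Ne.symm h2)] at h1 ⊢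
      have hle : p.val ≤ q.val := hpq
      unfold E at h1 ⊢
      simp only at h1 ⊢
      rcases hi with rfl | rfl
      · rcases h1 with (⟨_, h3, h4⟩ | ⟨h3, _⟩ | ⟨h3, _⟩ | ⟨_, h3, h4⟩) |
          (⟨_, h3, _⟩ | ⟨_, h3, _⟩ | ⟨_, h3, _⟩ | ⟨_, h3, _⟩)
        · exact Or.inl (Or.inl ⟨rfl, h3, by omega⟩)
        · exact absurd h3 (by decide)
        · exact absurd h3 (by decide)
        · exact Or.inl (Or.inr (Or.inr (Or.inr ⟨rfl, h3, by omega⟩)))
        · exact absurd h3 (by decide)
        · exact absurd h3 (by decide)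
        · exact absurd h3 (by decide)
        · exact absurd h3 (by decide)
      · rcases h1 with (⟨h3, _⟩ | ⟨_, h3, h4⟩ | ⟨_, h3, h4⟩ | ⟨h3, _⟩) |
          (⟨_, h3, _⟩ | ⟨_, h3, _⟩ | ⟨_, h3, _⟩ | ⟨_, h3, _⟩)
        · exact absurd h3 (by decide)
        · exact Or.inl (Or.inr (Or.inl ⟨rfl, h3, by omega⟩))
        · exact Or.inl (Or.inr (Or.inr (Or.inl ⟨rfl, h3, by omega⟩)))
        · exact absurd h3 (by decide)
        · exact absurd h3 (by decide)
        · exact absurd h3 (by decide)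
        · exact absurd h3 (by decide)
        · exact absurd h3 (by decide)
    have down : ∀ i : Fin 4, i = 1 ∨ i = 3 → ∀ p q : Fin N, p ≤ q →
        (gr n N).neighborSet (i, q) ∩ (part (fun v : Fin 4 × Fin N => v.1) i)ᶜ ⊆
          (gr n N).neighborSet (i, p) ∩ (part (fun v : Fin 4 × Fin N => v.1) i)ᶜ := by
      rintro i hi p q hpq ⟨j, r⟩ ⟨h1, h2⟩
      simp only [part, Set.mem_compl_iff, Set.mem_ofPred_eq] at h2
      refine ⟨?_, h2⟩
      rw [mem_neighborSet, cross_adj (Ne.symm h2)] at h1 ⊢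
      have hle : p.val ≤ q.val := hpq
      unfold E at h1 ⊢
      simp only at h1 ⊢
      rcases hi with rfl | rfl
      · rcases h1 with (⟨h3, _⟩ | ⟨h3, _⟩ | ⟨h3, _⟩ | ⟨h3, _⟩) |
          (⟨h3, _, h4⟩ | ⟨h3, _, h4⟩ | ⟨_, h3, _⟩ | ⟨_, h3, _⟩)
        · exact absurd h3 (by decide)
        · exact absurd h3 (by decide)
        · exact absurd h3 (by decide)
        · exact absurd h3 (by decide)
        · exact Or.inr (Or.inl ⟨h3, rfl, by omega⟩)
        · exact Or.inr (Or.inr (Or.inl ⟨h3, rfl, by omega⟩))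
        · exact absurd h3 (by decide)
        · exact absurd h3 (by decide)
      · rcases h1 with (⟨h3, _⟩ | ⟨h3, _⟩ | ⟨h3, _⟩ | ⟨h3, _⟩) |
          (⟨_, h3, _⟩ | ⟨_, h3, _⟩ | ⟨h3, _, h4⟩ | ⟨h3, _, h4⟩)
        · exact absurd h3 (by decide)
        · exact absurd h3 (by decide)
        · exact absurd h3 (by decide)
        · exact absurd h3 (by decide)
        · exact absurd h3 (by decide)
        · exact absurd h3 (by decide)
        · exact Or.inr (Or.inr (Or.inr (Or.inl ⟨h3, rfl, by omega⟩)))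
        · exact Or.inr (Or.inr (Or.inr (Or.inr ⟨h3, rfl, by omega⟩)))
    rintro i ⟨a, p⟩ hp ⟨b, q⟩ hq
    simp only [part, Set.mem_ofPred_eq] at hp hq
    subst hp; subst hq
    have hi : (b = 0 ∨ b = 2) ∨ (b = 1 ∨ b = 3) := by
      revert b
      decide
    rcases le_total p q with h | h
    · rcases hi with hi | hi
      · exact Or.inl (up b hi p q h)
      · exact Or.inr (down b hi p q h)
    · rcases hi with hi | hi
      · exact Or.inr (up b hi q p h)
      · exact Or.inl (down b hi q p h)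

lemma not_uniform {n N : ℕ} {i j : Fin 4} (a b c d : Fin N)
    (h1 : (gr n N).Adj (i, a) (j, b)) (h2 : ¬ (gr n N).Adj (i, c) (j, d)) :
    ¬ Uniform (gr n N) (part (fun v : Fin 4 × Fin N => v.1) i)
      (part (fun v : Fin 4 × Fin N => v.1) j) := by
  rintro (h | h)
  · exact h2 (h _ rfl _ rfl)
  · exact h _ rfl _ rfl h1

lemma Uniform.symm {V : Type} {G : SimpleGraph V} {X Y : Set V} (h : Uniform G X Y) :
    Uniform G Y X := by
  rcases h with h | h
  · exact Or.inl fun x hx y hy => (h y hy x hx).symm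
  · exact Or.inr fun x hx y hy hxy => h y hy x hx hxy.symm

lemma box_adj {V : Type} {k : ℕ} {G : SimpleGraph V} {P : V → Fin k} {i j : Fin k} :
    (boxGraph G P).Adj i j ↔ i ≠ j ∧ ¬ Uniform G (part P i) (part P j) := by
  unfold boxGraph
  rw [fromRel_adj]
  constructor
  · rintro ⟨h, h1 | h1⟩
    · exact ⟨h, h1⟩
    · exact ⟨h, fun h2 => h1 h2.symm⟩
  · rintro ⟨h, h1⟩
    exact ⟨h, Or.inl h1⟩

lemma box_cycle {n : ℕ} (hn : 2 ≤ n) :
    Nonempty (boxGraph (gr n (n * n)) (fun v : Fin 4 × Fin (n * n) => v.1) ≃g cycleGraph 4) := by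
  have hN : n + 2 ≤ n * n := by nlinarith
  have z : 0 < n * n := by omega
  have e01 : ¬ Uniform (gr n (n * n)) (part (fun v : Fin 4 × Fin (n * n) => v.1) 0)
      (part (fun v : Fin 4 × Fin (n * n) => v.1) 1) :=
    not_uniform ⟨0, z⟩ ⟨0, z⟩ ⟨0, z⟩ ⟨1, by omega⟩ ((adj01 _ _).2 le_rfl)
      (fun h => by have := (adj01 _ _).1 h; simp at this)
  have e21 : ¬ Uniform (gr n (n * n)) (part (fun v : Fin 4 × Fin (n * n) => v.1) 2)
      (part (fun v : Fin 4 × Fin (n * n) => v.1) 1) :=
    not_uniform ⟨0, z⟩ ⟨0, z⟩ ⟨0, z⟩ ⟨1, by omega⟩ ((adj21 _ _).2 le_rfl)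
      (fun h => by have := (adj21 _ _).1 h; simp at this)
  have e23 : ¬ Uniform (gr n (n * n)) (part (fun v : Fin 4 × Fin (n * n) => v.1) 2)
      (part (fun v : Fin 4 × Fin (n * n) => v.1) 3) :=
    not_uniform ⟨0, z⟩ ⟨0, z⟩ ⟨0, z⟩ ⟨1, by omega⟩ ((adj23 _ _).2 le_rfl)
      (fun h => by have := (adj23 _ _).1 h; simp at this)
  have e03 : ¬ Uniform (gr n (n * n)) (part (fun v : Fin 4 × Fin (n * n) => v.1) 0)
      (part (fun v : Fin 4 × Fin (n * n) => v.1) 3) :=
    not_uniform ⟨n, by omega⟩ ⟨0, z⟩ ⟨0, z⟩ ⟨0, z⟩ ((adj03 _ _).2 (by simp))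
      (fun h => by have := (adj03 _ _).1 h; simp at this; omega)
  have e02 : Uniform (gr n (n * n)) (part (fun v : Fin 4 × Fin (n * n) => v.1) 0)
      (part (fun v : Fin 4 × Fin (n * n) => v.1) 2) := by
    right
    rintro ⟨a, p⟩ hp ⟨b, q⟩ hq
    simp only [part, Set.mem_ofPred_eq] at hp hq
    subst hp; subst hq
    exact adj02 _ _
  have e13 : Uniform (gr n (n * n)) (part (fun v : Fin 4 × Fin (n * n) => v.1) 1)
      (part (fun v : Fin 4 × Fin (n * n) => v.1) 3) := by
    right
    rintro ⟨a, p⟩ hp ⟨b, q⟩ hq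
    simp only [part, Set.mem_ofPred_eq] at hp hq
    subst hp; subst hq
    exact adj13 _ _
  refine ⟨⟨Equiv.refl _, ?_⟩⟩
  intro i j
  rw [Equiv.refl_apply, Equiv.refl_apply, cycleGraph_adj', box_adj]
  have s : ∀ {X Y : Set (Fin 4 × Fin (n * n))}, ¬ Uniform (gr n (n * n)) X Y →
      ¬ Uniform (gr n (n * n)) Y X := fun h h' => h h'.symm
  fin_cases i <;> fin_cases j <;> simp [e01, e21, e23, e03, e02, e13, s e01, s e21, s e23, s e03,
    e02.symm, e13.symm] <;> decide

lemma exists_cwLE {V : Type} [Finite V] [Nonempty V] (G : SimpleGraph V) : ∃ k, CwLE G k := by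
  have := Fintype.ofFinite V
  exact ⟨_, cwLE_of_dt (dt_of_tame (k := Fintype.card V)
    ⟨Finset.univ, by rw [Finset.card_univ], fun x hx => by simp at hx⟩)⟩

theorem cw_ge {n : ℕ} (hn : 2 ≤ n) : n ≤ 12 * cliqueWidth (gr n (n * n)) := by
  by_contra hcon
  push Not at hcon
  have : Nonempty (Fin 4 × Fin (n * n)) := ⟨(0, ⟨0, Nat.mul_pos (by omega) (by omega)⟩)⟩
  exact cw_large hcon (Nat.sInf_mem (s := {k | CwLE (gr n (n * n)) k}) (exists_cwLE _))

end Q109.Box
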