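import Mathlib

/-! Trees on `Fin (n+1)` given by a parent function. -/

set_option autoImplicit false

namespace Q109.Tree

open SimpleGraph

/-- the graph of a parent function -/
def parGraph (n : ℕ) (par : Fin (n+1) → Fin (n+1)) : SimpleGraph (Fin (n+1)) :=
  SimpleGraph.fromRel (fun i j => i ≠ 0 ∧ par i = j)

lemma parGraph_adj {n : ℕ} {par : Fin (n+1) → Fin (n+1)} {i j : Fin (n+1)} :
    (parGraph n par).Adj i j ↔ i ≠ j ∧ ((i ≠ 0 ∧ par i = j) ∨ (j ≠ 0 ∧ par j = i)) := by
  simp [parGraph]

lemma parGraph_adj_par {n : ℕ} {par : Fin (n+1) → Fin (n+1)}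
    (h : ∀ i, i ≠ 0 → par i < i) {i : Fin (n+1)} (hi : i ≠ 0) :
    (parGraph n par).Adj i (par i) := by
  rw [parGraph_adj]
  exact ⟨(ne_of_lt (h i hi)).symm, Or.inl ⟨hi, rfl⟩⟩

lemma parGraph_connected {n : ℕ} {par : Fin (n+1) → Fin (n+1)}
    (h : ∀ i, i ≠ 0 → par i < i) : (parGraph n par).Connected := by
  have key : ∀ k : ℕ, ∀ i : Fin (n+1), i.val = k → (parGraph n par).Reachable i 0 := by
    intro k
    induction k using Nat.strong_induction_on with
    | _ k ih =>
      intro i hi
      by_cases h0 : i = 0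
      · subst h0; exact Reachable.refl _
      · have h1 := h i h0
        have h2 := ih (par i).val (by rw [← hi]; exact h1) (par i) rfl
        exact (parGraph_adj_par h h0).reachable.trans h2
  have : Nonempty (Fin (n+1)) := ⟨0⟩
  exact Connected.mk (fun i j => (key _ i rfl).trans (key _ j rfl).symm)

lemma parGraph_isTree {n : ℕ} {par : Fin (n+1) → Fin (n+1)}
    (h : ∀ i, i ≠ 0 → par i < i) : (parGraph n par).IsTree := by
  classical
  have hc := parGraph_connected h
  rw [isTree_iff_connected_and_card]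
  refine ⟨hc, ?_⟩
  have h1 := hc.card_vert_le_card_edgeSet_add_one
  have h2 : (parGraph n par).edgeSet ⊆
      (((Finset.univ.filter (fun i : Fin (n+1) => i ≠ 0)).image (fun i => s(i, par i)) :
        Finset (Sym2 (Fin (n+1)))) : Set (Sym2 (Fin (n+1)))) := by
    intro e he
    induction e using Sym2.ind with
    | _ i j =>
      rw [mem_edgeSet, parGraph_adj] at he
      rw [Finset.coe_image, Set.mem_image]
      rcases he with ⟨hij, ⟨h3, h4⟩ | ⟨h3, h4⟩⟩
      · exact ⟨i, by simpa using h3, by rw [h4]⟩
      · exact ⟨j, by simpa using h3, by rw [h4]; exact Sym2.eq_swap⟩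
  have h3 : Nat.card (parGraph n par).edgeSet ≤ n := by
    have h4 := Nat.card_mono (Finset.finite_toSet _) h2
    have h5 : Nat.card ((((Finset.univ.filter (fun i : Fin (n+1) => i ≠ 0)).image
        (fun i => s(i, par i)) :
        Finset (Sym2 (Fin (n+1)))) : Set (Sym2 (Fin (n+1))))) ≤ n := by
      rw [Nat.card_coe_set_eq, Set.ncard_coe_finset]
      refine Finset.card_image_le.trans ?_
      rw [Finset.filter_ne', Finset.card_erase_of_mem (Finset.mem_univ _)]
      simp
    exact h4.trans h5
  have h6 : Nat.card (Fin (n+1)) = n + 1 := by simp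
  omega

/-- a set closed under parents except at its least element is connected -/
lemma parGraph_induce_connected {n : ℕ} {par : Fin (n+1) → Fin (n+1)}
    (h : ∀ i, i ≠ 0 → par i < i) (S : Set (Fin (n+1))) (t : Fin (n+1)) (ht : t ∈ S)
    (hS : ∀ i ∈ S, i ≠ t → i ≠ 0 ∧ par i ∈ S) : ((parGraph n par).induce S).Connected := by
  have key : ∀ k : ℕ, ∀ i : S, i.1.val = k →
      ((parGraph n par).induce S).Reachable i ⟨t, ht⟩ := by
    intro k
    induction k using Nat.strong_induction_on with
    | _ k ih =>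
      intro i hi
      by_cases h0 : i = ⟨t, ht⟩
      · subst h0; exact Reachable.refl _
      · obtain ⟨i, hiS⟩ := i
        have h0' : i ≠ t := fun h => h0 (Subtype.ext h)
        obtain ⟨h1, h2⟩ := hS i hiS h0'
        have h3 := h i h1
        have h4 := ih (par i).val (by rw [← hi]; exact h3) ⟨par i, h2⟩ rfl
        have h5 : ((parGraph n par).induce S).Adj ⟨i, hiS⟩ ⟨par i, h2⟩ := by
          simpa using parGraph_adj_par h h1
        exact h5.reachable.trans h4
  have : Nonempty S := ⟨⟨t, ht⟩⟩
  exact Connected.mk (fun i j => (key _ i rfl).trans (key _ j rfl).symm)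

end Q109.Tree
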