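import Mathlib
import Pool.Agent.Q82.CW.Stm

set_option autoImplicit false

open MeasureTheory Filter Topology Set
open scoped ContDiff Convolution

namespace Pool.Agent.Q82.CW

/-- a test bump of radius `1 / (n + 1)` -/
noncomputable def red_bump (n : ℕ) : ContDiffBump (0 : ℝ) :=
  ⟨1 / (2 * ((n : ℝ) + 1)), 1 / ((n : ℝ) + 1), by positivity, by
    apply one_div_lt_one_div_of_lt <;> [positivity; linarith [Nat.cast_nonneg (α := ℝ) n]]⟩

theorem red_bump_rOut (n : ℕ) : (red_bump n).rOut = 1 / ((n : ℝ) + 1) := rfl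

theorem red_conv_deriv (f F : ℝ → ℝ) (hf : Continuous f)
    (h : ∀ θ : ℝ → ℝ, ContDiff ℝ ∞ θ → HasCompactSupport θ → tsupport θ ⊆ Ioi 0 →
      ∫ τ, f τ * deriv θ τ = -∫ τ, F τ * θ τ) (n : ℕ) (x : ℝ) (hx : 1 / ((n : ℝ) + 1) < x) :
    HasDerivAt ((red_bump n).normed volume ⋆[ContinuousLinearMap.lsmul ℝ ℝ, volume] f)
      (((red_bump n).normed volume ⋆[ContinuousLinearMap.lsmul ℝ ℝ, volume] F) x) x := by
  set g := (red_bump n).normed volume with hg
  have hgs : ContDiff ℝ ∞ g := (red_bump n).contDiff_normed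
  have hgc : HasCompactSupport g := (red_bump n).hasCompactSupport_normed
  have h1 := hgc.hasDerivAt_convolution_left (ContinuousLinearMap.lsmul ℝ ℝ) (hgs.of_le (by simp))
    hf.locallyIntegrable (μ := volume) x
  have hgsupp : ∀ σ, 1 / ((n : ℝ) + 1) ≤ |σ| → g σ = 0 := by
    intro σ hσ
    by_contra hne
    have h2 : σ ∈ Function.support g := hne
    rw [hg, (red_bump n).support_normed_eq] at h2
    rw [Metric.mem_ball, dist_zero_right, Real.norm_eq_abs, red_bump_rOut] at h2
    linarith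
  have hθs : ContDiff ℝ ∞ (fun τ => g (x - τ)) := hgs.comp (contDiff_const.sub contDiff_id)
  have hsup : Function.support (fun τ => g (x - τ)) ⊆ Icc (x - 1 / ((n : ℝ) + 1)) (x + 1 / ((n : ℝ) + 1)) := by
    intro τ hτ
    by_contra hn
    apply hτ
    apply hgsupp
    rw [mem_Icc, not_and_or, not_le, not_le] at hn
    rcases hn with hn | hn
    · exact le_trans (by linarith) (le_abs_self _)
    · have := neg_abs_le (x - τ)
      linarith
  have hts : tsupport (fun τ => g (x - τ)) ⊆ Icc (x - 1 / ((n : ℝ) + 1)) (x + 1 / ((n : ℝ) + 1)) :=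
    closure_minimal hsup isClosed_Icc
  have hθc : HasCompactSupport (fun τ => g (x - τ)) :=
    isCompact_Icc.of_isClosed_subset (isClosed_tsupport _) hts
  have h2 := h _ hθs hθc (hts.trans fun y hy => lt_of_lt_of_le (by linarith) hy.1)
  have h3 : ∀ τ, deriv (fun τ => g (x - τ)) τ = -deriv g (x - τ) := fun τ => by
    rw [deriv_comp_const_sub]
  have h4 : (deriv g ⋆[ContinuousLinearMap.lsmul ℝ ℝ, volume] f) x =
      (g ⋆[ContinuousLinearMap.lsmul ℝ ℝ, volume] F) x := by
    unfold MeasureTheory.convolution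
    simp only [ContinuousLinearMap.lsmul_apply, smul_eq_mul]
    rw [← integral_sub_left_eq_self (fun t => deriv g t * f (x - t)) volume x,
      ← integral_sub_left_eq_self (fun t => g t * F (x - t)) volume x]
    simp only [sub_sub_cancel]
    simp only [h3, mul_neg, integral_neg] at h2
    have h5 := neg_injective h2
    calc ∫ a, deriv g (x - a) * f a = ∫ a, f a * deriv g (x - a) := by
          apply integral_congr_ae; exact Eventually.of_forall fun a => mul_comm _ _
      _ = ∫ a, F a * g (x - a) := h5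
      _ = _ := by apply integral_congr_ae; exact Eventually.of_forall fun a => mul_comm _ _
  rw [h4] at h1
  exact h1

theorem red_key0 (f F : ℝ → ℝ) (hf : Continuous f) (hF : Continuous F)
    (h : ∀ θ : ℝ → ℝ, ContDiff ℝ ∞ θ → HasCompactSupport θ → tsupport θ ⊆ Ioi 0 →
      ∫ τ, f τ * deriv θ τ = -∫ τ, F τ * θ τ) (s t : ℝ) (hs : 0 < s) (hst : s ≤ t) :
    f t - f s = ∫ τ in s..t, F τ := by
  have hr : Tendsto (fun n => (red_bump n).rOut) atTop (𝓝 0) := by
    simp only [red_bump_rOut]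
    exact tendsto_one_div_add_atTop_nhds_zero_nat
  have hF1 : ∀ x, Tendsto (fun n => ((red_bump n).normed volume
      ⋆[ContinuousLinearMap.lsmul ℝ ℝ, volume] F) x) atTop (𝓝 (F x)) := fun x =>
    ContDiffBump.convolution_tendsto_right_of_continuous hr hF x
  have hf1 : ∀ x, Tendsto (fun n => ((red_bump n).normed volume
      ⋆[ContinuousLinearMap.lsmul ℝ ℝ, volume] f) x) atTop (𝓝 (f x)) := fun x =>
    ContDiffBump.convolution_tendsto_right_of_continuous hr hf x
  have hlim1 := (hf1 t).sub (hf1 s)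
  obtain ⟨M, hM⟩ := (isCompact_Icc (a := s - 1) (b := t + 1)).exists_bound_of_continuousOn
    hF.continuousOn
  have hlim2 : Tendsto (fun n => ∫ x in s..t, ((red_bump n).normed volume
      ⋆[ContinuousLinearMap.lsmul ℝ ℝ, volume] F) x) atTop (𝓝 (∫ x in s..t, F x)) := by
    apply intervalIntegral.tendsto_integral_filter_of_dominated_convergence (fun _ => 3 * M)
    · refine Eventually.of_forall fun n => ?_
      exact ((red_bump n).hasCompactSupport_normed.continuous_convolution_left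
        (ContinuousLinearMap.lsmul ℝ ℝ) (red_bump n).continuous_normed
        hF.locallyIntegrable).aestronglyMeasurable
    · refine Eventually.of_forall fun n => Eventually.of_forall fun x hx => ?_
      rw [uIoc_of_le hst] at hx
      have hx1 : ‖F x‖ ≤ M := hM x ⟨by linarith [hx.1], by linarith [hx.2]⟩
      have h1 : dist (((red_bump n).normed volume
          ⋆[ContinuousLinearMap.lsmul ℝ ℝ, volume] F) x) (F x) ≤ 2 * M := by
        apply ContDiffBump.dist_normed_convolution_le hF.aestronglyMeasurable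
        intro y hy
        rw [Metric.mem_ball, Real.dist_eq, red_bump_rOut] at hy
        have h2 : (1 : ℝ) / ((n : ℝ) + 1) ≤ 1 := by
          rw [div_le_one (by positivity)]
          linarith [Nat.cast_nonneg (α := ℝ) n]
        have h3 := abs_lt.1 (lt_of_lt_of_le hy h2)
        have hy1 : ‖F y‖ ≤ M := hM y ⟨by linarith [hx.1, h3.1], by linarith [hx.2, h3.2]⟩
        rw [dist_eq_norm]
        exact (norm_sub_le _ _).trans (by linarith)
      rw [dist_eq_norm] at h1
      have h4 := norm_sub_norm_le (((red_bump n).normed volume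
          ⋆[ContinuousLinearMap.lsmul ℝ ℝ, volume] F) x) (F x)
      linarith
    · exact intervalIntegrable_const
    · exact Eventually.of_forall fun x _ => hF1 x
  have heq : ∀ᶠ n : ℕ in atTop, ((red_bump n).normed volume
      ⋆[ContinuousLinearMap.lsmul ℝ ℝ, volume] f) t - ((red_bump n).normed volume
      ⋆[ContinuousLinearMap.lsmul ℝ ℝ, volume] f) s = ∫ x in s..t, ((red_bump n).normed volume
      ⋆[ContinuousLinearMap.lsmul ℝ ℝ, volume] F) x := by
    have h1 : ∀ᶠ n : ℕ in atTop, 1 / ((n : ℝ) + 1) < s :=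
      tendsto_one_div_add_atTop_nhds_zero_nat.eventually (gt_mem_nhds hs)
    filter_upwards [h1] with n hn
    symm
    apply intervalIntegral.integral_eq_sub_of_hasDerivAt
    · intro x hx
      rw [uIcc_of_le hst] at hx
      exact red_conv_deriv f F hf h n x (lt_of_lt_of_le hn hx.1)
    · exact ((red_bump n).hasCompactSupport_normed.continuous_convolution_left
        (ContinuousLinearMap.lsmul ℝ ℝ) (red_bump n).continuous_normed
        hF.locallyIntegrable).intervalIntegrable _ _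
  exact tendsto_nhds_unique (hlim1.congr' heq) hlim2

theorem red_key (f F : ℝ → ℝ) (hf : ContinuousOn f (Ici 0)) (hF : ContinuousOn F (Ici 0))
    (h : ∀ θ : ℝ → ℝ, ContDiff ℝ ∞ θ → HasCompactSupport θ → tsupport θ ⊆ Ioi 0 →
      ∫ τ, f τ * deriv θ τ = -∫ τ, F τ * θ τ) (s t : ℝ) (hs : 0 ≤ s) (hst : s ≤ t) :
    f t - f s = ∫ τ in s..t, F τ := by
  have hf' : Continuous (fun τ => f (max τ 0)) :=
    hf.comp_continuous (continuous_id.max continuous_const) (fun x => mem_Ici.2 (le_max_right _ _))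
  have hF' : Continuous (fun τ => F (max τ 0)) :=
    hF.comp_continuous (continuous_id.max continuous_const) (fun x => mem_Ici.2 (le_max_right _ _))
  have h' : ∀ θ : ℝ → ℝ, ContDiff ℝ ∞ θ → HasCompactSupport θ → tsupport θ ⊆ Ioi 0 →
      ∫ τ, f (max τ 0) * deriv θ τ = -∫ τ, F (max τ 0) * θ τ := by
    intro θ h1 h2 h3
    have e1 : ∀ τ, f (max τ 0) * deriv θ τ = f τ * deriv θ τ := by
      intro τ
      rcases le_or_gt τ 0 with hτ | hτ
      · have h4 : τ ∉ tsupport θ := fun h5 => absurd (h3 h5) (not_lt.2 hτ)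
        have h5 : deriv θ τ = 0 := by
          by_contra hne
          exact h4 (support_deriv_subset hne)
        rw [h5, mul_zero, mul_zero]
      · rw [max_eq_left hτ.le]
    have e2 : ∀ τ, F (max τ 0) * θ τ = F τ * θ τ := by
      intro τ
      rcases le_or_gt τ 0 with hτ | hτ
      · have h4 : τ ∉ tsupport θ := fun h5 => absurd (h3 h5) (not_lt.2 hτ)
        rw [image_eq_zero_of_notMem_tsupport h4, mul_zero, mul_zero]
      · rw [max_eq_left hτ.le]
    simp only [e1, e2]
    exact h θ h1 h2 h3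
  have hk := red_key0 _ _ hf' hF' h'
  have hmain : (fun τ => f (max τ 0)) t - (fun τ => f (max τ 0)) s = ∫ τ in s..t, F (max τ 0) := by
    rcases eq_or_lt_of_le hst with rfl | hlt
    · simp
    rcases eq_or_lt_of_le hs with rfl | hs0
    · have hcl : IsClosed {s : ℝ | (fun τ => f (max τ 0)) t - (fun τ => f (max τ 0)) s =
          ∫ τ in s..t, F (max τ 0)} := by
        apply isClosed_eq
        · exact continuous_const.sub hf'
        · have h1 : ∀ s : ℝ, ∫ τ in s..t, F (max τ 0) =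
              (∫ τ in (0 : ℝ)..t, F (max τ 0)) - ∫ τ in (0 : ℝ)..s, F (max τ 0) := by
            intro s
            rw [intervalIntegral.integral_interval_sub_left (hF'.intervalIntegrable _ _)
              (hF'.intervalIntegrable _ _)]
          refine Continuous.congr (continuous_const.sub (intervalIntegral.continuous_primitive
            (fun a b => hF'.intervalIntegrable a b) 0)) fun s => (h1 s).symm
      have hsub : Ioc 0 t ⊆ {s : ℝ | (fun τ => f (max τ 0)) t - (fun τ => f (max τ 0)) s =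
          ∫ τ in s..t, F (max τ 0)} := fun s hs => hk s t hs.1 hs.2
      have h2 := closure_minimal hsub hcl
      rw [closure_Ioc hlt.ne] at h2
      exact h2 ⟨le_rfl, hst⟩
    · exact hk s t hs0 hst
  simp only at hmain
  rw [max_eq_left (hs.trans hst), max_eq_left hs] at hmain
  rw [hmain]
  apply intervalIntegral.integral_congr
  intro τ hτ
  rw [uIcc_of_le hst] at hτ
  simp only
  rw [max_eq_left (hs.trans hτ.1)]

/-! ### continuity and pairings -/

theorem red_sq (u : L2) (v : ℝ → ℝ) (h : (u : ℝ → ℝ) =ᵐ[volume] v) :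
    ∫ x, v x ^ 2 = ‖u‖ ^ 2 := by
  rw [← real_inner_self_eq_norm_sq, L2.inner_def]
  apply integral_congr_ae
  filter_upwards [h] with x hx
  rw [← hx, real_inner_self_eq_norm_sq, Real.norm_eq_abs, sq_abs]

theorem red_tend (A : ℝ → L2) (hA : ContinuousOn A (Ici 0)) (v : ℝ → ℝ → ℝ)
    (hv : ∀ τ, (A τ : ℝ → ℝ) =ᵐ[volume] v τ) (τ0 : ℝ) (h0 : 0 ≤ τ0) :
    Tendsto (fun τ => ∫ x, (v τ x - v τ0 x) ^ 2) (𝓝[Ici 0] τ0) (𝓝 0) := by
  have h1 : ∀ τ, ∫ x, (v τ x - v τ0 x) ^ 2 = ‖A τ - A τ0‖ ^ 2 := by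
    intro τ
    apply red_sq (A τ - A τ0) (fun x => v τ x - v τ0 x)
    filter_upwards [Lp.coeFn_sub (A τ) (A τ0), hv τ, hv τ0] with x h1 h2 h3
    rw [h1, Pi.sub_apply, h2, h3]
  simp only [h1]
  have h2 : Tendsto A (𝓝[Ici 0] τ0) (𝓝 (A τ0)) := hA τ0 h0
  have h3 := ((h2.sub_const (A τ0)).norm).pow 2
  simpa using h3

theorem red_pair1 (φ : ℝ → ℝ) (h : Continuous φ) (hc : HasCompactSupport φ) (A : ℝ → L2)
    (hA : ContinuousOn A (Ici 0)) : ContinuousOn (fun τ => ∫ x, A τ x * φ x) (Ici 0) := by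
  have hm : MemLp φ 2 volume := h.memLp_of_hasCompactSupport hc
  have h1 : ∀ u : L2, ∫ x, u x * φ x = inner ℝ (hm.toLp φ) u := by
    intro u
    rw [L2.inner_def]
    apply integral_congr_ae
    filter_upwards [hm.coeFn_toLp] with x hx
    rw [hx]
    rfl
  simp only [h1]
  exact ContinuousOn.inner (𝕜 := ℝ) continuousOn_const hA

/-- multiplication by a bounded function -/
noncomputable def red_m (ψ : ℝ → ℝ) (hm : MemLp ψ ⊤ (volume : Measure ℝ)) : L2 →L[ℝ] L2 :=
  (ContinuousLinearMap.mul ℝ ℝ).holderL volume ⊤ 2 2 (hm.toLp ψ)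

theorem red_m_ae (ψ : ℝ → ℝ) (hm : MemLp ψ ⊤ (volume : Measure ℝ)) (u : L2) :
    (red_m ψ hm u : ℝ → ℝ) =ᵐ[volume] fun x => ψ x * u x := by
  filter_upwards [hm.coeFn_toLp,
    ContinuousLinearMap.coeFn_holder (r := 2) (ContinuousLinearMap.mul ℝ ℝ) (hm.toLp ψ) u] with x h2 h3
  have h4 : (red_m ψ hm u : ℝ → ℝ) x =
    ((ContinuousLinearMap.mul ℝ ℝ).holder 2 (hm.toLp ψ) u : ℝ → ℝ) x := rfl
  rw [h4, h3, h2]
  rfl

theorem red_pair2 (ψ : ℝ → ℝ) (h : Continuous ψ) (hc : HasCompactSupport ψ) (A B : ℝ → L2)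
    (hA : ContinuousOn A (Ici 0)) (hB : ContinuousOn B (Ici 0)) :
    ContinuousOn (fun τ => ∫ x, A τ x * B τ x * ψ x) (Ici 0) := by
  have hm : MemLp ψ ⊤ (volume : Measure ℝ) := h.memLp_of_hasCompactSupport hc
  have h1 : ∀ u v : L2, ∫ x, u x * v x * ψ x = inner ℝ (red_m ψ hm u) v := by
    intro u v
    rw [L2.inner_def]
    apply integral_congr_ae
    filter_upwards [red_m_ae ψ hm u] with x h2
    rw [h2]
    show u x * v x * ψ x = v x * (ψ x * u x)
    ring
  simp only [h1]
  exact ContinuousOn.inner (𝕜 := ℝ) ((red_m ψ hm).continuous.comp_continuousOn hA) hB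

theorem red_int2 (ψ : ℝ → ℝ) (h : Continuous ψ) (hc : HasCompactSupport ψ) (u v : L2) :
    Integrable (fun x => u x * v x * ψ x) := by
  have hm : MemLp ψ ⊤ (volume : Measure ℝ) := h.memLp_of_hasCompactSupport hc
  have h1 : Integrable (fun x => red_m ψ hm u x * v x) :=
    (Lp.memLp (red_m ψ hm u)).integrable_mul (q := 2) (Lp.memLp v)
  refine h1.congr ?_
  filter_upwards [red_m_ae ψ hm u] with x h2
  rw [h2]
  ring

theorem red_test (φ θ : ℝ → ℝ) (h1 : ContDiff ℝ ∞ φ) (h2 : HasCompactSupport φ)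
    (h3 : ContDiff ℝ ∞ θ) (h4 : HasCompactSupport θ) (h5 : tsupport θ ⊆ Ioi 0) :
    ContDiff ℝ ∞ (fun q : ℝ × ℝ => φ q.1 * θ q.2) ∧
    HasCompactSupport (fun q : ℝ × ℝ => φ q.1 * θ q.2) ∧
    tsupport (fun q : ℝ × ℝ => φ q.1 * θ q.2) ⊆ {q | 0 < q.2} := by
  have hs : tsupport (fun q : ℝ × ℝ => φ q.1 * θ q.2) ⊆ tsupport φ ×ˢ tsupport θ := by
    apply closure_minimal _ ((isClosed_tsupport _).prod (isClosed_tsupport _))
    intro q hq
    have h : φ q.1 * θ q.2 ≠ 0 := hq
    exact ⟨subset_tsupport _ (left_ne_zero_of_mul h), subset_tsupport _ (right_ne_zero_of_mul h)⟩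
  refine ⟨(h1.comp contDiff_fst).mul (h3.comp contDiff_snd), ?_, ?_⟩
  · exact (h2.isCompact.prod h4.isCompact).of_isClosed_subset (isClosed_tsupport _) hs
  · intro q hq
    exact h5 (hs hq).2

theorem red_intθ (P θ : ℝ → ℝ) (hP : ContinuousOn P (Ici 0)) (h3 : Continuous θ)
    (h4 : HasCompactSupport θ) (h5 : tsupport θ ⊆ Ioi 0) : Integrable (fun τ => P τ * θ τ) := by
  have hP' : Continuous (fun τ => P (max τ 0)) :=
    hP.comp_continuous (continuous_id.max continuous_const) (fun x => mem_Ici.2 (le_max_right _ _))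
  have h6 : Integrable (fun τ => P (max τ 0) * θ τ) :=
    (hP'.mul h3).integrable_of_hasCompactSupport h4.mul_left
  refine h6.congr (Eventually.of_forall fun τ => ?_)
  show P (max τ 0) * θ τ = P τ * θ τ
  rcases le_or_gt τ 0 with hτ | hτ
  · have h7 : τ ∉ tsupport θ := fun h8 => absurd (h5 h8) (not_lt.2 hτ)
    rw [image_eq_zero_of_notMem_tsupport h7, mul_zero, mul_zero]
  · rw [max_eq_left hτ.le]

theorem red1 (h1 : S_REP) : S_RED := by
  intro d γ hsol
  obtain ⟨hγ, h0, htest⟩ := hsol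
  obtain ⟨A, hAdef⟩ : ∃ A : ℝ → L2, A = fun τ => (γ τ : L2 × L2 × L2).1 := ⟨_, rfl⟩
  obtain ⟨B, hBdef⟩ : ∃ B : ℝ → L2, B = fun τ => (γ τ : L2 × L2 × L2).2.1 := ⟨_, rfl⟩
  obtain ⟨C, hCdef⟩ : ∃ C : ℝ → L2, C = fun τ => (γ τ : L2 × L2 × L2).2.2 := ⟨_, rfl⟩
  have hγ1 : ContinuousOn (fun τ => (γ τ : L2 × L2 × L2)) (Ici 0) :=
    continuous_subtype_val.comp_continuousOn hγ
  have hA : ContinuousOn A (Ici 0) := by
    rw [hAdef]; exact continuous_fst.comp_continuousOn hγ1
  have hB : ContinuousOn B (Ici 0) := by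
    rw [hBdef]; exact (continuous_fst.comp continuous_snd).comp_continuousOn hγ1
  have hC : ContinuousOn C (Ici 0) := by
    rw [hCdef]; exact (continuous_snd.comp continuous_snd).comp_continuousOn hγ1
  have hX : ∀ τ, WeakDeriv (A τ) (B τ) := fun τ => by
    rw [hAdef, hBdef]; exact (γ τ).2.2.1
  have htest' : ∀ ψ : ℝ × ℝ → ℝ, ContDiff ℝ ∞ ψ → HasCompactSupport ψ → tsupport ψ ⊆ {q | 0 < q.2} →
      (∫ τ, ∫ x, A τ x * deriv (fun t => ψ (x, t)) τ = -∫ τ, ∫ x, C τ x * ψ (x, τ)) ∧
      (-(∫ τ, ∫ x, C τ x * deriv (fun t => ψ (x, t)) τ) + 5 * ∫ τ, ∫ x, C τ x * ψ (x, τ) =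
        -(∫ τ, ∫ x, A τ x * B τ x * deriv (fun y => ψ (y, τ)) x) +
          ∫ τ, ∫ x, (2 * A τ x ^ 2 - 6 * A τ x) * ψ (x, τ)) := by
    rw [hAdef, hBdef, hCdef]; exact htest
  have hA0 : A 0 = (d : L2 × L2 × L2).1 := by rw [hAdef, ← h0]
  have hC0 : C 0 = (d : L2 × L2 × L2).2.2 := by rw [hCdef, ← h0]
  clear htest hAdef hBdef hCdef hγ hγ1
  choose w hw1 hw2 hw3 using fun τ => h1 (A τ) (B τ) (hX τ)
  refine ⟨w, fun τ => B τ, fun τ => C τ, ?_, ?_, ?_⟩
  · refine ⟨fun τ _ => (Lp.memLp (A τ)).ae_eq (hw2 τ), fun τ _ => Lp.memLp (B τ),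
      fun τ _ => Lp.memLp (C τ), fun τ _ => hw1 τ, fun τ _ => hw3 τ,
      red_tend A hA w hw2, red_tend B hB (fun τ => B τ) (fun τ => EventuallyEq.rfl),
      red_tend C hC (fun τ => C τ) (fun τ => EventuallyEq.rfl), ?_, ?_⟩
    · intro φ hφ hφc s t hs hst
      have e : ∀ τ, ∫ x, w τ x * φ x = ∫ x, A τ x * φ x := fun τ => by
        apply integral_congr_ae
        filter_upwards [hw2 τ] with x hx
        rw [hx]
      rw [e t, e s]
      refine red_key (fun τ => ∫ x, A τ x * φ x) (fun τ => ∫ x, C τ x * φ x)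
        (red_pair1 φ hφ.continuous hφc A hA) (red_pair1 φ hφ.continuous hφc C hC) ?_ s t hs hst
      intro θ t1 t2 t3
      obtain ⟨k1, k2, k3⟩ := red_test φ θ hφ hφc t1 t2 t3
      have hh := (htest' _ k1 k2 k3).1
      have e1 : ∀ τ, ∫ x, A τ x * deriv (fun t => φ x * θ t) τ =
          (∫ x, A τ x * φ x) * deriv θ τ := by
        intro τ
        rw [← integral_mul_const]
        apply integral_congr_ae
        refine Eventually.of_forall fun x => ?_
        show A τ x * deriv (fun t => φ x * θ t) τ = A τ x * φ x * deriv θ τ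
        rw [deriv_const_mul_field]
        ring
      have e2 : ∀ τ, ∫ x, C τ x * (φ x * θ τ) = (∫ x, C τ x * φ x) * θ τ := by
        intro τ
        rw [← integral_mul_const]
        apply integral_congr_ae
        refine Eventually.of_forall fun x => ?_
        show C τ x * (φ x * θ τ) = C τ x * φ x * θ τ
        ring
      simp only [e1, e2] at hh
      exact hh
    · intro φ hφ hφc s t hs hst
      have hdc : Continuous (deriv φ) := hφ.continuous_deriv (by simp)
      have hdcc : HasCompactSupport (deriv φ) := hφc.deriv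
      have e : ∀ τ, ∫ x, w τ x * B τ x * deriv φ x = ∫ x, A τ x * B τ x * deriv φ x := fun τ => by
        apply integral_congr_ae
        filter_upwards [hw2 τ] with x hx
        rw [hx]
      have e' : ∀ τ, ∫ x, (2 * w τ x ^ 2 - 6 * w τ x) * φ x =
          ∫ x, (2 * A τ x ^ 2 - 6 * A τ x) * φ x := fun τ => by
        apply integral_congr_ae
        filter_upwards [hw2 τ] with x hx
        rw [hx]
      simp only [e, e']
      have hP := red_pair1 φ hφ.continuous hφc C hC
      have hQ := red_pair2 (deriv φ) hdc hdcc A B hA hB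
      have hR : ContinuousOn (fun τ => ∫ x, (2 * A τ x ^ 2 - 6 * A τ x) * φ x) (Ici 0) := by
        have hR1 := (continuousOn_const (c := (2 : ℝ))).mul
          (red_pair2 φ hφ.continuous hφc A A hA hA)
        have hR2 := (continuousOn_const (c := (6 : ℝ))).mul (red_pair1 φ hφ.continuous hφc A hA)
        refine (hR1.sub hR2).congr fun τ _ => ?_
        show ∫ x, (2 * A τ x ^ 2 - 6 * A τ x) * φ x =
          2 * (∫ x, A τ x * A τ x * φ x) - 6 * ∫ x, A τ x * φ x
        rw [← integral_const_mul, ← integral_const_mul, ← integral_sub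
          ((red_int2 φ hφ.continuous hφc (A τ) (A τ)).const_mul 2)
          ((int_mul (A τ) hφ.continuous hφc).const_mul 6)]
        apply integral_congr_ae
        refine Eventually.of_forall fun x => ?_
        show (2 * A τ x ^ 2 - 6 * A τ x) * φ x =
          2 * (A τ x * A τ x * φ x) - 6 * (A τ x * φ x)
        ring
      refine red_key (fun τ => ∫ x, C τ x * φ x) (fun τ => -5 * (∫ x, C τ x * φ x) -
        (∫ x, A τ x * B τ x * deriv φ x) + ∫ x, (2 * A τ x ^ 2 - 6 * A τ x) * φ x)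
        hP (((continuousOn_const.mul hP).sub hQ).add hR) ?_ s t hs hst
      intro θ t1 t2 t3
      obtain ⟨k1, k2, k3⟩ := red_test φ θ hφ hφc t1 t2 t3
      have hh := (htest' _ k1 k2 k3).2
      have e1 : ∀ τ, ∫ x, C τ x * deriv (fun t => φ x * θ t) τ =
          (∫ x, C τ x * φ x) * deriv θ τ := by
        intro τ
        rw [← integral_mul_const]
        apply integral_congr_ae
        refine Eventually.of_forall fun x => ?_
        show C τ x * deriv (fun t => φ x * θ t) τ = C τ x * φ x * deriv θ τ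
        rw [deriv_const_mul_field]
        ring
      have e2 : ∀ τ, ∫ x, C τ x * (φ x * θ τ) = (∫ x, C τ x * φ x) * θ τ := by
        intro τ
        rw [← integral_mul_const]
        apply integral_congr_ae
        refine Eventually.of_forall fun x => ?_
        show C τ x * (φ x * θ τ) = C τ x * φ x * θ τ
        ring
      have e3 : ∀ τ, ∫ x, A τ x * B τ x * deriv (fun y => φ y * θ τ) x =
          (∫ x, A τ x * B τ x * deriv φ x) * θ τ := by
        intro τ
        rw [← integral_mul_const]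
        apply integral_congr_ae
        refine Eventually.of_forall fun x => ?_
        show A τ x * B τ x * deriv (fun y => φ y * θ τ) x = A τ x * B τ x * deriv φ x * θ τ
        rw [deriv_mul_const_field]
        ring
      have e4 : ∀ τ, ∫ x, (2 * A τ x ^ 2 - 6 * A τ x) * (φ x * θ τ) =
          (∫ x, (2 * A τ x ^ 2 - 6 * A τ x) * φ x) * θ τ := by
        intro τ
        rw [← integral_mul_const]
        apply integral_congr_ae
        refine Eventually.of_forall fun x => ?_
        show (2 * A τ x ^ 2 - 6 * A τ x) * (φ x * θ τ) = (2 * A τ x ^ 2 - 6 * A τ x) * φ x * θ τ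
        ring
      simp only [e1, e2, e3, e4] at hh
      have i1 := red_intθ _ θ hP t1.continuous t2 t3
      have i2 := red_intθ _ θ hQ t1.continuous t2 t3
      have i3 := red_intθ _ θ hR t1.continuous t2 t3
      have e5 : ∫ τ, (-5 * (∫ x, C τ x * φ x) - (∫ x, A τ x * B τ x * deriv φ x) +
          ∫ x, (2 * A τ x ^ 2 - 6 * A τ x) * φ x) * θ τ =
          -5 * (∫ τ, (∫ x, C τ x * φ x) * θ τ) - (∫ τ, (∫ x, A τ x * B τ x * deriv φ x) * θ τ) +
            ∫ τ, (∫ x, (2 * A τ x ^ 2 - 6 * A τ x) * φ x) * θ τ := by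
        have i12 : Integrable (fun τ => -5 * ((∫ x, C τ x * φ x) * θ τ) -
            (∫ x, A τ x * B τ x * deriv φ x) * θ τ) := (i1.const_mul (-5)).sub i2
        rw [← integral_const_mul, ← integral_sub (i1.const_mul (-5)) i2,
          ← integral_add i12 i3]
        apply integral_congr_ae
        refine Eventually.of_forall fun τ => ?_
        show (-5 * (∫ x, C τ x * φ x) - (∫ x, A τ x * B τ x * deriv φ x) +
          ∫ x, (2 * A τ x ^ 2 - 6 * A τ x) * φ x) * θ τ =
          -5 * ((∫ x, C τ x * φ x) * θ τ) - (∫ x, A τ x * B τ x * deriv φ x) * θ τ +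
            (∫ x, (2 * A τ x ^ 2 - 6 * A τ x) * φ x) * θ τ
        ring
      show ∫ τ, (∫ x, C τ x * φ x) * deriv θ τ = -∫ τ, (-5 * (∫ x, C τ x * φ x) -
        (∫ x, A τ x * B τ x * deriv φ x) + ∫ x, (2 * A τ x ^ 2 - 6 * A τ x) * φ x) * θ τ
      rw [e5]
      linarith
  · rw [← hA0]
    exact (hw2 0).symm
  · show (C 0 : ℝ → ℝ) =ᵐ[volume] _
    rw [hC0]

end Pool.Agent.Q82.CW
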