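import Pool.Agent.Q109.Anc

/-! Counting gates. -/

set_option autoImplicit false

namespace Q109.Tree.RTD

open Finset Classical

variable {V ι : Type*} [LinearOrder ι] {G : SimpleGraph V} {B : ι → Finset V}

/-- `x` is charged by `v` -/
def Charged (R : RTD G ι B) (X : Finset ι) (v : V) (x : ι) : Prop :=
  x ∈ R.Xv X v ∧ (∃ x' ∈ R.Xv X v, x' < x) ∧
    ∀ x' ∈ R.Xv X v, R.A x' (R.e v x') = R.A x (R.e v x) → x ≤ x'

lemma card_gates_le (R : RTD G ι B) (X : Finset ι) (v : V) :
    (R.gates X v).card ≤ 1 + (X.filter (fun x => R.Charged X v x)).card := by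
  rcases (R.Xv X v).eq_empty_or_nonempty with h0 | h0
  · unfold gates; rw [h0]; simp
  · let x0 := (R.Xv X v).min' h0
    have hsub : R.gates X v ⊆ (insert x0 (X.filter (fun x => R.Charged X v x))).image
        (fun x => R.A x (R.e v x)) := by
      intro a ha
      obtain ⟨x1, hx1, rfl⟩ := Finset.mem_image.1 ha
      let F := (R.Xv X v).filter (fun x' => R.A x' (R.e v x') = R.A x1 (R.e v x1))
      have hF : F.Nonempty := ⟨x1, Finset.mem_filter.2 ⟨hx1, rfl⟩⟩
      have hm := Finset.mem_filter.1 (F.min'_mem hF)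
      refine Finset.mem_image.2 ⟨F.min' hF, ?_, hm.2⟩
      rw [Finset.mem_insert]
      by_cases hc : ∃ x' ∈ R.Xv X v, x' < F.min' hF
      · right
        refine Finset.mem_filter.2 ⟨(Finset.mem_filter.1 hm.1).1, hm.1, hc, ?_⟩
        intro x' hx' he
        exact F.min'_le x' (Finset.mem_filter.2 ⟨hx', he.trans hm.2⟩)
      · left
        push Not at hc
        exact le_antisymm (hc x0 ((R.Xv X v).min'_mem h0)) ((R.Xv X v).min'_le _ hm.1)
    refine (Finset.card_le_card hsub).trans (Finset.card_image_le.trans ?_)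
    refine (Finset.card_insert_le _ _).trans ?_
    omega

lemma card_charged_le (R : RTD G ι B) (X : Finset ι) {I : Finset V}
    (hI : G.IsIndepSet (I : Set V)) {f : ℕ}
    (hf : ∀ i, ∀ S : Finset V, S ⊆ B i → G.IsIndepSet (S : Set V) → S.card ≤ f) (x : ι) :
    (I.filter (fun v => R.Charged X v x)).card ≤ f := by
  -- the least depth at which `x` is the least marked node below
  have hex : ∃ d, R.depth x < d ∨ ∀ x' ∈ X, d ≤ R.depth x' → R.A x' d = R.A x d → x ≤ x' :=
    ⟨R.depth x + 1, Or.inl (Nat.lt_succ_self _)⟩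
  let h := Nat.find hex
  have hspec : R.depth x < h ∨ ∀ x' ∈ X, h ≤ R.depth x' → R.A x' h = R.A x h → x ≤ x' :=
    Nat.find_spec hex
  have hmin : ∀ d, d < h → ¬ (R.depth x < d ∨
      ∀ x' ∈ X, d ≤ R.depth x' → R.A x' d = R.A x d → x ≤ x') := fun d hd => Nat.find_min hex hd
  have hle : h ≤ R.depth x + 1 := Nat.find_min' hex (Or.inl (Nat.lt_succ_self _))
  apply hf (R.A x (h - 1))
  swap
  · intro a ha b hb hab
    exact hI (Finset.mem_coe.2 (Finset.mem_filter.1 (Finset.mem_coe.1 ha)).1)
      (Finset.mem_coe.2 (Finset.mem_filter.1 (Finset.mem_coe.1 hb)).1) hab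
  intro v hv
  obtain ⟨hvI, hxX, ⟨x1, hx1, hlt⟩, hmn⟩ := Finset.mem_filter.1 hv
  obtain ⟨hxX', d0, hd0, hd0'⟩ := Finset.mem_filter.1 hxX
  obtain ⟨h1, h2, h3⟩ := R.e_spec hd0 hd0'
  -- `depth (top v) < h`
  have htop : R.depth (R.top v) < h := by
    by_contra hc
    rw [not_lt] at hc
    obtain ⟨hx1X, d1, hd1, hd1'⟩ := Finset.mem_filter.1 hx1
    have t1 : R.A x (R.depth (R.top v)) = R.top v := by
      have := R.A_top hd0'
      have h4 := R.le_depth v _ hd0'
      rw [R.depth_A hd0] at h4
      rwa [R.A_A hd0 h4] at this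
    have t2 : R.A x1 (R.depth (R.top v)) = R.top v := by
      have := R.A_top hd1'
      have h4 := R.le_depth v _ hd1'
      rw [R.depth_A hd1] at h4
      rwa [R.A_A hd1 h4] at this
    have t0 : R.depth (R.top v) ≤ R.depth x := (R.top_le_e hd0 hd0').trans h2
    have t01 : R.depth (R.top v) ≤ R.depth x1 := by
      have h4 := R.le_depth v _ hd1'
      rw [R.depth_A hd1] at h4
      omega
    rcases hspec with h5 | h5
    · omega
    · have h6 : R.A x1 h = R.A x h := by
        rw [← R.A_A t0 hc, ← R.A_A t01 hc, t1, t2]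
      have := h5 x1 hx1X (by omega) h6
      exact absurd hlt (not_lt.2 this)
  -- `h - 1 ≤ e v x`
  have hbot : h - 1 ≤ R.e v x := by
    by_contra hc
    rw [not_le] at hc
    have hlt2 : R.e v x + 1 < h := by omega
    have hle2 : R.e v x + 1 ≤ R.depth x := by omega
    apply hmin _ hlt2
    right
    intro x' hx' hd' hA
    have hnot : v ∉ B (R.A x (R.e v x + 1)) := by
      intro hc2
      have := (R.e_spec hle2 hc2).2.2
      omega
    have hA2 : R.A x' (R.e v x) = R.A x (R.e v x) := by
      rw [← R.A_A hd' (Nat.le_succ _), hA, R.A_A hle2 (Nat.le_succ _)]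
    have hmem : v ∈ B (R.A x' (R.e v x)) := by rw [hA2]; exact h1
    have hde : R.e v x ≤ R.depth x' := by omega
    obtain ⟨g1, g2, g3⟩ := R.e_spec hde hmem
    have heq : R.e v x' = R.e v x := by
      by_contra hne
      have hgt : R.e v x + 1 ≤ R.e v x' := by omega
      apply hnot
      rw [← hA]
      exact R.mem_A' g1 (by have := R.top_le_e hd0 hd0'; omega) hgt g2
    exact hmn x' (Finset.mem_filter.2 ⟨hx', _, hde, hmem⟩) (by rw [heq, hA2])
  exact R.mem_A' h1 (by omega) hbot h2

/-- The main counting lemma: if `I` is independent, `N v` (for `v ∈ I`) is an independent set of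
neighbours of `v`, and every vertex of every `N v` has a marked node in its subtree, then
`∑ |N v| ≤ 2 f |I| + f² |X|`. -/
theorem count (R : RTD G ι B) (X : Finset ι) {I : Finset V}
    (hI : G.IsIndepSet (I : Set V)) {f : ℕ}
    (hf : ∀ i, ∀ S : Finset V, S ⊆ B i → G.IsIndepSet (S : Set V) → S.card ≤ f)
    (N : V → Finset V) (hN : ∀ v ∈ I, G.IsIndepSet (N v : Set V))
    (hadj : ∀ v ∈ I, ∀ y ∈ N v, G.Adj v y) (hX : ∀ v ∈ I, ∀ y ∈ N v, ∃ x ∈ X, y ∈ B x) :
    ∑ v ∈ I, (N v).card ≤ 2 * f * I.card + f ^ 2 * X.card := by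
  have h1 : ∀ v ∈ I, (N v).card ≤ 2 * f + f * (X.filter (fun x => R.Charged X v x)).card := by
    intro v hv
    have hsub : N v ⊆ (N v).filter (fun y => y ∈ B (R.top v)) ∪
        (R.gates X v).biUnion (fun a => (N v).filter (fun y => y ∈ B a)) := by
      intro y hy
      rw [Finset.mem_union, Finset.mem_biUnion]
      rcases le_total (R.depth (R.top y)) (R.depth (R.top v)) with h | h
      · left
        exact Finset.mem_filter.2 ⟨hy, R.mem_top_of_adj (hadj v hv y hy).symm h⟩
      · right
        obtain ⟨x, hx, hyx⟩ := hX v hv y hy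
        obtain ⟨a, ha, hya⟩ := R.mem_gate hx hyx (hadj v hv y hy) h
        exact ⟨a, ha, Finset.mem_filter.2 ⟨hy, hya⟩⟩
    have hbag : ∀ i, ((N v).filter (fun y => y ∈ B i)).card ≤ f := by
      intro i
      apply hf i
      · intro y hy
        exact (Finset.mem_filter.1 hy).2
      · intro a ha b hb hab
        exact hN v hv (Finset.mem_coe.2 (Finset.mem_filter.1 (Finset.mem_coe.1 ha)).1)
          (Finset.mem_coe.2 (Finset.mem_filter.1 (Finset.mem_coe.1 hb)).1) hab
    have h2 := (Finset.card_le_card hsub).trans (Finset.card_union_le _ _)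
    have h3 := hbag (R.top v)
    have h4 := Finset.card_biUnion_le_card_mul (R.gates X v)
      (fun a => (N v).filter (fun y => y ∈ B a)) f (fun a _ => hbag a)
    have h5 := Nat.mul_le_mul_right f (R.card_gates_le X v)
    have h6 : (1 + (X.filter (fun x => R.Charged X v x)).card) * f =
        f + f * (X.filter (fun x => R.Charged X v x)).card := by ring
    omega
  have h2 : ∑ v ∈ I, (X.filter (fun x => R.Charged X v x)).card ≤ X.card * f := by
    have : ∑ v ∈ I, (X.filter (fun x => R.Charged X v x)).card =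
        ∑ x ∈ X, (I.filter (fun v => R.Charged X v x)).card := by
      simp_rw [Finset.card_filter]
      exact Finset.sum_comm
    rw [this]
    refine (Finset.sum_le_card_nsmul _ _ f (fun x _ => R.card_charged_le X hI hf x)).trans ?_
    simp
  calc ∑ v ∈ I, (N v).card
      ≤ ∑ v ∈ I, (2 * f + f * (X.filter (fun x => R.Charged X v x)).card) := Finset.sum_le_sum h1
    _ = I.card * (2 * f) + f * ∑ v ∈ I, (X.filter (fun x => R.Charged X v x)).card := by
      rw [Finset.sum_add_distrib, Finset.sum_const, smul_eq_mul, Finset.mul_sum]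
    _ ≤ I.card * (2 * f) + f * (X.card * f) := by gcongr
    _ = _ := by ring

end Q109.Tree.RTD
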