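import Pool.Agent.Q264.HM.Stm

/-!
Project HM (MP_3ff21c_al), job EQ: equality of words is decidable (helper109).
-/

set_option autoImplicit false

namespace Pool.Agent.Q109.HM_EQ

open Pool.Agent.Q264.HM

/-- the inverse word -/
def wi {ι : Type} (v : List (ι × Bool)) : List (ι × Bool) :=
  v.reverse.map fun p => (p.1, !p.2)

theorem val_append {ι G : Type} [Group G] (y : ι → G) (u v : List (ι × Bool)) :
    val y (u ++ v) = val y u * val y v := by
  simp [val]

theorem val_wi {ι G : Type} [Group G] (y : ι → G) (v : List (ι × Bool)) :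
    val y (wi v) = (val y v)⁻¹ := by
  induction v with
  | nil => simp [val, wi]
  | cons p v ih =>
    have h1 : wi (p :: v) = wi v ++ [(p.1, !p.2)] := by simp [wi]
    rw [h1, val_append, ih]
    rcases p with ⟨i, b⟩
    cases b <;> simp [val]

theorem t_EQ : S_EQ := by
  intro ι G _ _ y hy
  obtain ⟨hd, hc⟩ := hy
  refine ⟨fun u v => decide (val y (u ++ wi v) = 1), ?_, ?_⟩
  · have h1 : Primrec₂ fun (u v : List (ι × Bool)) => u ++ wi v := by
      have h2 : Primrec fun q : ι × Bool => (q.1, !q.2) :=
        Primrec.pair Primrec.fst (Primrec.not.comp Primrec.snd)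
      have h3 : Primrec fun v : List (ι × Bool) => wi v :=
        Primrec.list_map Primrec.list_reverse (h2.comp Primrec.snd).to₂
      exact Primrec.list_append.comp Primrec.fst (h3.comp Primrec.snd)
    exact hc.comp h1.to_comp
  · intro u v
    rw [decide_eq_true_eq, val_append, val_wi, mul_inv_eq_one]

end Pool.Agent.Q109.HM_EQ
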