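import Pool.Agent.Q88.MF.Stm

set_option autoImplicit false

namespace Pool.Agent.Q109.MF

open Pool.Agent.Q88.MF

theorem kmo_bd (a r : ℝ) (ha : 1 < a) (h0 : 0 < r) (h1 : r < 1) :
    0 < r * (1 - Real.log r) ^ (1 / a) ∧ r * (1 - Real.log r) ^ (1 / a) ≤ 1 := by
  have hl : Real.log r < 0 := Real.log_neg h0 h1
  have h2 : 0 < 1 - Real.log r := by linarith
  refine ⟨mul_pos h0 (Real.rpow_pos_of_pos h2 _), ?_⟩
  have h3 : (1 - Real.log r) ^ (1 / a) ≤ 1 - Real.log r := by
    calc (1 - Real.log r) ^ (1 / a) ≤ (1 - Real.log r) ^ (1 : ℝ) := by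
          apply Real.rpow_le_rpow_of_exponent_le (by linarith)
          rw [div_le_one (by linarith)]
          exact ha.le
      _ = 1 - Real.log r := Real.rpow_one _
  have h4 : 1 - Real.log r ≤ 1 / r := by
    have h5 := Real.log_le_sub_one_of_pos (one_div_pos.2 h0)
    rw [one_div, Real.log_inv] at h5
    rw [one_div]
    linarith
  calc r * (1 - Real.log r) ^ (1 / a) ≤ r * (1 / r) :=
        mul_le_mul_of_nonneg_left (h3.trans h4) h0.le
    _ = 1 := by field_simp

theorem kmo_mono (a r r' : ℝ) (ha : 1 < a) (h0 : 0 < r) (h : r ≤ r') (h1 : r' < 1) :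
    r * (1 - Real.log r) ^ (1 / a) ≤ r' * (1 - Real.log r') ^ (1 / a) := by
  have h0' : 0 < r' := h0.trans_le h
  have hl' : Real.log r' < 0 := Real.log_neg h0' h1
  have hll : Real.log r ≤ Real.log r' := Real.log_le_log h0 h
  have ha0 : 0 < a := by linarith
  set x := Real.log r' - Real.log r with hx
  have hx0 : 0 ≤ x := by linarith
  set w := 1 - Real.log r' with hw
  have hw1 : 1 ≤ w := by linarith
  have h2 : 1 - Real.log r ≤ w * Real.exp (a * x) := by
    have h3 : 1 + x ≤ Real.exp (a * x) := by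
      have h4 := Real.add_one_le_exp (a * x)
      nlinarith
    calc 1 - Real.log r = w + x := by rw [hw, hx]; ring
      _ ≤ w * (1 + x) := by nlinarith
      _ ≤ w * Real.exp (a * x) := mul_le_mul_of_nonneg_left h3 (by linarith)
  have h3 : (1 - Real.log r) ^ (1 / a) ≤ w ^ (1 / a) * Real.exp x := by
    calc (1 - Real.log r) ^ (1 / a) ≤ (w * Real.exp (a * x)) ^ (1 / a) :=
          Real.rpow_le_rpow (by linarith) h2 (by positivity)
      _ = w ^ (1 / a) * Real.exp x := by
          rw [Real.mul_rpow (by linarith) (Real.exp_pos _).le, ← Real.exp_mul]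
          congr 2
          field_simp
  have h4 : Real.exp x = r' / r := by
    rw [hx, Real.exp_sub, Real.exp_log h0', Real.exp_log h0]
  rw [h4] at h3
  calc r * (1 - Real.log r) ^ (1 / a) ≤ r * (w ^ (1 / a) * (r' / r)) :=
        mul_le_mul_of_nonneg_left h3 h0.le
    _ = r' * w ^ (1 / a) := by field_simp

theorem kmo : S_kmo := by
  intro a ha
  have hb : ∀ r, 0 ≤ kap a r ∧ kap a r ≤ 1 := by
    intro r
    unfold kap
    split_ifs with h1 h2
    · norm_num
    · have := kmo_bd a r ha (not_le.1 h1) h2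
      exact ⟨this.1.le, this.2⟩
    · norm_num
  refine ⟨hb, ?_, ?_⟩
  · intro r hr
    unfold kap
    rw [if_neg (not_le.2 hr)]
    split_ifs with h2
    · exact (kmo_bd a r ha hr h2).1
    · norm_num
  · intro r r' hrr
    by_cases h1 : r ≤ 0
    · have : kap a r = 0 := by unfold kap; rw [if_pos h1]
      rw [this]
      exact (hb r').1
    · by_cases h2 : r' < 1
      · have h3 : r < 1 := lt_of_le_of_lt hrr h2
        have h4 : ¬ r' ≤ 0 := by
          intro h
          exact h1 (hrr.trans h)
        unfold kap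
        rw [if_neg h1, if_neg h4, if_pos h3, if_pos h2]
        exact kmo_mono a r r' ha (not_le.1 h1) hrr h2
      · have h4 : ¬ r' ≤ 0 := by
          intro h
          exact h1 (hrr.trans h)
        have : kap a r' = 1 := by unfold kap; rw [if_neg h4, if_neg h2]
        rw [this]
        exact (hb r).2

end Pool.Agent.Q109.MF
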