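import Mathlib
import Pool.Agent.Q2.PM.Stm

namespace Q109.PM_B6

open Q2.PM
open Q2.TN (IsPNil IsSyl IsChief Nm)

theorem b6 (h5 : S_B5) : S_B6 := by
  classical
  intro k G _ _ N P hk hNP hP hN hexp hlt
  obtain ⟨j, hj⟩ := IsPGroup.iff_card.1 hP
  have hkj : k < j := by
    rw [hj] at hlt
    exact (Nat.pow_lt_pow_iff_right (by norm_num)).1 hlt
  obtain ⟨A, hNA, hAP, hA⟩ := h5 (k + 1) G N P hNP hP
    (by rw [hN]; exact Nat.pow_le_pow_right (by norm_num) (Nat.le_succ k))
    (by rw [hj]; exact Nat.pow_le_pow_right (by norm_num) hkj)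
  have hAN : ¬ A ≤ N := by
    intro h
    have h1 : A = N := le_antisymm h hNA
    rw [h1, hN] at hA
    have h2 := Nat.pow_lt_pow_right (a := 2) (by norm_num) (Nat.lt_succ_self k)
    rw [Nat.succ_eq_add_one, ← hA] at h2
    exact lt_irrefl _ h2
  obtain ⟨x, hxA, hxN⟩ := SetLike.not_le_iff_exists.1 hAN
  have hxle : Subgroup.zpowers x ≤ A := (Subgroup.zpowers_le).2 hxA
  have hne : Nat.card (Subgroup.zpowers x) ≠ 2 ^ (k + 1) := by
    intro h
    have h1 : Subgroup.zpowers x = A := Subgroup.eq_of_le_of_card_ge hxle (by rw [hA, h])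
    have hNx : N ≤ Subgroup.zpowers x := by rw [h1]; exact hNA
    have hcyc : IsCyclic N :=
      isCyclic_of_injective (Subgroup.inclusion hNx) (Subgroup.inclusion_injective hNx)
    obtain ⟨g, hg⟩ := IsCyclic.exists_ofOrder_eq_natCard (α := N)
    have h2 : g * g = 1 := Subtype.ext (hexp g.1 g.2)
    have h3 : orderOf g ∣ 2 := orderOf_dvd_of_pow_eq_one (by rw [pow_two]; exact h2)
    have h4 := Nat.le_of_dvd (by norm_num) h3
    rw [hg, hN] at h4
    have h5 : 2 ^ 2 ≤ 2 ^ k := Nat.pow_le_pow_right (by norm_num) hk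
    omega
  have hdvd : Nat.card (Subgroup.zpowers x) ∣ 2 ^ (k + 1) := by
    rw [← hA]
    exact Subgroup.card_dvd_of_le hxle
  obtain ⟨i, hi, hi2⟩ := (Nat.dvd_prime_pow Nat.prime_two).1 hdvd
  have hik : i ≤ k := by
    by_contra h
    have : i = k + 1 := by omega
    rw [this] at hi2
    exact hne hi2
  have hAp : IsPGroup 2 A := hP.to_le hAP
  obtain ⟨H, hxH, hHA, hH⟩ := h5 k G (Subgroup.zpowers x) A hxle hAp
    (by rw [hi2]; exact Nat.pow_le_pow_right (by norm_num) hik)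
    (by rw [hA]; exact Nat.pow_le_pow_right (by norm_num) (Nat.le_succ k))
  exact ⟨H, hHA.trans hAP, hH, fun h => hxN (h (hxH (Subgroup.mem_zpowers x)))⟩

end Q109.PM_B6
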