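import Pool.Agent.Results.MP_ec82ff_co.LinearSubdivision

/-!
Subgraphs of the subdivided complete graphs `K_D^{(s)}` with `D ≤ s^m` have small balanced
separators.
-/

set_option autoImplicit false

namespace Q109.SubSep

open Pool.Agent.Results.MP_ec82ff_co.LinearSubdivision

/-- a separator certificate -/
lemma comp_card_le {V : Type} [Finite V] {G : SimpleGraph V} (S : Set V) {Λ : Type}
    (L : V → Λ) (h : ∀ u v, u ∉ S → v ∉ S → G.Adj u v → L u = L v) {M : ℕ}
    (hM : ∀ v, v ∉ S → ({w | w ∉ S ∧ L w = L v} : Set V).ncard ≤ M)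
    (c : (G.induce Sᶜ).ConnectedComponent) : c.supp.ncard ≤ M := by
  induction c using SimpleGraph.ConnectedComponent.ind with
  | _ v =>
    have hL : ∀ {a b : (Sᶜ : Set V)} (p : (G.induce Sᶜ).Walk a b), L a.1 = L b.1 := by
      intro a b p
      induction p with
      | nil => rfl
      | @cons a b c hab p ih => exact (h a.1 b.1 a.2 b.2 hab).trans ih
    have hsub : (Subtype.val '' ((G.induce Sᶜ).connectedComponentMk v).supp : Set V) ⊆
        {w | w ∉ S ∧ L w = L v.1} := by
      rintro _ ⟨w, hw, rfl⟩
      rw [SimpleGraph.ConnectedComponent.mem_supp_iff, SimpleGraph.ConnectedComponent.eq] at hw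
      obtain ⟨p⟩ := hw
      exact ⟨w.2, hL p⟩
    have h1 := Set.ncard_le_ncard hsub (Set.toFinite _)
    rw [Set.ncard_image_of_injective _ Subtype.val_injective] at h1
    exact h1.trans (hM v.1 v.2)

variable {V : Type} [Finite V] {G : SimpleGraph V} {D s : ℕ}

/-- the label in case A: the subdivided edge -/
def labA : SubVert D s → Option {e : Fin D × Fin D // e.1 < e.2}
  | Sum.inl _ => none
  | Sum.inr (e, _) => some e

/-- the coordinate along a subdivided edge -/
def crd : SubVert D s → ℕ
  | Sum.inl _ => 0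
  | Sum.inr (_, t) => t.val

omit [Finite V] in
lemma card_edge_le (φ : V → SubVert D s) (hφ : Function.Injective φ)
    (e : {e : Fin D × Fin D // e.1 < e.2}) (P : ℕ → Prop) :
    ({w | ∃ t : Fin s, φ w = Sum.inr (e, t) ∧ P t.val} : Set V).ncard ≤
      ({t : ℕ | t < s ∧ P t} : Set ℕ).ncard := by
  have hfin : ({t : ℕ | t < s ∧ P t} : Set ℕ).Finite :=
    (Set.finite_Iio s).subset (fun t ht => ht.1)
  refine Set.ncard_le_ncard_of_injOn (fun w => crd (φ w)) ?_ ?_ hfin
  · rintro w ⟨t, ht, hP⟩
    simp only [ht, crd]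
    exact ⟨t.2, hP⟩
  · rintro a ⟨t, ht, -⟩ b ⟨t', ht', -⟩ hab
    simp only [ht, ht', crd] at hab
    apply hφ
    rw [ht, ht', Fin.ext hab]

/-- case A: remove all branch vertices -/
theorem caseA (φ : G →g subdividedComplete D s) (hφ : Function.Injective φ) :
    ∃ S : Set V, S.ncard ≤ D ∧ ∀ c : (G.induce Sᶜ).ConnectedComponent, c.supp.ncard ≤ s := by
  refine ⟨{v | ∃ i, φ v = Sum.inl i}, ?_, ?_⟩
  · have h1 : ({v | ∃ i, φ v = Sum.inl i} : Set V).ncard ≤
        (Set.range (Sum.inl : Fin D → SubVert D s)).ncard := by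
      rw [← Set.ncard_image_of_injective _ hφ]
      apply Set.ncard_le_ncard _ (Set.toFinite _)
      rintro _ ⟨v, ⟨i, hi⟩, rfl⟩
      exact ⟨i, hi.symm⟩
    rw [← Set.image_univ, Set.ncard_image_of_injective _ Sum.inl_injective, Set.ncard_univ,
      Nat.card_fin] at h1
    exact h1
  · apply comp_card_le _ (fun v => labA (φ v))
    · intro u v hu hv huv
      have hadj := φ.map_adj huv
      rcases hu' : φ u with i | ⟨e, t⟩
      · exact absurd ⟨i, hu'⟩ hu
      rcases hv' : φ v with j | ⟨e', t'⟩
      · exact absurd ⟨j, hv'⟩ hv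
      rw [hu', hv', adj_rr] at hadj
      simp only [labA, hadj.1]
    · intro v hv
      rcases hv' : φ v with j | ⟨e', t'⟩
      · exact absurd ⟨j, hv'⟩ hv
      have h1 : ({w | w ∉ ({v | ∃ i, φ v = Sum.inl i} : Set V) ∧
          labA (φ w) = labA (Sum.inr (e', t'))} : Set V) ⊆
          {w | ∃ t : Fin s, φ w = Sum.inr (e', t) ∧ True} := by
        rintro w ⟨h1, h2⟩
        rcases hw' : φ w with j | ⟨e, t⟩
        · exact absurd ⟨j, hw'⟩ h1
        · simp only [hw', labA, Option.some.injEq] at h2
          exact ⟨t, by rw [hw', h2], trivial⟩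
      refine (Set.ncard_le_ncard h1 (Set.toFinite _)).trans ?_
      refine (card_edge_le φ hφ e' (fun _ => True)).trans ?_
      have h2 : ({t : ℕ | t < s ∧ True} : Set ℕ) = ((Finset.range s : Finset ℕ) : Set ℕ) := by
        ext t; simp
      rw [h2, Set.ncard_coe_finset, Finset.card_range]

/-- the label in case B -/
def labB (q ρ : ℕ) : SubVert D s → Fin D ⊕ ({e : Fin D × Fin D // e.1 < e.2} × ℕ)
  | Sum.inl i => Sum.inl i
  | Sum.inr (e, t) => if t.val < ρ then Sum.inl e.1.1
      else if (t.val - ρ) / q = (s - 1 - ρ) / q then Sum.inl e.1.2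
      else Sum.inr (e, (t.val - ρ) / q)

lemma div_step {q a : ℕ} (hq : 0 < q) (h1 : (a + 1) % q ≠ 0) : (a + 1) / q = a / q := by
  have e1 := Nat.div_add_mod (a + 1) q
  have e2 := Nat.div_add_mod a q
  have l1 := Nat.mod_lt (a + 1) hq
  have l2 := Nat.mod_lt a hq
  rcases Nat.lt_trichotomy ((a + 1) / q) (a / q) with h | h | h
  · have : q * ((a + 1) / q + 1) ≤ q * (a / q) := Nat.mul_le_mul_left _ h
    rw [Nat.mul_add, Nat.mul_one] at this
    omega
  · exact h
  · have : q * (a / q + 1) ≤ q * ((a + 1) / q) := Nat.mul_le_mul_left _ h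
    rw [Nat.mul_add, Nat.mul_one] at this
    omega

/-- the vertices on the levels `≡ ρ` mod `q` -/
def lev (q ρ : ℕ) : Set (SubVert D s) := {x | ∃ e t, x = Sum.inr (e, t) ∧ t.val % q = ρ}

lemma labB_adj {q ρ : ℕ} (hq : 0 < q) (hρ : ρ < q) (hqs : q ≤ s) (x y : SubVert D s)
    (hx : x ∉ lev q ρ) (hy : y ∉ lev q ρ) (hxy : (subdividedComplete D s).Adj x y) :
    labB q ρ x = labB q ρ y := by
  have hlr : ∀ (i : Fin D) (e : {e : Fin D × Fin D // e.1 < e.2}) (t : Fin s),
      (Sum.inr (e, t) : SubVert D s) ∉ lev q ρ →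
      (subdividedComplete D s).Adj (Sum.inl i) (Sum.inr (e, t)) →
      labB q ρ (Sum.inl i : SubVert D s) = labB q ρ (Sum.inr (e, t)) := by
    intro i e t ht hadj
    rw [adj_lr] at hadj
    have ht2 : t.val % q ≠ ρ := fun h => ht ⟨e, t, rfl, h⟩
    have := t.2
    rcases hadj with ⟨rfl, h⟩ | ⟨rfl, h⟩
    · have h1 : t.val < ρ := by
        rw [h] at ht2 ⊢
        rw [Nat.zero_mod] at ht2
        omega
      simp only [labB, if_pos h1]
    · have h1 : ¬ t.val < ρ := by omega
      have h2 : s - 1 = t.val := by omega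
      simp only [labB, if_neg h1, h2, if_true]
  have hrr : ∀ (e : {e : Fin D × Fin D // e.1 < e.2}) (t t' : Fin s),
      (Sum.inr (e, t') : SubVert D s) ∉ lev q ρ → t.val + 1 = t'.val →
      labB q ρ (Sum.inr (e, t) : SubVert D s) = labB q ρ (Sum.inr (e, t')) := by
    intro e t t' ht' h
    have ht2 : t'.val % q ≠ ρ := fun h => ht' ⟨e, t', rfl, h⟩
    by_cases h1 : t'.val < ρ
    · have h2 : t.val < ρ := by omega
      simp only [labB, if_pos h1, if_pos h2]
    · have h3 : t'.val ≠ ρ := by
        intro h4
        rw [h4, Nat.mod_eq_of_lt hρ] at ht2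
        exact ht2 rfl
      have h2 : ¬ t.val < ρ := by omega
      have h4 : (t'.val - ρ) / q = (t.val - ρ) / q := by
        have e1 : t'.val - ρ = (t.val - ρ) + 1 := by omega
        rw [e1]
        apply div_step hq
        intro h5
        rw [← e1] at h5
        apply ht2
        have e2 := Nat.div_add_mod (t'.val - ρ) q
        rw [h5, Nat.add_zero] at e2
        have e3 : t'.val = ρ + q * ((t'.val - ρ) / q) := by omega
        rw [e3, Nat.add_mul_mod_self_left, Nat.mod_eq_of_lt hρ]
      simp only [labB, if_neg h1, if_neg h2, h4]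
  rcases x with i | ⟨e, t⟩ <;> rcases y with j | ⟨e', t'⟩
  · exact absurd hxy (adj_ll _ _)
  · exact hlr i e' t' hy hxy
  · exact (hlr j e t hx hxy.symm).symm
  · rw [adj_rr] at hxy
    obtain ⟨rfl, h | h⟩ := hxy
    · exact hrr e t t' hy h
    · exact (hrr e t' t hx h).symm

lemma seg_card {q ρ j : ℕ} (hq : 0 < q) (hρ : ρ < q) :
    ({t : ℕ | t < s ∧ (ρ ≤ t ∧ (t - ρ) / q = j ∧ t % q ≠ ρ)} : Set ℕ).ncard ≤ q - 1 := by
  have h1 : ({t : ℕ | t < s ∧ (ρ ≤ t ∧ (t - ρ) / q = j ∧ t % q ≠ ρ)} : Set ℕ) ⊆
      ((Finset.Ioo (ρ + q * j) (ρ + q * j + q) : Finset ℕ) : Set ℕ) := by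
    rintro t ⟨-, h2, h3, h4⟩
    have e1 := Nat.div_add_mod (t - ρ) q
    have l1 := Nat.mod_lt (t - ρ) hq
    rw [h3] at e1
    rw [Finset.mem_coe, Finset.mem_Ioo]
    have h5 : (t - ρ) % q ≠ 0 := by
      intro h5
      apply h4
      have : t = ρ + q * j := by omega
      rw [this, Nat.add_mul_mod_self_left, Nat.mod_eq_of_lt hρ]
    omega
  refine (Set.ncard_le_ncard h1 (Finset.finite_toSet _)).trans ?_
  rw [Set.ncard_coe_finset, Nat.card_Ioo]
  omega

/-- pigeonhole for the levels -/
lemma exists_level (φ : V → SubVert D s) {q : ℕ} (hq : 0 < q) :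
    ∃ ρ, ρ < q ∧ q * (φ ⁻¹' (lev q ρ) : Set V).ncard ≤ Nat.card V := by
  classical
  have := Fintype.ofFinite V
  by_contra hc
  push Not at hc
  have h1 : ∑ ρ ∈ Finset.range q, (φ ⁻¹' (lev q ρ) : Set V).ncard ≤ Nat.card V := by
    have h2 : ∀ ρ, (φ ⁻¹' (lev q ρ) : Set V).ncard =
        (Finset.univ.filter (fun v => φ v ∈ (lev q ρ : Set (SubVert D s)))).card := by
      intro ρ
      rw [← Set.ncard_coe_finset]
      congr 1
      ext v
      simp
    simp_rw [h2]
    rw [← Finset.card_biUnion]
    · rw [Nat.card_eq_fintype_card]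
      exact Finset.card_le_univ _
    · intro a _ b _ hab
      rw [Function.onFun, Finset.disjoint_left]
      intro v hv hv'
      obtain ⟨e, t, h1, h2⟩ := (Finset.mem_filter.1 hv).2
      obtain ⟨e', t', h1', h2'⟩ := (Finset.mem_filter.1 hv').2
      rw [h1] at h1'
      simp only [Sum.inr.injEq, Prod.mk.injEq] at h1'
      rw [← h1'.2] at h2'
      exact hab (h2.symm.trans h2')
  have h3 : q * (∑ ρ ∈ Finset.range q, (φ ⁻¹' (lev q ρ) : Set V).ncard) > q * Nat.card V := by
    rw [Finset.mul_sum]
    calc q * Nat.card V = ∑ _ρ ∈ Finset.range q, Nat.card V := by simp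
      _ < ∑ ρ ∈ Finset.range q, q * (φ ⁻¹' (lev q ρ) : Set V).ncard := by
        apply Finset.sum_lt_sum_of_nonempty ⟨0, Finset.mem_range.2 hq⟩
        intro ρ hρ
        exact hc ρ (Finset.mem_range.1 hρ)
  have h4 := Nat.mul_le_mul_left q h1
  omega

/-- case B: remove the levels `≡ ρ` mod `q` and one branch vertex -/
theorem caseB (φ : G →g subdividedComplete D s) (hφ : Function.Injective φ) {q : ℕ}
    (hq : 0 < q) (hqs : q ≤ s) (hqN : 3 * (q - 1) ≤ 2 * Nat.card V) (hN : 0 < Nat.card V) :
    ∃ S : Set V, q * (S.ncard - 1) ≤ Nat.card V ∧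
      ∀ c : (G.induce Sᶜ).ConnectedComponent, 3 * c.supp.ncard ≤ 2 * Nat.card V := by
  classical
  obtain ⟨ρ, hρ, hlev⟩ := exists_level (fun v => φ v) hq
  -- `D` is positive
  have hD : Nonempty (Fin D) := by
    obtain ⟨v⟩ : Nonempty V := (Nat.card_pos_iff.1 hN).1
    rcases φ v with i | ⟨e, t⟩
    · exact ⟨i⟩
    · exact ⟨e.1.1⟩
  obtain ⟨i0, hi0⟩ := Finite.exists_max
    (fun i : Fin D => ({w | labB q ρ (φ w) = Sum.inl i} : Set V).ncard)
  let S : Set V := (φ ⁻¹' (lev q ρ)) ∪ {v | φ v = Sum.inl i0}
  have hSlev : ∀ v, v ∉ S → φ v ∉ (lev q ρ : Set (SubVert D s)) := fun v hv h => hv (Or.inl h)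
  have hSi0 : ∀ v, v ∉ S → φ v ≠ Sum.inl i0 := fun v hv h => hv (Or.inr h)
  have hone : ({v | φ v = Sum.inl i0} : Set V).ncard ≤ 1 := by
    rw [Set.ncard_le_one (Set.toFinite _)]
    intro a ha b hb
    exact hφ (ha.trans hb.symm)
  refine ⟨S, ?_, ?_⟩
  · have h1 := Set.ncard_union_le (φ ⁻¹' (lev q ρ) : Set V) {v | φ v = Sum.inl i0}
    have h2 : S.ncard - 1 ≤ (φ ⁻¹' (lev q ρ) : Set V).ncard := by
      change ((φ ⁻¹' (lev q ρ) : Set V) ∪ {v | φ v = Sum.inl i0}).ncard - 1 ≤ _
      omega
    exact (Nat.mul_le_mul_left _ h2).trans hlev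
  · intro c
    have hdiv : c.supp.ncard ≤ 2 * Nat.card V / 3 := by
      revert c
      apply comp_card_le S (fun v => if labB q ρ (φ v) = Sum.inl i0 then
        (labB q ρ (φ v), labA (φ v)) else (labB q ρ (φ v), none))
      · intro u v hu hv huv
        have hadj := φ.map_adj huv
        have h1 := labB_adj hq hρ hqs _ _ (hSlev u hu) (hSlev v hv) hadj
        simp only [h1]
        by_cases h2 : labB q ρ (φ v) = Sum.inl i0
        · rw [if_pos h2, if_pos h2]
          have h3 : labA (φ u) = labA (φ v) := by
            rcases hu' : φ u with i | ⟨e, t⟩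
            · exfalso
              rw [← h1, hu'] at h2
              simp only [labB, Sum.inl.injEq] at h2
              exact hSi0 u hu (by rw [hu', h2])
            rcases hv' : φ v with j | ⟨e', t'⟩
            · exfalso
              rw [hv'] at h2
              simp only [labB, Sum.inl.injEq] at h2
              exact hSi0 v hv (by rw [hv', h2])
            rw [hu', hv', adj_rr] at hadj
            simp only [labA, hadj.1]
          rw [h3]
        · rw [if_neg h2, if_neg h2]
      · intro v hv
        have hq1 : q - 1 ≤ 2 * Nat.card V / 3 := by omega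
        by_cases h2 : labB q ρ (φ v) = Sum.inl i0
        · -- inside the spider of `i0`
          rcases hv' : φ v with j | ⟨e, t⟩
          · exfalso
            rw [hv'] at h2
            simp only [labB, Sum.inl.injEq] at h2
            exact hSi0 v hv (by rw [hv', h2])
          rw [hv'] at h2
          simp only [h2, if_true]
          have hsub : ∀ w, w ∉ S → (if labB q ρ (φ w) = Sum.inl i0 then
              (labB q ρ (φ w), labA (φ w)) else (labB q ρ (φ w), none)) =
              ((Sum.inl i0 : Fin D ⊕ ({e : Fin D × Fin D // e.1 < e.2} × ℕ)),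
                labA (Sum.inr (e, t) : SubVert D s)) →
              ∃ t' : Fin s, φ w = Sum.inr (e, t') ∧ labB q ρ (φ w) = Sum.inl i0 ∧
                t'.val % q ≠ ρ := by
            intro w hw h
            by_cases h3 : labB q ρ (φ w) = Sum.inl i0
            · rw [if_pos h3, Prod.mk.injEq] at h
              rcases hw' : φ w with j | ⟨e', t'⟩
              · rw [hw'] at h
                simp [labA] at h
              · rw [hw'] at h
                simp only [labA, Option.some.injEq] at h
                refine ⟨t', by rw [h.2], h.1, ?_⟩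
                intro h4
                exact hSlev w hw (by rw [hw']; exact ⟨e', t', rfl, h4⟩)
            · rw [if_neg h3, Prod.mk.injEq] at h
              exact absurd h.1 h3
          by_cases he : e.1.1 = i0
          · have hsub2 : ({w | w ∉ S ∧ (if labB q ρ (φ w) = Sum.inl i0 then
              (labB q ρ (φ w), labA (φ w)) else (labB q ρ (φ w), none)) =
              ((Sum.inl i0 : Fin D ⊕ ({e : Fin D × Fin D // e.1 < e.2} × ℕ)),
                labA (Sum.inr (e, t) : SubVert D s))} : Set V) ⊆
                {w | ∃ t' : Fin s, φ w = Sum.inr (e, t') ∧ (t'.val < ρ)} := by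
              rintro w ⟨hw, h⟩
              obtain ⟨t', h3, h4, h5⟩ := hsub w hw h
              refine ⟨t', h3, ?_⟩
              rw [h3] at h4
              simp only [labB] at h4
              have hlt : e.1.1 < e.1.2 := e.2
              split_ifs at h4 with h6 h7
              · exact h6
              · exfalso
                rw [Sum.inl.injEq] at h4
                rw [he, h4] at hlt
                exact lt_irrefl _ hlt
            refine (Set.ncard_le_ncard hsub2 (Set.toFinite _)).trans ?_
            refine (card_edge_le (fun v => φ v) hφ e (fun t => t < ρ)).trans ?_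
            have h7 : ({t : ℕ | t < s ∧ t < ρ} : Set ℕ) ⊆ ((Finset.range ρ : Finset ℕ) : Set ℕ) := by
              rintro t ⟨-, h⟩; simpa using h
            have h8 := Set.ncard_le_ncard h7 (Finset.finite_toSet _)
            rw [Set.ncard_coe_finset, Finset.card_range] at h8
            omega
          · have hsub2 : ({w | w ∉ S ∧ (if labB q ρ (φ w) = Sum.inl i0 then
              (labB q ρ (φ w), labA (φ w)) else (labB q ρ (φ w), none)) =
              ((Sum.inl i0 : Fin D ⊕ ({e : Fin D × Fin D // e.1 < e.2} × ℕ)),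
                labA (Sum.inr (e, t) : SubVert D s))} : Set V) ⊆
                {w | ∃ t' : Fin s, φ w = Sum.inr (e, t') ∧
                  (ρ ≤ t'.val ∧ (t'.val - ρ) / q = (s - 1 - ρ) / q ∧ t'.val % q ≠ ρ)} := by
              rintro w ⟨hw, h⟩
              obtain ⟨t', h3, h4, h5⟩ := hsub w hw h
              refine ⟨t', h3, ?_⟩
              rw [h3] at h4
              simp only [labB] at h4
              split_ifs at h4 with h6 h7
              · rw [Sum.inl.injEq] at h4
                exact absurd h4 he
              · exact ⟨by omega, h7, h5⟩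
            refine (Set.ncard_le_ncard hsub2 (Set.toFinite _)).trans ?_
            refine (card_edge_le (fun v => φ v) hφ e (fun t => ρ ≤ t ∧
              (t - ρ) / q = (s - 1 - ρ) / q ∧ t % q ≠ ρ)).trans ?_
            exact (seg_card hq hρ).trans hq1
        · simp only [h2, if_false]
          have hsub : ∀ w, (if labB q ρ (φ w) = Sum.inl i0 then
              (labB q ρ (φ w), labA (φ w)) else (labB q ρ (φ w), none)) =
              (labB q ρ (φ v), none) → labB q ρ (φ w) = labB q ρ (φ v) := by
            intro w h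
            split_ifs at h with h3
            · exact (Prod.mk.inj h).1
            · exact (Prod.mk.inj h).1
          rcases hl : labB q ρ (φ v) with i | ⟨e, j⟩
          · -- another spider
            have hne : i ≠ i0 := by
              rintro rfl
              exact h2 hl
            have h3 : ({w | w ∉ S ∧ (if labB q ρ (φ w) = Sum.inl i0 then
                (labB q ρ (φ w), labA (φ w)) else (labB q ρ (φ w), none)) =
                ((Sum.inl i : Fin D ⊕ ({e : Fin D × Fin D // e.1 < e.2} × ℕ)),
                  (none : Option {e : Fin D × Fin D // e.1 < e.2}))} : Set V).ncard ≤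
                ({w | labB q ρ (φ w) = Sum.inl i} : Set V).ncard := by
              apply Set.ncard_le_ncard _ (Set.toFinite _)
              rintro w ⟨-, h⟩
              rw [← hl] at h
              exact (hsub w h).trans hl
            have h4 := hi0 i
            have h5 : ({w | labB q ρ (φ w) = Sum.inl i} : Set V).ncard +
                ({w | labB q ρ (φ w) = Sum.inl i0} : Set V).ncard ≤ Nat.card V := by
              rw [← Set.ncard_union_eq _ (Set.toFinite _) (Set.toFinite _), ← Set.ncard_univ]
              · exact Set.ncard_le_ncard (Set.subset_univ _) (Set.toFinite _)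
              · rw [Set.disjoint_left]
                intro w hw hw'
                have : (Sum.inl i : Fin D ⊕ ({e : Fin D × Fin D // e.1 < e.2} × ℕ)) =
                  Sum.inl i0 := hw.symm.trans hw'
                exact hne (Sum.inl_injective this)
            omega
          · have h3 : ({w | w ∉ S ∧ (if labB q ρ (φ w) = Sum.inl i0 then
                (labB q ρ (φ w), labA (φ w)) else (labB q ρ (φ w), none)) =
                ((Sum.inr (e, j) : Fin D ⊕ ({e : Fin D × Fin D // e.1 < e.2} × ℕ)),
                  (none : Option {e : Fin D × Fin D // e.1 < e.2}))} : Set V) ⊆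
                {w | ∃ t' : Fin s, φ w = Sum.inr (e, t') ∧
                  (ρ ≤ t'.val ∧ (t'.val - ρ) / q = j ∧ t'.val % q ≠ ρ)} := by
              rintro w ⟨hw, h⟩
              rw [← hl] at h
              have h4 := (hsub w h).trans hl
              rcases hw' : φ w with i' | ⟨e', t'⟩
              · rw [hw'] at h4
                simp [labB] at h4
              · rw [hw'] at h4
                simp only [labB] at h4
                split_ifs at h4 with h6 h7
                rw [Sum.inr.injEq, Prod.mk.injEq] at h4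
                refine ⟨t', by rw [hw', h4.1], by omega, h4.2, ?_⟩
                intro h8
                exact hSlev w hw (by rw [hw']; exact ⟨e', t', rfl, h8⟩)
            refine (Set.ncard_le_ncard h3 (Set.toFinite _)).trans ?_
            refine (card_edge_le (fun v => φ v) hφ e (fun t => ρ ≤ t ∧
              (t - ρ) / q = j ∧ t % q ≠ ρ)).trans ?_
            exact (seg_card hq hρ).trans hq1
    omega

end Q109.SubSep
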