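import Mathlib

/-! Rooted form of a tree decomposition given over a Mathlib tree. -/

set_option autoImplicit false

namespace Q109.Tree

open SimpleGraph

variable {ι : Type*}

/-- two neighbours of `i` which are both closer to the root coincide -/
lemma unique_up {T : SimpleGraph ι} (hT : T.IsTree) (r i j k : ι) (hj : T.Adj i j) (hk : T.Adj i k)
    (dj : T.dist r i = T.dist r j + 1) (dk : T.dist r i = T.dist r k + 1) : j = k := by
  classical
  obtain ⟨p, hp, hpl⟩ := (hT.connected r j).exists_path_of_dist
  obtain ⟨q, hq, hql⟩ := (hT.connected r k).exists_path_of_dist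
  have hip : i ∉ p.support := by
    intro h
    have h1 := dist_le (p.takeUntil i h)
    have h2 := Walk.length_takeUntil_le p h
    omega
  have hiq : i ∉ q.support := by
    intro h
    have h1 := dist_le (q.takeUntil i h)
    have h2 := Walk.length_takeUntil_le q h
    omega
  have hp' : (p.concat hj.symm).IsPath := hp.concat hip hj.symm
  have hq' : (q.concat hk.symm).IsPath := hq.concat hiq hk.symm
  have e := hT.IsAcyclic.path_unique ⟨_, hp'⟩ ⟨_, hq'⟩
  have e' : p.concat hj.symm = q.concat hk.symm := by
    simpa using congrArg Subtype.val e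
  have e2 : (p.concat hj.symm).penultimate = (q.concat hk.symm).penultimate := by rw [e']
  simpa using e2

/-- existence of a parent -/
lemma exists_up {T : SimpleGraph ι} (hT : T.IsTree) (r i : ι) (h : i ≠ r) :
    ∃ j, T.Adj i j ∧ T.dist r i = T.dist r j + 1 := by
  obtain ⟨p, hp, hpl⟩ := (hT.connected i r).exists_path_of_dist
  cases p with
  | nil => exact absurd rfl h
  | @cons _ j _ hij q =>
    refine ⟨j, hij, ?_⟩
    have h1 : T.dist i r = q.length + 1 := by rw [← hpl]; simp
    have h2 := dist_le q
    have h3 := hT.dist_eq_dist_add_one_of_adj r hij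
    rw [dist_comm (u := r) (v := i), dist_comm (u := r) (v := j)] at *
    omega

/-- the rooted structure on a tree -/
theorem exists_root [Nonempty ι] {T : SimpleGraph ι} (hT : T.IsTree) (r : ι) :
    ∃ (depth : ι → ℕ) (par : ι → ι),
      depth r = 0 ∧ par r = r ∧ (∀ i, i ≠ r → T.Adj i (par i) ∧ depth i = depth (par i) + 1) ∧
      (∀ i j, T.Adj i j → (par i = j ∧ depth i = depth j + 1) ∨
        (par j = i ∧ depth j = depth i + 1)) := by
  classical
  choose f hf using fun i : {i : ι // i ≠ r} => exists_up hT r i.1 i.2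
  refine ⟨fun i => T.dist r i, fun i => if h : i = r then r else f ⟨i, h⟩, by simp, by simp, ?_, ?_⟩
  · intro i hi
    simp only [hi, dite_false]
    exact hf ⟨i, hi⟩
  · have key : ∀ i j, T.Adj i j → T.dist r i = T.dist r j + 1 →
        (if h : i = r then r else f ⟨i, h⟩) = j := by
      intro i j hij hd
      have hi : i ≠ r := by
        rintro rfl
        simp at hd
      simp only [hi, dite_false]
      exact unique_up hT r i _ _ (hf ⟨i, hi⟩).1 hij (hf ⟨i, hi⟩).2 hd
    intro i j hij
    rcases hT.dist_eq_dist_add_one_of_adj r hij with h | h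
    · left; exact ⟨key i j hij h, h⟩
    · right; exact ⟨key j i hij.symm h, h⟩

/-- a path that starts by going down keeps going down -/
lemma down_path {T : SimpleGraph ι} {depth : ι → ℕ} {par : ι → ι}
    (he : ∀ i j, T.Adj i j → (par i = j ∧ depth i = depth j + 1) ∨
        (par j = i ∧ depth j = depth i + 1)) :
    ∀ {c t : ι} (q : T.Walk c t) (i : ι), par c = i → i ∉ q.support → q.IsPath →
      depth c ≤ depth t := by
  intro c t q
  induction q with
  | nil => intro i _ _ _; exact le_rfl
  | @cons c d t hcd q ih =>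
    intro i hpc hi hq
    rw [Walk.cons_isPath_iff] at hq
    rcases he c d hcd with h | h
    · exfalso
      apply hi
      rw [Walk.support_cons, List.mem_cons]
      right
      rw [← hpc, h.1]
      exact q.start_mem_support
    · have := ih c h.1 hq.2 hq.1
      omega

/-- a connected set of nodes has a top node and is closed under parents except there -/
theorem exists_top {T : SimpleGraph ι} {depth : ι → ℕ} {par : ι → ι}
    (he : ∀ i j, T.Adj i j → (par i = j ∧ depth i = depth j + 1) ∨
        (par j = i ∧ depth j = depth i + 1)) (S : Set ι) (hS : (T.induce S).Connected) :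
    ∃ t ∈ S, ∀ i ∈ S, depth t ≤ depth i ∧ (i ≠ t → par i ∈ S ∧ depth i = depth (par i) + 1) := by
  classical
  obtain ⟨⟨x, hx⟩⟩ := hS.nonempty
  have hne : ∃ n, ∃ t ∈ S, depth t = n := ⟨_, x, hx, rfl⟩
  obtain ⟨t, ht, hdt⟩ := Nat.find_spec hne
  have hmin : ∀ i ∈ S, depth t ≤ depth i := by
    intro i hi
    rw [hdt]
    exact Nat.find_min' hne ⟨i, hi, rfl⟩
  refine ⟨t, ht, fun i hi => ⟨hmin i hi, fun hit => ?_⟩⟩
  obtain ⟨p, hp⟩ := (hS.preconnected ⟨i, hi⟩ ⟨t, ht⟩).exists_isPath
  -- push to T
  cases p with
  | nil => exact absurd rfl hit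
  | @cons _ j _ hij q =>
    obtain ⟨j, hj⟩ := j
    have hij' : T.Adj i j := by simpa using hij
    rcases he i j hij' with h | h
    · refine ⟨by rw [h.1]; exact hj, by rw [h.1]; exact h.2⟩
    · exfalso
      rw [Walk.cons_isPath_iff] at hp
      let φ : T.induce S ↪g T := Embedding.induce S
      have hq : (q.map φ.toHom).IsPath := Walk.map_isPath_of_injective φ.injective hp.1
      have hi' : i ∉ (q.map φ.toHom).support := by
        rw [Walk.support_map]
        intro hc
        rw [List.mem_map] at hc
        obtain ⟨⟨a, ha⟩, ha1, ha2⟩ := hc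
        apply hp.2
        have : a = i := ha2
        subst this
        exact ha1
      have h3 := down_path he (q.map φ.toHom) i h.1 hi' hq
      have h4 : depth j ≤ depth t := h3
      have := hmin i hi
      omega

/-- Rooted tree decomposition data. -/
structure RTD {V : Type*} (G : SimpleGraph V) (ι : Type*) (B : ι → Finset V) where
  depth : ι → ℕ
  par : ι → ι
  root : ι
  depth_root : depth root = 0
  par_root : par root = root
  depth_par : ∀ i, i ≠ root → depth i = depth (par i) + 1
  top : V → ι
  mem_top : ∀ v, v ∈ B (top v)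
  le_depth : ∀ v i, v ∈ B i → depth (top v) ≤ depth i
  mem_par : ∀ v i, v ∈ B i → i ≠ top v → v ∈ B (par i)
  edge : ∀ u v, G.Adj u v → ∃ i, u ∈ B i ∧ v ∈ B i

theorem exists_rtd {V : Type*} {G : SimpleGraph V} {T : SimpleGraph ι} {B : ι → Finset V}
    (hT : T.IsTree) (hE : ∀ u v : V, G.Adj u v → ∃ i, u ∈ B i ∧ v ∈ B i)
    (hC : ∀ v : V, (T.induce {i : ι | v ∈ B i}).Connected) : Nonempty (RTD G ι B) := by
  haveI := hT.connected.nonempty
  obtain ⟨r⟩ := hT.connected.nonempty
  obtain ⟨depth, par, h1, h2, h3, h4⟩ := exists_root hT r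
  choose top ht hm using fun v => exists_top h4 {i : ι | v ∈ B i} (hC v)
  exact ⟨⟨depth, par, r, h1, h2, fun i hi => (h3 i hi).2, top, ht, fun v i hi => (hm v i hi).1,
    fun v i hi hn => ((hm v i hi).2 hn).1, hE⟩⟩

namespace RTD

variable {V : Type*} {G : SimpleGraph V} {B : ι → Finset V}

lemma depth_lt (R : RTD G ι B) {v : V} {i : ι} (h : v ∈ B i) (hi : i ≠ R.top v) :
    R.depth (R.top v) < R.depth i := by
  have h1 := R.le_depth v i h
  have h2 := R.mem_par v i h hi
  have h3 := R.le_depth v _ h2
  by_cases hr : i = R.root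
  · subst hr
    -- depth of top is 0, so top = root
    exfalso
    have h0 : R.depth (R.top v) = 0 := by
      have := R.depth_root
      omega
    apply hi
    by_contra hne
    have := R.depth_par (R.top v) (fun h => hne h.symm)
    omega
  · have := R.depth_par i hr
    omega

/-- two vertices with a common bag: the higher one is in the top bag of the deeper one -/
theorem mem_top_of_common (R : RTD G ι B) {u v : V} (hd : R.depth (R.top u) ≤ R.depth (R.top v)) :
    ∀ (n : ℕ) (i : ι), R.depth i = n → u ∈ B i → v ∈ B i → u ∈ B (R.top v) := by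
  intro n
  induction n with
  | zero =>
    intro i hi hu hv
    by_cases h : i = R.top v
    · rw [← h]; exact hu
    · have := R.depth_lt hv h
      omega
  | succ n ih =>
    intro i hi hu hv
    by_cases h : i = R.top v
    · rw [← h]; exact hu
    · have h1 := R.depth_lt hv h
      have h2 : i ≠ R.top u := by
        rintro rfl
        omega
      have h3 : i ≠ R.root := by
        rintro rfl
        have := R.depth_root
        omega
      have h4 := R.depth_par i h3
      exact ih (R.par i) (by omega) (R.mem_par u i hu h2) (R.mem_par v i hv h)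

theorem mem_top' (R : RTD G ι B) {u v : V} (hd : R.depth (R.top u) ≤ R.depth (R.top v))
    {i : ι} (hu : u ∈ B i) (hv : v ∈ B i) : u ∈ B (R.top v) :=
  R.mem_top_of_common hd _ i rfl hu hv

theorem mem_top_of_adj (R : RTD G ι B) {u v : V} (h : G.Adj u v)
    (hd : R.depth (R.top u) ≤ R.depth (R.top v)) : u ∈ B (R.top v) := by
  obtain ⟨i, hu, hv⟩ := R.edge u v h
  exact R.mem_top' hd hu hv

/-- some bag contains a closed neighbourhood -/
theorem exists_closed_nbhd [Finite V] [Nonempty V] (R : RTD G ι B) :
    ∃ v : V, v ∈ B (R.top v) ∧ ∀ u, G.Adj u v → u ∈ B (R.top v) := by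
  obtain ⟨v, hv⟩ := Finite.exists_max (fun v => R.depth (R.top v))
  exact ⟨v, R.mem_top v, fun u hu => R.mem_top_of_adj hu (hv u)⟩

end RTD

end Q109.Tree
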